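import Pool.Agent.T2h78.TW.S

/-!
# The combinatorial identity
-/

set_option autoImplicit false

namespace Pool.Agent.T2h78.TW

variable {ι : Type} [DecidableEq ι]

namespace CI

theorem two0 (a : ZMod 2) : a + a = 0 := CharTwo.add_self_eq_zero a

theorem gd_congr {c c' : ι → ZMod 2} {r : ι → ι → ZMod 2} {A : Finset ι}
    (h : ∀ i ∈ A, c i = c' i) : gd c r A = gd c' r A := by
  unfold gd
  congr 1
  ext i j
  simp only [Matrix.of_apply]
  rw [h i.1 i.2]

theorem gd_zero {r : ι → ι → ZMod 2} {A : Finset ι} (hA : A.Nonempty) :
    gd (fun _ => 0) r A = 0 := by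
  unfold gd
  have hne : (fun _ : A => (1 : ZMod 2)) ≠ 0 := by
    obtain ⟨a, ha⟩ := hA
    intro h
    have := congrFun h ⟨a, ha⟩
    simp at this
  refine Matrix.exists_mulVec_eq_zero_iff.mp ⟨fun _ => 1, hne, ?_⟩
  funext i
  simp only [Matrix.mulVec, dotProduct, Matrix.of_apply, mul_one, Pi.zero_apply, zero_add]
  rw [← Finset.add_sum_erase _ _ (Finset.mem_univ i)]
  simp only [if_true]
  have : ∑ x ∈ Finset.univ.erase i, (if i = x then ∑ k ∈ A.erase i.1, r i.1 k else r i.1 x.1)
      = ∑ k ∈ A.erase i.1, r i.1 k := by
    rw [Finset.sum_congr rfl (g := fun x : A => r i.1 x.1)]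
    · refine Finset.sum_bij (fun x _ => x.1) ?_ ?_ ?_ ?_
      · intro x hx
        rw [Finset.mem_erase] at hx ⊢
        exact ⟨fun h => hx.1 (Subtype.ext h), x.2⟩
      · intro x _ y _ h
        exact Subtype.ext h
      · intro b hb
        rw [Finset.mem_erase] at hb
        exact ⟨⟨b, hb.2⟩, Finset.mem_erase.mpr ⟨fun h => hb.1 (congrArg Subtype.val h),
          Finset.mem_univ _⟩, rfl⟩
      · intro x _
        rfl
    · intro x hx
      rw [if_neg (Finset.ne_of_mem_erase hx).symm]
  rw [this]
  exact two0 _

/-- changing one diagonal entry -/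
theorem gd_step (c : ι → ZMod 2) (r : ι → ι → ZMod 2) (B : Finset ι) {k : ι} (hk : k ∉ B) :
    gd (fun i => c i + Pi.single (M := fun _ => ZMod 2) k 1 i) r (insert k B) =
      gd c r (insert k B) + gd (fun i => c i + r i k) r B := by
  classical
  set A := insert k B with hA
  set kk : A := ⟨k, Finset.mem_insert_self k B⟩ with hkk
  set M : Matrix A A (ZMod 2) := Matrix.of fun i j : A =>
    if i = j then c i + ∑ k ∈ A.erase i, r i k else r i j with hM
  have h1 : gd (fun i => c i + Pi.single (M := fun _ => ZMod 2) k 1 i) r A =
      (M.updateRow kk (M kk + Pi.single kk 1)).det := by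
    unfold gd
    congr 1
    ext i j
    rw [Matrix.updateRow_apply]
    by_cases hi : i = kk
    · subst hi
      rw [if_pos rfl]
      simp only [Matrix.of_apply, Pi.add_apply, hM]
      by_cases hj : kk = j
      · subst hj
        simp [hkk]
        ring
      · rw [if_neg hj, if_neg hj, Pi.single_eq_of_ne (Ne.symm hj), add_zero]
    · rw [if_neg hi]
      simp only [Matrix.of_apply, hM]
      have : i.1 ≠ k := fun h => hi (Subtype.ext h)
      rw [Pi.single_eq_of_ne this, add_zero]
  have h2 : gd c r A = M.det := rfl
  have h3 : M.updateRow kk (M kk) = M := by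
    ext i j
    rw [Matrix.updateRow_apply]
    split_ifs with h
    · rw [h]
    · rfl
  have h4 : (M.updateRow kk (Pi.single kk 1)).det = gd (fun i => c i + r i k) r B := by
    rw [Matrix.twoBlockTriangular_det _ (fun i : A => i ≠ kk)]
    · have e1 : (Matrix.toSquareBlockProp (M.updateRow kk (Pi.single kk 1))
          fun i => ¬ (fun i : A => i ≠ kk) i).det = 1 := by
        have : Subsingleton {a : A // ¬ (fun i : A => i ≠ kk) a} :=
          ⟨fun a b => by
            have ha : a.1 = kk := by simpa using a.2
            have hb : b.1 = kk := by simpa using b.2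
            exact Subtype.ext (ha.trans hb.symm)⟩
        rw [Matrix.det_eq_elem_of_subsingleton _ ⟨kk, by simp⟩]
        simp [Matrix.toSquareBlockProp]
      rw [e1, mul_one]
      let eq : {a : A // (fun i : A => i ≠ kk) a} ≃ B :=
        { toFun := fun a => ⟨a.1.1, (Finset.mem_insert.mp a.1.2).resolve_left
            fun h => a.2 (Subtype.ext h)⟩
          invFun := fun b => ⟨⟨b.1, Finset.mem_insert_of_mem b.2⟩, fun h => hk (by
            have := congrArg Subtype.val h
            simp only [hkk] at this
            rw [← this]; exact b.2)⟩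
          left_inv := fun a => rfl
          right_inv := fun b => rfl }
      rw [← Matrix.det_reindex_self eq]
      unfold gd
      congr 1
      ext i j
      have hik : i.1 ≠ k := fun h => hk (h ▸ i.2)
      have hik' : (eq.symm i).1 ≠ kk := (eq.symm i).2
      rw [Matrix.reindex_apply, Matrix.submatrix_apply, Matrix.toSquareBlockProp,
        Matrix.toBlock_apply, Matrix.updateRow_ne hik', Matrix.of_apply]
      simp only [hM, Matrix.of_apply]
      by_cases hij : i = j
      · subst hij
        rw [if_pos rfl, if_pos rfl]
        have h5 : (insert k B).erase i.1 = insert k (B.erase i.1) := by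
          rw [Finset.erase_insert_of_ne hik.symm]
        have h6 : k ∉ B.erase i.1 := fun h => hk (Finset.mem_of_mem_erase h)
        change c i.1 + ∑ k ∈ (insert k B).erase i.1, r i.1 k = _
        rw [h5, Finset.sum_insert h6]
        ring
      · have : (eq.symm i).1 ≠ (eq.symm j).1 := fun h => hij (eq.symm.injective (Subtype.ext h))
        rw [if_neg hij, if_neg this]
        rfl
    · intro i hi j hj
      have hi' : i = kk := by simpa using hi
      rw [hi', Matrix.updateRow_self, Pi.single_eq_of_ne hj]
  rw [h1, Matrix.det_updateRow_add, h3, h4, h2]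

/-- the sum with prescribed parity -/
def GG (e : ι → ZMod 2) (r : ι → ι → ZMod 2) (S : Finset ι) (c : ι → ZMod 2) (p : ZMod 2) :
    ZMod 2 :=
  ∑ A ∈ S.powerset, if ∑ i ∈ A, e i = p then
    gd c r A * ∏ i ∈ S \ A, (c i + ∑ j ∈ A, r i j) else 0

theorem GG_congr {e : ι → ZMod 2} {r : ι → ι → ZMod 2} {S : Finset ι} {c c' : ι → ZMod 2}
    {p : ZMod 2} (h : ∀ i ∈ S, c i = c' i) : GG e r S c p = GG e r S c' p := by
  unfold GG
  refine Finset.sum_congr rfl fun A hA => ?_
  rw [Finset.mem_powerset] at hA
  rw [gd_congr fun i hi => h i (hA hi), Finset.prod_congr rfl fun i hi => by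
    rw [h i (Finset.mem_sdiff.mp hi).1]]

theorem GG_step (e : ι → ZMod 2) (r : ι → ι → ZMod 2) (B : Finset ι) (c : ι → ZMod 2)
    (p : ZMod 2) {k : ι} (hk : k ∉ B) :
    GG e r (insert k B) (fun i => c i + Pi.single (M := fun _ => ZMod 2) k 1 i) p =
      GG e r (insert k B) c p + GG e r B c p + GG e r B (fun i => c i + r i k) (p + e k) := by
  unfold GG
  rw [Finset.sum_powerset_insert hk, Finset.sum_powerset_insert hk]
  have hA : ∑ A ∈ B.powerset, (if ∑ i ∈ A, e i = p then
        gd (fun i => c i + Pi.single (M := fun _ => ZMod 2) k 1 i) r A *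
          ∏ i ∈ insert k B \ A, (c i + Pi.single (M := fun _ => ZMod 2) k 1 i + ∑ j ∈ A, r i j)
        else 0) =
      ∑ A ∈ B.powerset, (if ∑ i ∈ A, e i = p then
        gd c r A * ∏ i ∈ insert k B \ A, (c i + ∑ j ∈ A, r i j) else 0) +
      ∑ A ∈ B.powerset, (if ∑ i ∈ A, e i = p then
        gd c r A * ∏ i ∈ B \ A, (c i + ∑ j ∈ A, r i j) else 0) := by
    rw [← Finset.sum_add_distrib]
    refine Finset.sum_congr rfl fun A hA => ?_
    rw [Finset.mem_powerset] at hA
    have hkA : k ∉ A := fun h => hk (hA h)
    split_ifs with hp
    · rw [gd_congr (c := fun i => c i + Pi.single (M := fun _ => ZMod 2) k 1 i) (c' := c)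
        fun i hi => by
          have : i ≠ k := fun h => hkA (h ▸ hi)
          simp [Pi.single_eq_of_ne this]]
      rw [Finset.insert_sdiff_of_notMem _ hkA, Finset.prod_insert (fun h => hk (Finset.mem_sdiff.mp h).1),
        Finset.prod_insert (fun h => hk (Finset.mem_sdiff.mp h).1)]
      rw [Finset.prod_congr (g := fun i => c i + ∑ j ∈ A, r i j) rfl fun i hi => by
        have : i ≠ k := fun h => hk (h ▸ (Finset.mem_sdiff.mp hi).1)
        simp [Pi.single_eq_of_ne this]]
      rw [Pi.single_eq_same]
      ring
    · simp
  have hB : ∑ A ∈ B.powerset, (if ∑ i ∈ insert k A, e i = p then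
        gd (fun i => c i + Pi.single (M := fun _ => ZMod 2) k 1 i) r (insert k A) *
          ∏ i ∈ insert k B \ insert k A,
            (c i + Pi.single (M := fun _ => ZMod 2) k 1 i + ∑ j ∈ insert k A, r i j)
        else 0) =
      ∑ A ∈ B.powerset, (if ∑ i ∈ insert k A, e i = p then
        gd c r (insert k A) * ∏ i ∈ insert k B \ insert k A, (c i + ∑ j ∈ insert k A, r i j)
        else 0) +
      ∑ A ∈ B.powerset, (if ∑ i ∈ A, e i = p + e k then
        gd (fun i => c i + r i k) r A * ∏ i ∈ B \ A, (c i + r i k + ∑ j ∈ A, r i j) else 0) := by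
    rw [← Finset.sum_add_distrib]
    refine Finset.sum_congr rfl fun A hA => ?_
    rw [Finset.mem_powerset] at hA
    have hkA : k ∉ A := fun h => hk (hA h)
    have hpar : (∑ i ∈ insert k A, e i = p) ↔ (∑ i ∈ A, e i = p + e k) := by
      rw [Finset.sum_insert hkA]
      constructor
      · intro h
        rw [← h]
        have := two0 (e k)
        linear_combination -this
      · intro h
        rw [h]
        have := two0 (e k)
        linear_combination this
    have hsd : insert k B \ insert k A = B \ A := by
      ext x
      simp only [Finset.mem_sdiff, Finset.mem_insert, not_or]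
      constructor
      · rintro ⟨h1, h2, h3⟩
        exact ⟨h1.resolve_left h2, h3⟩
      · rintro ⟨h1, h2⟩
        exact ⟨Or.inr h1, fun h => hk (h ▸ h1), h2⟩
    simp only [hpar, hsd]
    split_ifs with hp
    · rw [gd_step c r A hkA]
      have e1 : ∏ i ∈ B \ A, (c i + Pi.single (M := fun _ => ZMod 2) k 1 i +
          ∑ j ∈ insert k A, r i j) = ∏ i ∈ B \ A, (c i + r i k + ∑ j ∈ A, r i j) := by
        refine Finset.prod_congr rfl fun i hi => ?_
        have : i ≠ k := fun h => hk (h ▸ (Finset.mem_sdiff.mp hi).1)
        rw [Pi.single_eq_of_ne this, Finset.sum_insert hkA]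
        ring
      have e2 : ∏ i ∈ B \ A, (c i + ∑ j ∈ insert k A, r i j) =
          ∏ i ∈ B \ A, (c i + r i k + ∑ j ∈ A, r i j) := by
        refine Finset.prod_congr rfl fun i hi => ?_
        rw [Finset.sum_insert hkA]
        ring
      rw [e1, e2]
      ring
    · simp
  rw [hA, hB]
  ring

theorem GG_zero (e : ι → ZMod 2) (r : ι → ι → ZMod 2) (S : Finset ι) :
    GG e r S (fun _ => 0) 1 = 0 := by
  unfold GG
  refine Finset.sum_eq_zero fun A _ => ?_
  rcases A.eq_empty_or_nonempty with h | h
  · subst h
    simp
  · rw [gd_zero h]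
    simp

theorem GG_par (e : ι → ZMod 2) (r : ι → ι → ZMod 2) (S : Finset ι) (c : ι → ZMod 2)
    (hrec : S_REC) (hS : S.Nonempty) : GG e r S c 0 = GG e r S c 1 := by
  have h : GG e r S c 0 + GG e r S c 1 = 0 := by
    refine Eq.trans ?_ (hrec ι c r S hS)
    unfold GG
    rw [← Finset.sum_add_distrib]
    refine Finset.sum_congr rfl fun A _ => ?_
    generalize ∑ i ∈ A, e i = x
    have : x = 0 ∨ x = 1 := by
      revert x; decide
    rcases this with rfl | rfl
    · simp
    · simp
  have := two0 (GG e r S c 1)
  linear_combination h - this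

end CI

open CI

/-- TASK C -/
theorem t_C : T_C := by
  intro ι _ c e r S hrec
  have key : ∀ (n : ℕ) (S : Finset ι), S.card = n → S.Nonempty →
      (∀ i ∈ S, ∀ k ∈ S, i ≠ k → r i k + r k i = e i * e k) →
      (∀ A ⊆ S, A.Nonempty → ∑ i ∈ A, e i * hh e r A.card A i = ∏ i ∈ A, e i) →
      ∀ c : ι → ZMod 2, GG e r S c 1 = ∑ i ∈ S, c i * hh e r S.card S i := by
    intro n
    induction n with
    | zero =>
      intro S hS hne
      exact absurd (Finset.card_eq_zero.mp hS) hne.ne_empty
    | succ n ih =>
      intro S hS hne hr hQ
      -- one increment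
      have inc : ∀ (c : ι → ZMod 2), ∀ k ∈ S,
          GG e r S (fun i => c i + Pi.single (M := fun _ => ZMod 2) k 1 i) 1 =
            GG e r S c 1 + hh e r S.card S k := by
        intro c k hk
        set B := S.erase k with hB
        have hkB : k ∉ B := Finset.notMem_erase k S
        have hSB : S = insert k B := (Finset.insert_erase hk).symm
        have hBc : B.card = n := by rw [hB, Finset.card_erase_of_mem hk, hS]; rfl
        have h1 := GG_step e r B c 1 hkB
        rw [← hSB] at h1
        rw [h1, hS]
        have hh1 : hh e r (n + 1) S k =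
            ∑ x ∈ B, r k x * hh e r n B x + e k * ∏ j ∈ B, e j := rfl
        rw [hh1, add_assoc]
        congr 1
        rcases B.eq_empty_or_nonempty with hBe | hBn
        · rw [hBe]
          simp only [Finset.sum_empty, Finset.prod_empty, mul_one, zero_add]
          unfold GG
          simp only [Finset.powerset_empty, Finset.sum_singleton, Finset.sum_empty,
            Finset.sdiff_self, Finset.prod_empty, mul_one]
          have hz : ∀ x : ZMod 2, (if (0 : ZMod 2) = 1 + x then (1 : ZMod 2) else 0) = x := by
            decide
          have hg : ∀ c : ι → ZMod 2, gd c r ∅ = 1 := by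
            intro c
            unfold gd
            exact Matrix.det_isEmpty
          rw [hg, hg, hz]
          simp
        · have hr' : ∀ i ∈ B, ∀ k ∈ B, i ≠ k → r i k + r k i = e i * e k :=
            fun i hi k hk' => hr i (Finset.mem_of_mem_erase hi) k (Finset.mem_of_mem_erase hk')
          have hQ' : ∀ A ⊆ B, A.Nonempty → ∑ i ∈ A, e i * hh e r A.card A i = ∏ i ∈ A, e i :=
            fun A hA => hQ A (hA.trans (Finset.erase_subset _ _))
          have h2 : GG e r B (fun i => c i + r i k) (1 + e k) =
              GG e r B (fun i => c i + r i k) 1 := by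
            have : e k = 0 ∨ e k = 1 := by
              generalize e k = x
              revert x; decide
            rcases this with h | h
            · rw [h, add_zero]
            · rw [h]
              exact GG_par e r B _ hrec hBn
          rw [h2, ih B hBc hBn hr' hQ', ih B hBc hBn hr' hQ', hBc, ← Finset.sum_add_distrib]
          have h3 := hQ' B (le_refl _) hBn
          rw [hBc] at h3
          rw [← h3, Finset.mul_sum, ← Finset.sum_add_distrib]
          refine Finset.sum_congr rfl fun x hx => ?_
          have h4 := hr x (Finset.mem_of_mem_erase hx) k hk (Finset.ne_of_mem_erase hx)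
          have h5 := two0 (c x)
          have h6 := two0 (r k x)
          linear_combination (hh e r n B x) * h5 + (hh e r n B x) * (h4) - (hh e r n B x) * h6
      -- all `c`
      have all : ∀ T ⊆ S, GG e r S (fun i => if i ∈ T then 1 else 0) 1 =
          ∑ i ∈ T, hh e r S.card S i := by
        intro T
        induction T using Finset.induction with
        | empty =>
          intro _
          simpa using GG_zero e r S
        | insert k T hkT ihT =>
          intro hT
          rw [Finset.sum_insert hkT, ← ihT ((Finset.subset_insert k T).trans hT), add_comm,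
            ← inc _ k (hT (Finset.mem_insert_self k T))]
          refine GG_congr fun i _ => ?_
          by_cases hi : i = k
          · subst hi
            simp [hkT]
          · simp [hi]
      intro c
      have h1 : GG e r S c 1 =
          GG e r S (fun i => if i ∈ S.filter (fun i => c i = 1) then 1 else 0) 1 := by
        refine GG_congr fun i hi => ?_
        have : c i = 0 ∨ c i = 1 := by
          generalize c i = x
          revert x; decide
        rcases this with h | h
        · simp [h]
        · simp [h, hi]
      rw [h1, all _ (Finset.filter_subset _ _), Finset.sum_filter]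
      refine Finset.sum_congr rfl fun i _ => ?_
      have : c i = 0 ∨ c i = 1 := by
        generalize c i = x
        revert x; decide
      rcases this with h | h
      · simp [h]
      · simp [h]
  intro hne hr hQ
  rw [← key S.card S rfl hne hr hQ c, Finset.sum_filter]
  rfl

end Pool.Agent.T2h78.TW

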