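import Pool.Agent.T2h78.TW.S

/-!
# Sums over the classes modulo a product of primes, modulo the primes above two
-/

set_option autoImplicit false
set_option linter.unusedSectionVars false

namespace Pool.Agent.T2h78.TW

open Classical

namespace EI

section sums

variable {R : Type} [CommRing R] [IsDomain R]

/-- sum over the classes modulo `n` -/
noncomputable def Sg (n : R) (f : R → ℂ) : ℂ := ∑ᶠ x : R ⧸ Ideal.span {n}, f x.out

theorem out_dvd (n y : R) : n ∣ y - (Ideal.Quotient.mk (Ideal.span {n}) y).out := by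
  rw [← Ideal.mem_span_singleton, ← Ideal.Quotient.eq]
  exact (Ideal.Quotient.mk_out _).symm

theorem mk_eq {n x y : R} : Ideal.Quotient.mk (Ideal.span {n}) x = Ideal.Quotient.mk _ y ↔
    n ∣ x - y := by
  rw [Ideal.Quotient.eq, Ideal.mem_span_singleton]

theorem out_eq {n : R} {x y : R ⧸ Ideal.span {n}} (h : n ∣ x.out - y.out) : x = y := by
  rw [← Ideal.Quotient.mk_out x, ← Ideal.Quotient.mk_out y]
  exact mk_eq.mpr h

/-- the bijection of the Chinese remainder type -/
theorem comb_bij (q n : R) (hn : n ≠ 0) : Function.Bijective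
    (fun p : (R ⧸ Ideal.span {n}) × (R ⧸ Ideal.span {q}) =>
      Ideal.Quotient.mk (Ideal.span {q * n}) (p.1.out + n * p.2.out)) := by
  constructor
  · rintro ⟨a, b⟩ ⟨a', b'⟩ h
    simp only at h
    rw [mk_eq] at h
    have h1 : n ∣ a.out - a'.out := by
      have h2 : n ∣ (a.out + n * b.out) - (a'.out + n * b'.out) :=
        (Dvd.intro_left q rfl).trans h
      have h3 : a.out - a'.out = ((a.out + n * b.out) - (a'.out + n * b'.out)) -
          n * (b.out - b'.out) := by ring
      rw [h3]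
      exact dvd_sub h2 (Dvd.intro _ rfl)
    have ha : a = a' := out_eq h1
    subst ha
    have h4 : q ∣ b.out - b'.out := by
      obtain ⟨w, hw⟩ := h
      refine ⟨w, mul_left_cancel₀ hn ?_⟩
      linear_combination hw
    rw [out_eq h4]
  · intro x
    obtain ⟨u, hu⟩ := out_dvd n x.out
    obtain ⟨w, hw⟩ := out_dvd q u
    refine ⟨(Ideal.Quotient.mk _ x.out, Ideal.Quotient.mk _ u), ?_⟩
    simp only
    conv_rhs => rw [← Ideal.Quotient.mk_out x]
    rw [mk_eq]
    refine ⟨-w, ?_⟩
    linear_combination -hu - n * hw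

theorem fin_comb {q n : R} (hn : n ≠ 0) (h1 : Finite (R ⧸ Ideal.span {n}))
    (h2 : Finite (R ⧸ Ideal.span {q})) : Finite (R ⧸ Ideal.span {q * n}) :=
  Finite.of_surjective _ (comb_bij q n hn).2

theorem Sg_comb {q n : R} (hn : n ≠ 0) (h1 : Finite (R ⧸ Ideal.span {n}))
    (h2 : Finite (R ⧸ Ideal.span {q})) (f : R → ℂ) (hf : ∀ x y, q * n ∣ x - y → f x = f y) :
    Sg (q * n) f = Sg n fun y => Sg q fun t => f (y + n * t) := by
  unfold Sg
  rw [← finsum_eq_of_bijective _ (comb_bij q n hn) (f := fun p => f (p.1.out + n * p.2.out))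
    (fun p => hf _ _ (out_dvd _ _))]
  exact finsum_curry _ (Set.toFinite _)

theorem Sg_div {q n : R} (hq : q ≠ 0) (f : R → ℂ) (hf : ∀ x y, q * n ∣ x - y → f x = f y) :
    (∑ᶠ x : R ⧸ Ideal.span {q * n}, if q ∣ x.out then f x.out else 0) =
      Sg n fun y => f (q * y) := by
  unfold Sg
  set g : R ⧸ Ideal.span {n} → R ⧸ Ideal.span {q * n} :=
    fun y => Ideal.Quotient.mk _ (q * y.out) with hg
  have hinj : Function.Injective g := by
    intro a b h
    simp only [hg] at h
    rw [mk_eq] at h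
    obtain ⟨w, hw⟩ := h
    exact out_eq ⟨w, mul_left_cancel₀ hq (by linear_combination hw)⟩
  have hdiv : ∀ a, q ∣ (g a).out := by
    intro a
    obtain ⟨w, hw⟩ := out_dvd (q * n) (q * a.out)
    exact ⟨a.out - n * w, by simp only [hg]; linear_combination -hw⟩
  have h1 : ∀ a, f (q * a.out) = (if q ∣ (g a).out then f (g a).out else 0) := by
    intro a
    rw [if_pos (hdiv a)]
    exact hf _ _ (out_dvd _ _)
  rw [finsum_congr h1, ← finsum_mem_range (f := fun x : R ⧸ Ideal.span {q * n} =>
    if q ∣ x.out then f x.out else 0) hinj]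
  rw [finsum_mem_def]
  refine finsum_congr fun x => ?_
  by_cases hx : x ∈ Set.range g
  · rw [Set.indicator_of_mem hx]
  · rw [Set.indicator_of_notMem hx, if_neg]
    rintro ⟨w, hw⟩
    apply hx
    refine ⟨Ideal.Quotient.mk _ w, ?_⟩
    simp only [hg]
    conv_rhs => rw [← Ideal.Quotient.mk_out x]
    rw [mk_eq, hw]
    obtain ⟨z, hz⟩ := out_dvd n w
    exact ⟨-z, by linear_combination -q * hz⟩

theorem Sg_add {n : R} (hn : Finite (R ⧸ Ideal.span {n})) (f g : R → ℂ) :
    Sg n (fun x => f x + g x) = Sg n f + Sg n g :=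
  finsum_add_distrib (Set.toFinite _) (Set.toFinite _)

theorem Sg_mul {n : R} (f : R → ℂ) (a : ℂ) :
    Sg n (fun x => a * f x) = a * Sg n f :=
  (mul_finsum _ _).symm

theorem Sg_congr {n : R} {f g : R → ℂ} (h : ∀ x, f x = g x) : Sg n f = Sg n g :=
  finsum_congr fun _ => h _

/-- an invertible affine substitution -/
theorem Sg_affine {n : R} (a b : R) (h : IsCoprime n a) (f : R → ℂ)
    (hf : ∀ x y, n ∣ x - y → f x = f y) : Sg n (fun x => f (b + a * x)) = Sg n f := by
  unfold Sg
  have hb : Function.Bijective (fun x : R ⧸ Ideal.span {n} =>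
      Ideal.Quotient.mk (Ideal.span {n}) (b + a * x.out)) := by
    constructor
    · intro x y hxy
      simp only at hxy
      rw [mk_eq] at hxy
      refine out_eq (h.dvd_of_dvd_mul_left ?_)
      have : a * (x.out - y.out) = b + a * x.out - (b + a * y.out) := by ring
      rw [this]
      exact hxy
    · intro x
      obtain ⟨u, w, huw⟩ := h
      refine ⟨Ideal.Quotient.mk _ (w * (x.out - b)), ?_⟩
      simp only
      conv_rhs => rw [← Ideal.Quotient.mk_out x]
      rw [mk_eq]
      obtain ⟨z, hz⟩ := out_dvd n (w * (x.out - b))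
      refine ⟨-a * z - u * (x.out - b), ?_⟩
      linear_combination (x.out - b) * huw - a * hz
  exact finsum_eq_of_bijective _ hb fun x => hf _ _ (out_dvd _ _)

theorem Sg_neg {n : R} (f : R → ℂ) (hf : ∀ x y, n ∣ x - y → f x = f y) :
    Sg n (fun x => f (-x)) = Sg n f := by
  have := Sg_affine (n := n) (-1) 0 (isCoprime_one_right.neg_right) f hf
  rw [← this]
  refine Sg_congr fun x => ?_
  congr 1
  ring

theorem Sg_one {n : R} (hn : Finite (R ⧸ Ideal.span {n})) :
    Sg n (fun _ => 1) = (Nat.card (R ⧸ Ideal.span {n}) : ℂ) := by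
  unfold Sg
  have := Fintype.ofFinite (R ⧸ Ideal.span {n})
  rw [finsum_eq_sum_of_fintype, Finset.sum_const, Finset.card_univ, nsmul_eq_mul, mul_one,
    Nat.card_eq_fintype_card]

theorem Sg_unit (f : R → ℂ) (hf : ∀ x y, f x = f y) : Sg 1 f = f 0 := by
  unfold Sg
  have : Subsingleton (R ⧸ Ideal.span {(1 : R)}) :=
    ⟨fun x y => out_eq (one_dvd _)⟩
  rw [finsum_eq_single _ (Ideal.Quotient.mk _ 0)]
  · exact hf _ _
  · intro x hx
    exact absurd (Subsingleton.elim _ _) hx

end sums

section val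

variable {Γ : Type} [LinearOrderedCommGroupWithZero Γ] {v : Valuation ℂ Γ}

theorem v_nat (v : Valuation ℂ Γ) (n : ℕ) : v (n : ℂ) ≤ 1 := by
  induction n with
  | zero => simp
  | succ n ih =>
    rw [Nat.cast_succ]
    exact (v.map_add _ _).trans (max_le ih (by simp))

theorem lt_add {x y : ℂ} (hx : v x < 1) (hy : v y < 1) : v (x + y) < 1 :=
  (v.map_add x y).trans_lt (max_lt hx hy)

theorem lt_mul {x y : ℂ} (hx : v x < 1) (hy : v y ≤ 1) : v (x * y) < 1 := by
  rw [v.map_mul]
  exact mul_lt_one_of_lt_of_le hx hy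

theorem Rd_congr {z w : ℂ} {a : ZMod 2} (h : v (z - w) < 1) (hw : Rd v w a) : Rd v z a := by
  unfold Rd at hw ⊢
  have : z - (a.val : ℂ) = (z - w) + (w - (a.val : ℂ)) := by ring
  rw [this]
  exact lt_add h hw

theorem even_lt (h2 : v 2 < 1) {m n : ℕ} (h : (m : ZMod 2) = (n : ZMod 2)) :
    v ((m : ℂ) - (n : ℂ)) < 1 := by
  have hz : ((m : ℤ) : ZMod 2) = ((n : ℤ) : ZMod 2) := by exact_mod_cast h
  rw [← sub_eq_zero, ← Int.cast_sub, ZMod.intCast_zmod_eq_zero_iff_dvd] at hz
  obtain ⟨k, hk⟩ := hz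
  have h1 : (m : ℂ) - (n : ℂ) = 2 * (k : ℂ) := by
    have : ((m : ℤ) - (n : ℤ) : ℤ) = 2 * k := by exact_mod_cast hk
    exact_mod_cast this
  rw [h1]
  refine lt_mul h2 ?_
  rcases Int.eq_nat_or_neg k with ⟨j, rfl | rfl⟩
  · exact_mod_cast v_nat v j
  · rw [Int.cast_neg, v.map_neg]
    exact_mod_cast v_nat v j

theorem Rd_nat (h2 : v 2 < 1) {m : ℕ} {a : ZMod 2} (h : (m : ZMod 2) = a) : Rd v (m : ℂ) a := by
  unfold Rd
  refine even_lt h2 ?_
  rw [h, ZMod.natCast_zmod_val]

theorem Rd_add (h2 : v 2 < 1) {z w : ℂ} {a b : ZMod 2} (hz : Rd v z a) (hw : Rd v w b) :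
    Rd v (z + w) (a + b) := by
  have h1 : Rd v ((a.val + b.val : ℕ) : ℂ) (a + b) := Rd_nat h2 (by simp)
  refine Rd_congr ?_ h1
  have : z + w - ((a.val + b.val : ℕ) : ℂ) = (z - (a.val : ℂ)) + (w - (b.val : ℂ)) := by
    push_cast; ring
  rw [this]
  exact lt_add hz hw

theorem Rd_le {z : ℂ} {a : ZMod 2} (hz : Rd v z a) : v z ≤ 1 := by
  have : z = (z - (a.val : ℂ)) + (a.val : ℂ) := by ring
  rw [this]
  exact (v.map_add _ _).trans (max_le hz.le (v_nat v _))

theorem Rd_mul (h2 : v 2 < 1) {z w : ℂ} {a b : ZMod 2} (hz : Rd v z a) (hw : Rd v w b) :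
    Rd v (z * w) (a * b) := by
  have h1 : Rd v ((a.val * b.val : ℕ) : ℂ) (a * b) := Rd_nat h2 (by simp)
  refine Rd_congr ?_ h1
  have : z * w - ((a.val * b.val : ℕ) : ℂ) = (z - (a.val : ℂ)) * w +
      (w - (b.val : ℂ)) * (a.val : ℂ) := by
    push_cast; ring
  rw [this]
  exact lt_add (lt_mul hz (Rd_le hw)) (lt_mul hw (v_nat v _))

theorem Rd_neg (h2 : v 2 < 1) {z : ℂ} {a : ZMod 2} (hz : Rd v z a) : Rd v (-z) a := by
  refine Rd_congr ?_ hz
  have : -z - z = 2 * (-z) := by ring
  rw [this]
  exact lt_mul h2 (by rw [v.map_neg]; exact Rd_le hz)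

theorem Rd_sub (h2 : v 2 < 1) {z w : ℂ} {a b : ZMod 2} (hz : Rd v z a) (hw : Rd v w b) :
    Rd v (z - w) (a + b) := by
  rw [sub_eq_add_neg]
  exact Rd_add h2 hz (Rd_neg h2 hw)

theorem Rd_unique {z : ℂ} {a b : ZMod 2} (hz : Rd v z a) (hw : Rd v z b) : a = b := by
  by_contra h
  unfold Rd at hz hw
  have h1 : v ((a.val : ℂ) - (b.val : ℂ)) < 1 := by
    have : (a.val : ℂ) - (b.val : ℂ) = (z - (b.val : ℂ)) + -(z - (a.val : ℂ)) := by ring
    rw [this]
    exact lt_add hw (by rw [v.map_neg]; exact hz)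
  have h2 : (a = 0 ∧ b = 1) ∨ (a = 1 ∧ b = 0) := by
    clear hz hw h1
    revert a b; decide
  rcases h2 with ⟨rfl, rfl⟩ | ⟨rfl, rfl⟩
  · simp [ZMod.val_one] at h1
  · simp [ZMod.val_one] at h1

theorem Rd_zero {z : ℂ} (h : v z < 1) : Rd v z 0 := by
  unfold Rd
  simpa using h

end val

section main

variable {Γ : Type} [LinearOrderedCommGroupWithZero Γ] {R : Type} [CommRing R]
  [IsDomain R] {ι : Type} [DecidableEq ι] {v : Valuation ℂ Γ}
  {c : R →+* ℂ} {W : R → R → ℂ} {S0 : Finset ι} {π : ι → R} {s : ι → R → ZMod 2}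
  {e : ι → ZMod 2} {ν : ι → ℂ}

/-- the condition on the class -/
def PP (π : ι → R) (s : ι → R → ZMod 2) (S : Finset ι) (t : ι → ZMod 2) (x : R) : Prop :=
  ∀ i ∈ S, ¬ π i ∣ x ∧ s i x = t i

theorem zcases (a b : ZMod 2) : (a = b ∧ a ≠ b + 1) ∨ (a = b + 1 ∧ a ≠ b) := by
  revert a b; decide

theorem PP_insert {S : Finset ι} {t : ι → ZMod 2} {x : R} {i : ι} :
    PP π s (insert i S) t x ↔ (¬ π i ∣ x ∧ s i x = t i) ∧ PP π s S t x := by
  unfold PP
  exact Finset.forall_mem_insert _ _ _

theorem PP_congr {S : Finset ι} {t t' : ι → ZMod 2} {x : R} (h : ∀ i ∈ S, t i = t' i) :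
    PP π s S t x ↔ PP π s S t' x := by
  unfold PP
  exact forall₂_congr fun i hi => by rw [h i hi]

theorem dvd_iff {p x y : R} (h : p ∣ x - y) : p ∣ x ↔ p ∣ y := by
  constructor
  · intro hx
    have : y = x - (x - y) := by ring
    rw [this]
    exact dvd_sub hx h
  · intro hy
    have : x = (x - y) + y := by ring
    rw [this]
    exact dvd_add h hy

variable (H : Dat v c W S0 π s e ν)

include H

theorem PP_per {S : Finset ι} (hS : S ⊆ S0) {t : ι → ZMod 2} {x y : R}
    (h : ∏ i ∈ S, π i ∣ x - y) : PP π s S t x ↔ PP π s S t y := by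
  unfold PP
  refine forall₂_congr fun i hi => ?_
  have h1 : π i ∣ x - y := (Finset.dvd_prod_of_mem π hi).trans h
  rw [dvd_iff h1, H.sper i (hS hi) x y h1]

theorem nS_ne {S : Finset ι} (hS : S ⊆ S0) : ∏ i ∈ S, π i ≠ 0 :=
  Finset.prod_ne_zero_iff.mpr fun i hi => (H.pr i (hS hi)).ne_zero

theorem finS {S : Finset ι} (hS : S ⊆ S0) : Finite (R ⧸ Ideal.span {∏ i ∈ S, π i}) := by
  induction S using Finset.induction with
  | empty =>
    rw [Finset.prod_empty]
    have : Subsingleton (R ⧸ Ideal.span {(1 : R)}) :=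
      ⟨fun x y => out_eq (one_dvd _)⟩
    exact Finite.of_subsingleton
  | insert i S hi ih =>
    rw [Finset.prod_insert hi]
    have hS' : S ⊆ S0 := (Finset.subset_insert i S).trans hS
    exact fin_comb (nS_ne H hS') (ih hS') (H.fin i (hS (Finset.mem_insert_self i S)))

theorem cop_prod {S : Finset ι} {i : ι} (hi : i ∉ S) (hS : insert i S ⊆ S0) :
    IsCoprime (π i) (∏ j ∈ S, π j) :=
  IsCoprime.prod_right fun j hj => H.cop i (hS (Finset.mem_insert_self i S)) j
    (hS (Finset.mem_insert_of_mem hj)) fun h => hi (h ▸ hj)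

theorem s_one {i : ι} (hi : i ∈ S0) : s i 1 = 0 := by
  have h1 : ¬ π i ∣ (1 : R) := fun h => (H.pr i hi).not_isUnit (isUnit_of_dvd_one h)
  have := H.smul i hi 1 1 h1 h1
  rw [mul_one] at this
  simpa using this

theorem s_neg {i : ι} (hi : i ∈ S0) {x : R} (hx : ¬ π i ∣ x) : s i (-x) = s i x + e i := by
  have h1 : ¬ π i ∣ (-1 : R) := fun h => (H.pr i hi).not_isUnit
    (isUnit_of_dvd_one ((dvd_neg (α := R)).mp h))
  have := H.smul i hi (-1) x h1 hx
  rw [H.sneg i hi, neg_one_mul] at this
  rw [this, add_comm]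

theorem cop_nd {i : ι} (hi : i ∈ S0) {x : R} (hx : ¬ π i ∣ x) : IsCoprime (π i) x := by
  have := H.fin i hi
  have hp : (Ideal.span {π i}).IsPrime :=
    (Ideal.span_singleton_prime (H.pr i hi).ne_zero).mpr (H.pr i hi)
  have hd : IsDomain (R ⧸ Ideal.span {π i}) := Ideal.Quotient.isDomain _
  have hf := Finite.isField_of_domain (R ⧸ Ideal.span {π i})
  have hne : (Ideal.Quotient.mk (Ideal.span {π i}) x) ≠ 0 := by
    rw [Ne, Ideal.Quotient.eq_zero_iff_mem, Ideal.mem_span_singleton]
    exact hx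
  obtain ⟨b, hb⟩ := hf.mul_inv_cancel hne
  obtain ⟨b, rfl⟩ := Ideal.Quotient.mk_surjective b
  rw [← map_mul, ← map_one (Ideal.Quotient.mk (Ideal.span {π i})), mk_eq] at hb
  obtain ⟨w, hw⟩ := hb
  exact ⟨-w, b, by linear_combination hw⟩

theorem half {i : ι} (hi : i ∈ S0) {k : ℕ}
    (hk : Nat.card (R ⧸ Ideal.span {π i}) = 1 + 2 * k) (τ : ZMod 2) :
    Sg (π i) (fun x => if ¬ π i ∣ x ∧ s i x = τ then 1 else 0) = (k : ℂ) := by
  have hfin := H.fin i hi
  set f : ZMod 2 → R → ℂ := fun τ x => if ¬ π i ∣ x ∧ s i x = τ then 1 else 0 with hf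
  have hper : ∀ τ x y, π i ∣ x - y → f τ x = f τ y := by
    intro τ x y h
    simp only [hf]
    rw [dvd_iff h, H.sper i hi x y h]
  have h0 : Sg (π i) (fun x => if π i ∣ x then (1 : ℂ) else 0) = 1 := by
    unfold Sg
    rw [finsum_eq_single _ (Ideal.Quotient.mk _ 0)]
    · beta_reduce
      rw [if_pos]
      have := out_dvd (π i) 0
      rw [zero_sub, dvd_neg] at this
      exact this
    · intro x hx
      beta_reduce
      rw [if_neg]
      intro h
      apply hx
      rw [← Ideal.Quotient.mk_out x, mk_eq, sub_zero]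
      exact h
  have h1 : Sg (π i) (f 0) + Sg (π i) (f 1) + 1 = 1 + 2 * (k : ℂ) := by
    have h2 : (1 : ℂ) + 2 * k = ((1 + 2 * k : ℕ) : ℂ) := by push_cast; rfl
    rw [h2, ← hk, ← Sg_one hfin, ← Sg_add hfin]
    conv_lhs => rw [← h0]
    rw [← Sg_add hfin]
    refine Sg_congr fun x => ?_
    simp only [hf]
    by_cases hx : π i ∣ x
    · simp [hx]
    · have : (s i x = 0 ∧ s i x ≠ 1) ∨ (s i x = 1 ∧ s i x ≠ 0) := by
        generalize s i x = a
        revert a; decide
      rcases this with ⟨h, h'⟩ | ⟨h, h'⟩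
      · simp [hx, h]
      · simp [hx, h]
  obtain ⟨x0, hx0, hs0⟩ := H.sex i hi
  have h2 : ∀ τ, Sg (π i) (f τ) = Sg (π i) (f (τ + 1)) := by
    intro τ
    rw [← Sg_affine x0 0 (cop_nd H hi hx0) (f τ) (hper τ)]
    refine Sg_congr fun x => ?_
    simp only [hf, zero_add]
    have h3 : (π i ∣ x0 * x) ↔ π i ∣ x := by
      rw [(H.pr i hi).dvd_mul]
      exact or_iff_right hx0
    rw [h3]
    by_cases hx : π i ∣ x
    · simp [hx]
    · rw [H.smul i hi x0 x hx0 hx, hs0]
      have : (1 + s i x = τ) ↔ s i x = τ + 1 := by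
        generalize s i x = a
        revert a τ; decide
      simp only [this]
  have h3 := h2 0
  rw [zero_add] at h3
  have h4 : Sg (π i) (f 0) = k := by
    rw [← h3] at h1
    have : (2 : ℂ) ≠ 0 := two_ne_zero
    have h5 : (2 : ℂ) * Sg (π i) (f 0) = 2 * k := by linear_combination h1
    exact mul_left_cancel₀ this h5
  have h5 : Sg (π i) (f 1) = k := by rw [← h3, h4]
  have : τ = 0 ∨ τ = 1 := by
    revert τ; decide
  rcases this with rfl | rfl
  · exact h4
  · exact h5

theorem count {k : ι → ℕ} (hk : ∀ i ∈ S0, Nat.card (R ⧸ Ideal.span {π i}) = 1 + 2 * k i)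
    {S : Finset ι} (hS : S ⊆ S0) (t : ι → ZMod 2) :
    Sg (∏ i ∈ S, π i) (fun x => if PP π s S t x then 1 else 0) = ∏ i ∈ S, (k i : ℂ) := by
  induction S using Finset.induction with
  | empty =>
    rw [Finset.prod_empty, Finset.prod_empty, Sg_unit]
    · simp [PP]
    · intro x y
      simp [PP]
  | insert i S hi ih =>
    have hS' : S ⊆ S0 := (Finset.subset_insert i S).trans hS
    have hiS := hS (Finset.mem_insert_self i S)
    have hper := fun x y h => PP_per H hS (t := t) (x := x) (y := y) h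
    rw [Finset.prod_insert hi] at hper
    rw [Finset.prod_insert hi, Finset.prod_insert hi,
      Sg_comb (nS_ne H hS') (finS H hS') (H.fin i hiS) _
        (fun x y h => by rw [if_congr (hper x y h) rfl rfl])]
    rw [← ih hS', ← Sg_mul]
    refine Sg_congr fun y => ?_
    have h1 : ∀ u, (if PP π s (insert i S) t (y + (∏ j ∈ S, π j) * u) then (1 : ℂ) else 0) =
        (if PP π s S t y then (1 : ℂ) else 0) *
          (if ¬ π i ∣ (y + (∏ j ∈ S, π j) * u) ∧ s i (y + (∏ j ∈ S, π j) * u) = t i then 1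
            else 0) := by
      intro u
      have h2 : PP π s S t (y + (∏ j ∈ S, π j) * u) ↔ PP π s S t y :=
        PP_per H hS' ⟨u, by ring⟩
      rw [if_congr PP_insert rfl rfl, if_congr (and_congr_right fun _ => h2) rfl rfl]
      by_cases h3 : PP π s S t y
      · simp [h3]
      · simp [h3]
    rw [Sg_congr h1, Sg_mul]
    rw [Sg_affine (∏ j ∈ S, π j) y (cop_prod H hi hS)
      (fun z => if ¬ π i ∣ z ∧ s i z = t i then (1 : ℂ) else 0)
      (fun x y h => by simp only [dvd_iff h, H.sper i hiS x y h])]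
    rw [half H hiS (hk i hiS)]
    ring

omit H in
theorem Cs_def (S : Finset ι) (t : ι → ZMod 2) : Cs W π s S t =
    Sg (∏ i ∈ S, π i) (fun x => if PP π s S t x then W (∏ i ∈ S, π i) x else 0) := by
  unfold Cs Sg PP
  refine finsum_congr fun x => ?_
  beta_reduce
  congr

omit H in
theorem Cs_congr {S : Finset ι} {t t' : ι → ZMod 2} (h : ∀ i ∈ S, t i = t' i) :
    Cs W π s S t = Cs W π s S t' := by
  rw [Cs_def, Cs_def]
  refine Sg_congr fun x => ?_
  rw [if_congr (PP_congr h) rfl rfl]

theorem Cs_empty (t : ι → ZMod 2) : Cs W π s ∅ t = 1 / 2 := by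
  rw [Cs_def, Finset.prod_empty, Sg_unit]
  · simp [PP, H.one]
  · intro x y
    simp only [PP, Finset.notMem_empty, IsEmpty.forall_iff, implies_true, if_true]
    exact H.per 1 x y (one_dvd _)

theorem Cs_int {S : Finset ι} (hS : S ⊆ S0) (hne : S.Nonempty) (t : ι → ZMod 2) :
    v (Cs W π s S t) ≤ 1 := by
  rw [Cs_def]
  unfold Sg
  refine finsum_induction (fun z => v z ≤ 1) (by simp)
    (fun x y hx hy => (v.map_add x y).trans (max_le hx hy)) fun x => ?_
  beta_reduce
  split_ifs with h
  · refine H.int S hS _ fun hd => ?_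
    obtain ⟨i, hi⟩ := hne
    exact (h i hi).1 ((Finset.dvd_prod_of_mem π hi).trans hd)
  · simp

/-- the recursion -/
theorem Cs_rec {k : ι → ℕ} (hk : ∀ i ∈ S0, Nat.card (R ⧸ Ideal.span {π i}) = 1 + 2 * k i)
    {S : Finset ι} {i : ι} (hi : i ∉ S) (hS : insert i S ⊆ S0) (t t' : ι → ZMod 2)
    (ht : ∀ j ∈ S, t' j = t j) (ht' : t' i = t i + 1) :
    Cs W π s (insert i S) t + Cs W π s (insert i S) t' =
      c (π i) * Cs W π s S t + ν i * ∏ j ∈ S, (k j : ℂ) -
        Cs W π s S (fun j => t j + s j (π i)) := by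
  have hS' : S ⊆ S0 := (Finset.subset_insert i S).trans hS
  have hiS := hS (Finset.mem_insert_self i S)
  have hfin := finS H hS
  set n := ∏ j ∈ S, π j with hn
  have hper : ∀ x y, π i * n ∣ x - y → (PP π s S t x ↔ PP π s S t y) := fun x y h =>
    PP_per H hS' ((Dvd.intro_left _ rfl).trans h)
  rw [Cs_def, Cs_def]
  rw [Finset.prod_insert hi, ← hn] at hfin ⊢
  have h1 : ∀ x, (if PP π s (insert i S) t x then W (π i * n) x else 0) +
      (if PP π s (insert i S) t' x then W (π i * n) x else 0) +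
      (if π i ∣ x then (if PP π s S t x then W (π i * n) x else 0) else 0) =
      (if PP π s S t x then W (π i * n) x else 0) := by
    intro x
    rw [if_congr PP_insert rfl rfl, if_congr (PP_insert (t := t')) rfl rfl,
      if_congr (and_congr_right fun _ => PP_congr ht) rfl rfl, ht']
    by_cases h2 : PP π s S t x
    · by_cases h3 : π i ∣ x
      · simp [h2, h3]
      · rcases zcases (s i x) (t i) with ⟨h4, h5⟩ | ⟨h4, h5⟩
        · simp [h2, h3, h4]
        · simp [h2, h3, h4]
    · simp [h2]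
  have h2 : Sg (π i * n) (fun x => if PP π s (insert i S) t x then W (π i * n) x else 0) +
      Sg (π i * n) (fun x => if PP π s (insert i S) t' x then W (π i * n) x else 0) +
      Sg (π i * n) (fun x => if π i ∣ x then
        (if PP π s S t x then W (π i * n) x else 0) else 0) =
      Sg (π i * n) (fun x => if PP π s S t x then W (π i * n) x else 0) := by
    rw [← Sg_add hfin, ← Sg_add hfin]
    exact Sg_congr h1
  have hper2 : ∀ x y, π i * n ∣ x - y → (if PP π s S t x then W (π i * n) x else 0) =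
      (if PP π s S t y then W (π i * n) y else 0) := fun x y h => by
    rw [if_congr (hper x y h) rfl rfl, H.per _ x y h]
  have h3 : Sg (π i * n) (fun x => if π i ∣ x then
        (if PP π s S t x then W (π i * n) x else 0) else 0) =
      Cs W π s S (fun j => t j + s j (π i)) := by
    have := Sg_div (H.pr i hiS).ne_zero (n := n)
      (fun x => if PP π s S t x then W (π i * n) x else 0) hper2
    unfold Sg at this ⊢
    rw [this, Cs_def]
    unfold Sg
    refine finsum_congr fun y => ?_
    beta_reduce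
    have h4 : PP π s S t (π i * y.out) ↔ PP π s S (fun j => t j + s j (π i)) y.out := by
      unfold PP
      refine forall₂_congr fun j hj => ?_
      have h5 : ¬ π j ∣ π i := by
        intro h
        have hc := H.cop j (hS' hj) i hiS (fun h => hi (h ▸ hj))
        exact (H.pr j (hS' hj)).not_isUnit (hc.isUnit_of_dvd' dvd_rfl h)
      have h6 : (π j ∣ π i * y.out) ↔ π j ∣ y.out := by
        rw [(H.pr j (hS' hj)).dvd_mul]
        exact or_iff_right h5
      rw [h6]
      refine and_congr_right fun h7 => ?_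
      rw [H.smul j (hS' hj) _ _ h5 h7]
      beta_reduce
      generalize s j (π i) = a
      generalize s j y.out = b
      generalize t j = d
      revert a b d; decide
    rw [if_congr h4 rfl rfl, H.mul _ _ _ (H.pr i hiS).ne_zero (nS_ne H hS')]
  have h4 : Sg (π i * n) (fun x => if PP π s S t x then W (π i * n) x else 0) =
      c (π i) * Cs W π s S t + ν i * ∏ j ∈ S, (k j : ℂ) := by
    rw [Sg_comb (nS_ne H hS') (finS H hS') (H.fin i hiS) _ hper2, Cs_def,
      ← count H hk hS' t, ← Sg_mul, ← Sg_mul, ← Sg_add (finS H hS')]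
    refine Sg_congr fun y => ?_
    have h5 : ∀ u, PP π s S t (y + n * u) ↔ PP π s S t y := fun u =>
      PP_per H hS' ⟨u, by ring⟩
    have h7 : Sg (π i) (fun u => if PP π s S t (y + n * u) then
        W (π i * n) (y + n * u) else 0) =
        Sg (π i) (fun u => if PP π s S t y then W (π i * n) (y + n * u) else 0) :=
      Sg_congr fun u => by rw [if_congr (h5 u) rfl rfl]
    rw [h7]
    by_cases h6 : PP π s S t y
    · simp only [h6, if_true, mul_one]
      exact H.dist i hiS n (nS_ne H hS') y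
    · simp only [h6, if_false, mul_zero, add_zero]
      unfold Sg
      exact finsum_zero
  rw [h3, h4] at h2
  linear_combination h2

theorem flip (hk : ∀ i ∈ S0, ∃ k : ℕ, Nat.card (R ⧸ Ideal.span {π i}) = 1 + 2 * k ∧
    (k : ZMod 2) = e i) {S : Finset ι} {i : ι} (hi : i ∉ S) (hS : insert i S ⊆ S0)
    (ih : S.Nonempty → ∀ t t' : ι → ZMod 2, Rd v (Cs W π s S t - Cs W π s S t')
      (∑ i ∈ S, (t i + t' i) * hh e (fun i k => s k (π i)) S.card S i))
    (t t' : ι → ZMod 2) (ht : ∀ j ∈ S, t' j = t j) (ht' : t' i = t i + 1) :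
    Rd v (Cs W π s (insert i S) t - Cs W π s (insert i S) t')
      (hh e (fun i k => s k (π i)) (insert i S).card (insert i S) i) := by
  choose! k hk hk2 using hk
  have hS' : S ⊆ S0 := (Finset.subset_insert i S).trans hS
  have hiS := hS (Finset.mem_insert_self i S)
  have h1 := Cs_rec H hk hi hS t t' ht ht'
  have h2 : Cs W π s (insert i S) t - Cs W π s (insert i S) t' =
      (Cs W π s S t - Cs W π s S (fun j => t j + s j (π i))) + ν i * ∏ j ∈ S, (k j : ℂ) +
      ((c (π i) - 1) * Cs W π s S t - 2 * Cs W π s (insert i S) t') := by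
    linear_combination h1
  have h3 : v ((c (π i) - 1) * Cs W π s S t) < 1 := by
    rcases S.eq_empty_or_nonempty with h | h
    · rw [h, Cs_empty H, mul_one_div]
      exact H.π1 i hiS
    · have h4 : v (c (π i) - 1) < 1 := by
        have : c (π i) - 1 = 2 * ((c (π i) - 1) / 2) := by ring
        rw [this]
        exact lt_mul H.t2 (H.π1 i hiS).le
      exact lt_mul h4 (Cs_int H hS' h t)
  have h4 : v (2 * Cs W π s (insert i S) t') < 1 :=
    lt_mul H.t2 (Cs_int H hS (Finset.insert_nonempty i S) t')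
  have h5 : v ((c (π i) - 1) * Cs W π s S t - 2 * Cs W π s (insert i S) t') < 1 := by
    rw [sub_eq_add_neg]
    exact lt_add h3 (by rw [v.map_neg]; exact h4)
  have h6 : Rd v (Cs W π s S t - Cs W π s S (fun j => t j + s j (π i)))
      (∑ j ∈ S, s j (π i) * hh e (fun i k => s k (π i)) S.card S j) := by
    rcases S.eq_empty_or_nonempty with h | h
    · subst h
      rw [Cs_empty H, Cs_empty H, sub_self, Finset.sum_empty]
      exact Rd_zero (by simp)
    · have h7 := ih h t (fun j => t j + s j (π i))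
      have h8 : ∀ j, t j + (t j + s j (π i)) = s j (π i) := by
        intro j
        generalize s j (π i) = a
        generalize t j = d
        revert a d; decide
      simp only [h8] at h7
      exact h7
  have h7 : Rd v (ν i * ∏ j ∈ S, (k j : ℂ)) (e i * ∏ j ∈ S, e j) := by
    refine Rd_mul H.t2 (H.ν1 i hiS) ?_
    rw [← Nat.cast_prod]
    refine Rd_nat H.t2 ?_
    rw [Nat.cast_prod]
    exact Finset.prod_congr rfl fun j hj => hk2 j (hS' hj)
  have h8 := Rd_add H.t2 (Rd_add H.t2 h6 h7) (Rd_zero h5)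
  rw [← h2, add_zero] at h8
  have h9 : hh e (fun i k => s k (π i)) (insert i S).card (insert i S) i =
      ∑ j ∈ S, s j (π i) * hh e (fun i k => s k (π i)) S.card S j + e i * ∏ j ∈ S, e j := by
    rw [Finset.card_insert_of_notMem hi]
    change ∑ k ∈ (insert i S).erase i, s k (π i) * hh e (fun i k => s k (π i)) S.card
      ((insert i S).erase i) k + e i * ∏ j ∈ (insert i S).erase i, e j = _
    rw [Finset.erase_insert hi]
  rw [h9]
  exact h8

theorem diff : ∀ (n : ℕ) (S : Finset ι), S.card = n → S ⊆ S0 → S.Nonempty →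
    ∀ t t' : ι → ZMod 2, Rd v (Cs W π s S t - Cs W π s S t')
      (∑ i ∈ S, (t i + t' i) * hh e (fun i k => s k (π i)) S.card S i) := by
  intro n
  induction n with
  | zero =>
    intro S hc _ hne
    exact absurd (Finset.card_eq_zero.mp hc) hne.ne_empty
  | succ n ih =>
    intro S hc hS hne t
    have step : ∀ i ∈ S, ∀ t t' : ι → ZMod 2, (∀ j ∈ S.erase i, t' j = t j) → t' i = t i + 1 →
        Rd v (Cs W π s S t - Cs W π s S t') (hh e (fun i k => s k (π i)) S.card S i) := by
      intro i hi t t' h1 h2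
      have hSi : insert i (S.erase i) = S := Finset.insert_erase hi
      have h3 := flip H H.card (Finset.notMem_erase i S) (by rw [hSi]; exact hS)
        (fun hne => ih (S.erase i) (by rw [Finset.card_erase_of_mem hi, hc]; rfl)
          ((Finset.erase_subset _ _).trans hS) hne) t t' h1 h2
      rw [hSi] at h3
      exact h3
    have all : ∀ T ⊆ S, Rd v (Cs W π s S t - Cs W π s S (fun j => t j + if j ∈ T then 1 else 0))
        (∑ i ∈ T, hh e (fun i k => s k (π i)) S.card S i) := by
      intro T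
      induction T using Finset.induction with
      | empty =>
        intro _
        simp only [Finset.notMem_empty, if_false, add_zero, sub_self, Finset.sum_empty]
        exact Rd_zero (by simp)
      | insert i T hi ihT =>
        intro hT
        have h1 := ihT ((Finset.subset_insert i T).trans hT)
        have h2 := step i (hT (Finset.mem_insert_self i T))
          (fun j => t j + if j ∈ T then 1 else 0) (fun j => t j + if j ∈ insert i T then 1 else 0)
          (fun j hj => by
            have : j ≠ i := Finset.ne_of_mem_erase hj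
            simp [this]) (by simp [hi])
        have h3 := Rd_add H.t2 h2 h1
        rw [Finset.sum_insert hi]
        refine Rd_congr ?_ h3
        have h4 : ∀ a b d : ℂ, a - d - (b - d + (a - b)) = 0 := by intro a b d; ring
        rw [h4]
        simp
    intro t'
    have h1 := all (S.filter fun j => t j ≠ t' j) (Finset.filter_subset _ _)
    have h2 : Cs W π s S (fun j => t j + if j ∈ S.filter (fun j => t j ≠ t' j) then 1 else 0) =
        Cs W π s S t' := by
      refine Cs_congr fun i hi => ?_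
      simp only [Finset.mem_filter, hi, true_and]
      generalize t i = a
      generalize t' i = b
      revert a b; decide
    rw [h2, Finset.sum_filter] at h1
    have h3 : ∀ i, (if t i ≠ t' i then hh e (fun i k => s k (π i)) S.card S i else 0) =
        (t i + t' i) * hh e (fun i k => s k (π i)) S.card S i := by
      intro i
      generalize hh e (fun i k => s k (π i)) S.card S i = d
      generalize t i = a
      generalize t' i = b
      revert a b d; decide
    simp only [h3] at h1
    exact h1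

theorem sym (hk : ∀ i ∈ S0, ∃ k : ℕ, Nat.card (R ⧸ Ideal.span {π i}) = 1 + 2 * k ∧
    (k : ZMod 2) = e i) {S : Finset ι} (hS : S ⊆ S0) (hne : S.Nonempty) :
    ∑ i ∈ S, e i * hh e (fun i k => s k (π i)) S.card S i = ∏ i ∈ S, e i := by
  choose! k hk hk2 using hk
  have h1 : Cs W π s S (fun _ => 0) + Cs W π s S e = ∏ i ∈ S, (k i : ℂ) := by
    rw [Cs_def, Cs_def, ← count H hk hS (fun _ => 0)]
    rw [← Sg_neg (n := ∏ i ∈ S, π i) (fun x => if PP π s S e x then W (∏ i ∈ S, π i) x else 0)
      (fun x y h => by simp only [if_congr (PP_per H hS h) rfl rfl, H.per _ x y h]),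
      ← Sg_add (finS H hS)]
    refine Sg_congr fun x => ?_
    have h2 : PP π s S e (-x) ↔ PP π s S (fun _ => 0) x := by
      unfold PP
      refine forall₂_congr fun i hi => ?_
      rw [dvd_neg]
      refine and_congr_right fun h => ?_
      rw [s_neg H (hS hi) h]
      beta_reduce
      generalize s i x = a
      generalize e i = b
      revert a b; decide
    rw [if_congr h2 rfl rfl, H.neg]
    split_ifs
    · ring
    · ring
  have h2 := diff H S.card S rfl hS hne (fun _ => 0) e
  simp only [zero_add] at h2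
  have h3 : Rd v (Cs W π s S (fun _ => 0) - Cs W π s S e) (∏ i ∈ S, e i) := by
    have h4 : Rd v (∏ i ∈ S, (k i : ℂ)) (∏ i ∈ S, e i) := by
      rw [← Nat.cast_prod]
      refine Rd_nat H.t2 ?_
      rw [Nat.cast_prod]
      exact Finset.prod_congr rfl fun j hj => hk2 j (hS hj)
    refine Rd_congr ?_ h4
    have : Cs W π s S (fun _ => 0) - Cs W π s S e - ∏ i ∈ S, (k i : ℂ) =
        2 * -Cs W π s S e := by
      linear_combination h1
    rw [this]
    exact lt_mul H.t2 (by rw [v.map_neg]; exact Cs_int H hS hne e)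
  exact Rd_unique h2 h3

end main

end EI

open EI

/-- TASK E -/
theorem t_E : T_E := by
  intro Γ _ R _ _ ι _ v c W S0 π s e ν H S hS hne
  exact ⟨fun t => Cs_int H hS hne t, fun t t' => diff H S.card S rfl hS hne t t',
    sym H H.card hS hne⟩

end Pool.Agent.T2h78.TW
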