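import Pool.Agent.T2h78.TW.Yw
import Pool.Agent.T2h78.TW.C
import Pool.Agent.T2h78.TW.E

/-!
# The 2-adic valuations of the sums: the induction
-/

set_option autoImplicit false
set_option linter.unusedSectionVars false

open Filter
open scoped Topology PeriodPair

namespace Pool.Agent.T2h78.TW

open Pool.Agent.Y698 Pool.Agent.Y698.SG Pool.Agent.Y279.SG
open H667R3 Pool.Agent.W192.HK Pool.Agent.TH936.CM Pool.Agent.TH936.PU

variable {L : PeriodPair} {Ω : ℂ}

section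
variable [Fintype (RR ⧸ sp fR)]

/-- removing several primes -/
theorem Bg_rems' {ι : Type} (hL : IsLat L RR Ω) {T : ℂ}
    (hT : Tendsto (fun δ : ℝ => GG Ω δ 1) (𝓝[>] 0) (𝓝 T)) {n : RR} (hn : Gd n) {φ : RR → ℂ}
    (hφ : Pe n φ) {π : ι → RR} (κ : ι → ℂ) (B : Finset ι) (hB : FO B π)
    (hκ : ∀ i ∈ B, Mu (π i) φ (κ i)) :
    Bg L Ω T ((∏ i ∈ B, π i) * n) (fun m => φ m * ∏ i ∈ B, tr (π i) m) =
      (∏ i ∈ B, ((π i : ℂ) * e7 (π i) - κ i)) * Bg L Ω T n φ := by
  classical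
  induction B using Finset.induction_on with
  | empty => simp
  | insert q B hq ih =>
    have hBs : FO B π := hB.mono (Finset.subset_insert _ _)
    have ih' := ih hBs fun p hp => hκ p (Finset.mem_insert_of_mem hp)
    have h1 := hB.po q (Finset.mem_insert_self _ _)
    rw [Finset.prod_insert hq, mul_assoc, Finset.prod_insert hq, mul_assoc, ← ih']
    have hBg : Gd ((∏ i ∈ B, π i) * n) := (Gd.prod fun i hi => (hBs.po i hi).gm.gd).mul hn
    have e : (fun m : RR => φ m * ∏ i ∈ insert q B, tr (π i) m) =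
        fun m : RR => if m ∈ sp (π q) then 0 else φ m * ∏ i ∈ B, tr (π i) m := by
      funext m
      rw [Finset.prod_insert hq]
      unfold tr
      split_ifs <;> ring
    rw [e]
    have hne : ∀ p ∈ B, p ≠ q := fun p hp h => hq (h ▸ hp)
    refine Bg_rem hL hT hBg.ne h1.gm.ne hBg.cop h1.gm.cop ?_ ?_
    · exact (hφ.mono (Dvd.intro_left _ rfl)).mul ((Pe.prod fun p _ => tr_per (π p)).mono
        (Dvd.intro _ rfl))
    · have h2 : Mu (π q) (fun m => φ m * ∏ i ∈ B, tr (π i) m) (κ q * ∏ i ∈ B, (1 : ℂ)) := by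
        refine (hκ q (Finset.mem_insert_self _ _)).mul (Mu.prod fun p hp m => ?_)
        rw [one_mul]
        exact tr_mul (hBs.po p hp).pr (hB.ne q (Finset.mem_insert_self _ _) p
          (Finset.mem_insert_of_mem hp) (hne p hp).symm) m
      intro m
      have h3 := h2 m
      rw [Finset.prod_const_one, mul_one] at h3
      exact h3

/-- the sum over the subsets -/
theorem Bg_subsets' {ι : Type} [DecidableEq ι] (hL : IsLat L RR Ω) {T : ℂ}
    (hT : Tendsto (fun δ : ℝ => GG Ω δ 1) (𝓝[>] 0) (𝓝 T)) {n : RR} (hn : Gd n) {φ : RR → ℂ}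
    (hφ : Pe n φ) {π : ι → RR} (S : Finset ι) (hS : FO S π) (hS1 : ∀ i ∈ S, Mu (π i) φ 1) :
    ∑ A ∈ S.powerset, (∏ i ∈ S \ A, ((π i : ℂ) * e7 (π i) - ∏ j ∈ A, sy (π j) (π i))) *
      Bg L Ω T ((∏ i ∈ A, π i) * n) (fun m => φ m * ∏ i ∈ A, sy (π i) m) =
    2 ^ S.card * Bg L Ω T ((∏ i ∈ S, π i) * n) (fun m => φ m * ∏ i ∈ S, hc (π i) m) := by
  have hSg : Gd ((∏ i ∈ S, π i) * n) := (Gd.prod fun i hi => (hS.po i hi).gm.gd).mul hn
  have h1 : ∀ A ∈ S.powerset, (∏ i ∈ S \ A, ((π i : ℂ) * e7 (π i) - ∏ j ∈ A, sy (π j) (π i))) *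
      Bg L Ω T ((∏ i ∈ A, π i) * n) (fun m => φ m * ∏ i ∈ A, sy (π i) m) =
      Bg L Ω T ((∏ i ∈ S, π i) * n)
        (fun m => φ m * ((∏ i ∈ A, sy (π i) m) * ∏ i ∈ S \ A, tr (π i) m)) := by
    intro A hA
    rw [Finset.mem_powerset] at hA
    have hAg : Gd ((∏ i ∈ A, π i) * n) := (Gd.prod fun i hi => (hS.po i (hA hi)).gm.gd).mul hn
    rw [← Bg_rems' hL hT hAg ?_ _ (S \ A) (hS.mono Finset.sdiff_subset) ?_]
    · rw [← mul_assoc, Finset.prod_sdiff hA]
      congr 1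
      funext m
      ring
    · exact (hφ.mono (Dvd.intro_left _ rfl)).mul ((Pe.prod fun p _ => sy_per (π p)).mono
        (Dvd.intro _ rfl))
    · intro i hi
      rw [Finset.mem_sdiff] at hi
      have h2 := (hS1 i hi.1).mul (Mu.prod (q := π i) (S := A) (f := fun j => sy (π j))
        (κ := fun j => sy (π j) (π i)) fun j hj m => sy_mul (hS.po j (hA hj)).pr _ _)
      rw [one_mul] at h2
      exact h2
  rw [Finset.sum_congr rfl h1, ← Bg_sum T hSg.ne, ← Bg_smul T hSg.ne]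
  congr 1
  funext m
  rw [← Finset.mul_sum]
  have h2 : ∏ i ∈ S, (sy (π i) m + tr (π i) m) =
      ∑ A ∈ S.powerset, (∏ i ∈ A, sy (π i) m) * ∏ i ∈ S \ A, tr (π i) m :=
    Finset.prod_add _ _ _
  have h3 : ∏ i ∈ S, (sy (π i) m + tr (π i) m) = 2 ^ S.card * ∏ i ∈ S, hc (π i) m := by
    rw [← Finset.prod_const, ← Finset.prod_mul_distrib]
    refine Finset.prod_congr rfl fun q _ => ?_
    unfold hc
    ring
  rw [← h2, h3]
  ring

/-- the odd characters -/
theorem Bg_odd (hL : IsLat L RR Ω) (T : ℂ) {ι : Type} {S : Finset ι} {π : ι → RR}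
    (hS : FO S π) (ho : ∑ i ∈ S, te (π i) = 1) :
    Bg L Ω T (∏ i ∈ S, π i) (fun m => ∏ i ∈ S, sy (π i) m) = 0 := by
  have hg := hS.gm
  have f1 := fin_quot hg.ne
  let _ : Fintype (RR ⧸ sp (∏ i ∈ S, π i)) := Fintype.ofFinite _
  set n := ∏ i ∈ S, π i with hn
  have hper : Pe n (fun m => (∏ i ∈ S, sy (π i) m) * Gv L Ω T (Ω * m / (n : ℂ))) :=
    fun x y hxy => Bg_term hL T hg.ne (Pe.prod fun q _ => sy_per (π q)) hxy
  have h1 := sum_unit (u := -1) hg.ne ⟨-1, 0, by ring⟩ hper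
  have h2 : ∀ m : RR, (∏ i ∈ S, sy (π i) (-1 * m)) = -∏ i ∈ S, sy (π i) m := by
    intro m
    have h3 : ∏ i ∈ S, sy (π i) (-1 * m) = (∏ i ∈ S, sy (π i) (-1)) * ∏ i ∈ S, sy (π i) m := by
      rw [← Finset.prod_mul_distrib]
      exact Finset.prod_congr rfl fun i hi => sy_mul (hS.po i hi).pr _ _
    have h4 := sgn_prod (s := S) (f := fun i => sy (π i) (-1)) fun i hi => by
      rw [(hS.po i hi).sy_neg_one]
      split_ifs
      · exact Or.inl rfl
      · exact Or.inr rfl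
    have h5 : ∑ i ∈ S, lg (sy (π i) (-1)) = 1 := by
      rw [← ho]
      exact Finset.sum_congr rfl fun i hi => (hS.po i hi).sl_neg
    rw [h5] at h4
    have h6 : ∏ i ∈ S, sy (π i) (-1) = -1 := by
      rcases h4.1 with h | h
      · rw [h, lg_one] at h4
        exact absurd h4.2 (by decide)
      · exact h
    rw [h3, h6, neg_one_mul]
  rw [Bg_eq]
  have h3 : ∑ x : RR ⧸ sp n, (∏ i ∈ S, sy (π i) (-1 * x.out)) *
      Gv L Ω T (Ω * ((-1 * x.out : RR) : ℂ) / (n : ℂ)) =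
      -∑ x : RR ⧸ sp n, (∏ i ∈ S, sy (π i) x.out) * Gv L Ω T (Ω * x.out / (n : ℂ)) := by
    rw [← Finset.sum_neg_distrib]
    refine Finset.sum_congr rfl fun x _ => ?_
    have e : Ω * ((-1 * x.out : RR) : ℂ) / (n : ℂ) = -(Ω * ((x.out : RR) : ℂ) / (n : ℂ)) := by
      push_cast
      ring
    rw [h2, e, Gv_neg hL, neg_mul]
  rw [h3] at h1
  have h4 := h1
  linear_combination (-1 / 2 : ℂ) * h4

omit [Fintype (RR ⧸ sp fR)] in
/-- the Euler factor -/
lemma PO.euler {Γ : Type} [LinearOrderedCommGroupWithZero Γ] {v : Valuation ℂ Γ} (hv : v al < 1)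
    {ϖ : RR} (h : PO ϖ) {s κ : ℂ} (hs : s = 1 ∨ s = -1) (hκ : κ = 1 ∨ κ = -1) :
    SG.Rd v (((ϖ : ℂ) * s - κ) / 2) (lg s + lg κ) := by
  obtain ⟨k, hk⟩ : ∃ k, cX ϖ = 1 + 4 * k := ⟨(cX ϖ - 1) / 4, by have := h.x4; omega⟩
  obtain ⟨m, hm⟩ : ∃ m, cY ϖ = 2 * m := ⟨cY ϖ / 2, by have := h.y2; omega⟩
  have e0 := co ϖ
  rw [hk, hm] at e0
  push_cast at e0
  have t2 := v_two_lt hv
  have e : (((ϖ : ℂ) * s - κ) / 2) = (s - κ) / 2 + (2 * (k : ℂ) + al * (m : ℂ)) * s := by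
    rw [e0]
    ring
  have hvs : v s ≤ 1 := by
    rcases hs with rfl | rfl
    · rw [map_one]
    · rw [Valuation.map_neg, map_one]
  have h2 : v ((2 * (k : ℂ) + al * (m : ℂ)) * s) < 1 :=
    v_mul_lt' (v_add_lt (v_mul_lt' t2 (v_int k)) (v_mul_lt' hv (v_int m))) hvs
  have h3 : SG.Rd v ((2 * (k : ℂ) + al * (m : ℂ)) * s) 0 := Rd.zero_iff.2 h2
  rw [e, ← add_zero (lg s + lg κ)]
  refine Rd.add t2 ?_ h3
  have hz : SG.Rd v 0 0 := Rd.zero_iff.2 (by rw [map_zero]; exact zero_lt_one)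
  have e11 : (1 + 1 : ZMod 2) = 0 := by decide
  rcases hs with rfl | rfl <;> rcases hκ with rfl | rfl
  · rw [lg_one, add_zero, sub_self, zero_div]
    exact hz
  · rw [lg_one, lg_neg_one, zero_add]
    have e : ((1 : ℂ) - -1) / 2 = 1 := by norm_num
    rw [e]
    exact Rd.one
  · rw [lg_one, lg_neg_one, add_zero]
    have e : ((-1 : ℂ) - 1) / 2 = -1 := by norm_num
    rw [e]
    exact Rd.neg t2 Rd.one
  · rw [lg_neg_one, e11, sub_self, zero_div]
    exact hz

/-- the sum over the squares, modulo the primes above two -/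
theorem Y_rd {Γ : Type} [LinearOrderedCommGroupWithZero Γ] {v : Valuation ℂ Γ}
    (h : LD L Ω) (hv : v al < 1) {T : ℂ}
    (hT : Tendsto (fun δ : ℝ => GG Ω δ 1) (𝓝[>] 0) (𝓝 T)) {ι : Type} [DecidableEq ι]
    {S : Finset ι} {π : ι → RR} (hS : FO S π) (hne : S.Nonempty) :
    SG.Rd v (Bg L Ω T (∏ i ∈ S, π i) (fun m => ∏ i ∈ S, hc (π i) m))
      (∑ i ∈ S, sl (π i) fR * hh (fun i => te (π i)) (fun i k => sl (π k) (π i)) S.card S i) := by
  have t2 := v_two_lt hv
  obtain ⟨h1, h2, -⟩ := t_E Γ RR ι v _ _ _ _ _ _ _ (dat h hv hS) S (Finset.Subset.refl S) hne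
  have h3 := Y_red h hv hT hS hne
  set Y := Bg L Ω T (∏ i ∈ S, π i) (fun m => ∏ i ∈ S, hc (π i) m)
  set A := Cs (Wf L Ω) π (fun i => sl (π i)) S (fun i => sl (π i) bR)
  set B := Cs (Wf L Ω) π (fun i => sl (π i)) S (fun i => sl (π i) fR + sl (π i) bR)
  have h4 : SG.Rd v (B - A) (∑ i ∈ S, (sl (π i) fR + sl (π i) bR + sl (π i) bR) *
      hh (fun i => te (π i)) (fun i k => sl (π k) (π i)) S.card S i) := h2 _ _
  have h5 : ∑ i ∈ S, (sl (π i) fR + sl (π i) bR + sl (π i) bR) *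
      hh (fun i => te (π i)) (fun i k => sl (π k) (π i)) S.card S i =
      ∑ i ∈ S, sl (π i) fR * hh (fun i => te (π i)) (fun i k => sl (π k) (π i)) S.card S i := by
    refine Finset.sum_congr rfl fun i _ => ?_
    rw [add_assoc, CharTwo.add_self_eq_zero, add_zero]
  rw [h5] at h4
  have h6 : SG.Rd v ((Y - (A + B)) + 2 * A) 0 := Rd.zero_iff.2 (v_add_lt h3 (v_mul_lt' t2 (h1 _)))
  have h7 := Rd.add t2 h4 h6
  rw [add_zero] at h7
  have e : B - A + (Y - (A + B) + 2 * A) = Y := by ring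
  rwa [e] at h7

/-- the induction -/
theorem ind' {Γ : Type} [LinearOrderedCommGroupWithZero Γ] {v : Valuation ℂ Γ}
    {ι : Type} [DecidableEq ι] (hrec : TW.S_REC) (h : LD L Ω) (hv : v al < 1) {T : ℂ}
    (hT : Tendsto (fun δ : ℝ => GG Ω δ 1) (𝓝[>] 0) (𝓝 T)) {S0 : Finset ι} {π : ι → RR}
    (hS0 : FO S0 π)
    (hrcp : ∀ i ∈ S0, ∀ k ∈ S0, i ≠ k →
      sl (π k) (π i) + sl (π i) (π k) = te (π i) * te (π k))
    (hfr : ∀ i ∈ S0, sl (π i) fR = lg (e7 (π i)))
    (S : Finset ι) (hSS : S ⊆ S0) (he : ∑ i ∈ S, te (π i) = 0) :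
    SG.Rd v (Bg L Ω T (∏ i ∈ S, π i) (fun m => ∏ i ∈ S, sy (π i) m) / (2 ^ S.card * T))
      (TW.gd (fun i => lg (e7 (π i))) (fun i j => sl (π j) (π i)) S) := by
  have t2 := v_two_lt hv
  have hL := h.lat
  have hvT := T_unit h hv hT
  have hT0 : T ≠ 0 := by
    rintro rfl
    rw [map_zero] at hvT
    exact zero_ne_one hvT
  have hT1 := T_red h hv hT
  have hvTi : v T⁻¹ ≤ 1 := by rw [map_inv₀, hvT, inv_one]
  have hTi : SG.Rd v T⁻¹ 1 := by
    rw [Rd.one_iff]
    have e : T⁻¹ - 1 = -((T - 1) * T⁻¹) := by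
      field_simp
      ring
    rw [e, Valuation.map_neg]
    exact v_mul_lt' hT1 hvTi
  set c : ι → ZMod 2 := fun i => lg (e7 (π i)) with hcdef
  set r : ι → ι → ZMod 2 := fun i j => sl (π j) (π i) with hrdef
  set ε : ι → ZMod 2 := fun i => te (π i) with hedef
  induction S using Finset.strongInduction with
  | H S ih =>
    have hS := hS0.mono hSS
    rcases S.eq_empty_or_nonempty with rfl | hne
    · have e0 : TW.gd c r ∅ = 1 := by
        unfold TW.gd
        exact Matrix.det_isEmpty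
      rw [e0, Rd.one_iff]
      simp only [Finset.prod_empty, Finset.card_empty, pow_zero, one_mul]
      rw [Bg_one hL]
      rw [div_self hT0, sub_self, map_zero]
      exact zero_lt_one
    have h2 := Bg_subsets' hL hT Gd.one (φ := fun _ => 1) (fun _ _ _ => rfl) S hS
      (fun i _ m => by ring)
    simp only [one_mul, mul_one] at h2
    rw [← Finset.add_sum_erase _ _ (Finset.mem_powerset_self S), Finset.sdiff_self,
      Finset.prod_empty, one_mul] at h2
    have hY := Y_rd h hv hT hS hne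
    set a := Bg L Ω T (∏ i ∈ S, π i) (fun m => ∏ i ∈ S, sy (π i) m) with ha
    set Y := Bg L Ω T (∏ i ∈ S, π i) (fun m => ∏ i ∈ S, hc (π i) m) with hYd
    have h20 : (2 : ℂ) ^ S.card ≠ 0 := pow_ne_zero _ two_ne_zero
    set t : Finset ι → ℂ := fun A =>
      (∏ i ∈ S \ A, (((π i : ℂ) * e7 (π i) - ∏ j ∈ A, sy (π j) (π i)) / 2)) *
      (Bg L Ω T (∏ i ∈ A, π i) (fun m => ∏ i ∈ A, sy (π i) m) / (2 ^ A.card * T)) with ht
    have ht1 : ∀ A ∈ S.powerset.erase S, (∏ i ∈ S \ A, ((π i : ℂ) * e7 (π i) -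
        ∏ j ∈ A, sy (π j) (π i))) * Bg L Ω T (∏ i ∈ A, π i) (fun m => ∏ i ∈ A, sy (π i) m) =
        (2 ^ S.card * T) * t A := by
      intro A hA
      rw [Finset.mem_erase, Finset.mem_powerset] at hA
      have hcs : S.card = (S \ A).card + A.card := (Finset.card_sdiff_add_card_eq_card hA.2).symm
      rw [ht]
      beta_reduce
      rw [Finset.prod_div_distrib, Finset.prod_const, hcs, pow_add]
      field_simp
    rw [Finset.sum_congr rfl ht1, ← Finset.mul_sum] at h2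
    have h3 : a / (2 ^ S.card * T) = Y * T⁻¹ + -∑ A ∈ S.powerset.erase S, t A := by
      have : a = 2 ^ S.card * Y - (2 ^ S.card * T) * ∑ A ∈ S.powerset.erase S, t A := by
        linear_combination h2
      rw [this]
      field_simp
      ring
    -- the combinatorial identity
    have hC := t_C ι c ε r S hrec hne (fun i hi k hk hik => hrcp i (hSS hi) k (hSS hk) hik)
      (fun A hA hAn => ((t_E Γ RR ι v _ _ _ _ _ _ _ (dat h hv (hS.mono hA)) A
        (Finset.Subset.refl A) hAn).2.2))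
    have hY2 : ∑ i ∈ S, sl (π i) fR * hh ε r S.card S i = ∑ i ∈ S, c i * hh ε r S.card S i :=
      Finset.sum_congr rfl fun i hi => by rw [hfr i (hSS hi)]
    have hY' : SG.Rd v Y (∑ A ∈ S.powerset with ∑ i ∈ A, ε i = 1, TW.gd c r A *
        ∏ i ∈ S \ A, (c i + ∑ j ∈ A, r i j)) := by
      rw [← hC, ← hY2]
      exact hY
    have h4 : TW.gd c r S = ∑ A ∈ S.powerset.erase S,
        TW.gd c r A * ∏ i ∈ S \ A, (c i + ∑ j ∈ A, r i j) := by
      have h5 := hrec ι c r S hne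
      rw [← Finset.add_sum_erase _ _ (Finset.mem_powerset_self S), Finset.sdiff_self,
        Finset.prod_empty, mul_one] at h5
      have h6 := eq_neg_of_add_eq_zero_left h5
      rw [h6, ZMod.neg_eq_self_mod_two]
    have h7 : ∑ A ∈ S.powerset.erase S, TW.gd c r A * ∏ i ∈ S \ A, (c i + ∑ j ∈ A, r i j) =
        (∑ A ∈ S.powerset with ∑ i ∈ A, ε i = 1, TW.gd c r A *
          ∏ i ∈ S \ A, (c i + ∑ j ∈ A, r i j)) +
        ∑ A ∈ S.powerset.erase S, if ∑ i ∈ A, ε i = 0 then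
          (∏ i ∈ S \ A, (c i + ∑ j ∈ A, r i j)) * TW.gd c r A else 0 := by
      have e1 : (S.powerset.filter fun A => ∑ i ∈ A, ε i = 1) =
          (S.powerset.erase S).filter fun A => ∑ i ∈ A, ε i = 1 := by
        ext A
        simp only [Finset.mem_filter, Finset.mem_erase]
        constructor
        · rintro ⟨h8, h9⟩
          refine ⟨⟨?_, h8⟩, h9⟩
          rintro rfl
          rw [he] at h9
          exact absurd h9 (by decide)
        · rintro ⟨⟨-, h8⟩, h9⟩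
          exact ⟨h8, h9⟩
      rw [e1, Finset.sum_filter, ← Finset.sum_add_distrib]
      refine Finset.sum_congr rfl fun A _ => ?_
      rcases zm2 (∑ i ∈ A, ε i) with h8 | h8
      · rw [h8, if_neg (by decide), if_pos rfl, zero_add, mul_comm]
      · rw [h8, if_pos rfl, if_neg (by decide), add_zero]
    rw [h3, h4, h7]
    have hY3 := Rd.mul hY' hTi
    rw [mul_one] at hY3
    refine Rd.add t2 hY3 (Rd.neg t2 (Rd.sum t2 ?_))
    intro A hA
    rw [Finset.mem_erase, Finset.mem_powerset] at hA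
    have hss : A ⊂ S := hA.2.ssubset_of_ne hA.1
    split_ifs with h8
    · refine Rd.mul (Rd.prod fun i hi => ?_) (ih A hss (hA.2.trans hSS) h8)
      rw [Finset.mem_sdiff] at hi
      have hpi := hS.po i hi.1
      have h7 := sgn_prod (s := A) (f := fun j => sy (π j) (π i)) fun j hj => sy_sgn
        (hS.ne i hi.1 j (hA.2 hj) fun h => hi.2 (h ▸ hj))
      have h9 : ∑ j ∈ A, r i j = lg (∏ j ∈ A, sy (π j) (π i)) := h7.2.symm
      rw [h9]
      exact hpi.euler hv (e7_sgn hpi.cop) h7.1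
    · have h9 : ∑ i ∈ A, te (π i) = 1 := (zm2 _).resolve_left h8
      have h10 := Bg_odd hL T (hS.mono hA.2) h9
      have h11 : t A = 0 := by
        rw [ht]
        beta_reduce
        rw [h10, zero_div, mul_zero]
      rw [h11, Rd.zero_iff, map_zero]
      exact zero_lt_one

end

end Pool.Agent.T2h78.TW
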