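import Pool.Agent.T2h78.TW.Std
import Pool.Agent.T2h78.TW.Ind

/-!
# The central values of the twists
-/

set_option autoImplicit false
set_option linter.unusedSectionVars false

open Filter
open scoped Topology PeriodPair

namespace Pool.Agent.T2h78.TW

open Pool.Agent.Y698 Pool.Agent.Y698.SG Pool.Agent.Y279.SG
open H667R3 Pool.Agent.W192.HK Pool.Agent.TH936.CM Pool.Agent.TH936.PU

lemma Gq.not_seven {q : ℕ} (h : Gq q) : ¬ (q : ℤ) ∣ 7 := by
  intro hd
  have h1 : q ∣ 7 := by exact_mod_cast hd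
  exact h.n7 ((Nat.prime_dvd_prime_iff_eq h.pr (by norm_num)).1 h1)

lemma Gq.gn {q : ℕ} (h : Gq q) : Gn q := by
  refine ⟨?_, ?_, h.m2⟩
  · intro h0
    have h1 : nR ((q : ℕ) : RR) = nR 0 := by rw [h0]
    rw [nR_nat, nR_zero] at h1
    have h2 : (q : ℤ) = 0 := pow_eq_zero_iff (two_ne_zero) |>.1 h1
    exact h.pr.ne_zero (by exact_mod_cast h2)
  · have h1 : IsCoprime ((7 : ℕ) : RR) ((q : ℕ) : RR) :=
      cop_cast ((Nat.coprime_primes (by norm_num) h.pr).2 h.n7.symm)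
    have h2 : ((7 : ℕ) : RR) = fR * (-fR) := by
      have := fR_mul
      push_cast
      linear_combination this
    rw [h2] at h1
    exact h1.of_mul_left_left

lemma Gn.prodq {S : Finset ℕ} (h : ∀ q ∈ S, Gq q) : Gn (∏ q ∈ S, q) := by
  classical
  induction S using Finset.induction_on with
  | empty => exact Gn.one
  | insert q S hq ih =>
    rw [Finset.prod_insert hq]
    exact (h q (Finset.mem_insert_self _ _)).gn.mul
      (ih fun p hp => h p (Finset.mem_insert_of_mem hp))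

/-- the determinant of the matrix of `D` -/
noncomputable def gD (S : Finset ℕ) (ϖ : ℕ → RR) : ZMod 2 :=
  TW.gd (fun i => lg (e7 (pg ϖ i))) (fun i j => sl (pg ϖ j) (pg ϖ i)) (ixs S)

/-- **the quadratic twists** -/
theorem val_all (hHC : T_HC) (hrec : TW.S_REC) {S : Finset ℕ} (hS : ∀ q ∈ S, Gq q)
    (h4 : (∏ q ∈ S, q) % 4 = 1) {ϖ : ℕ → RR} (hc : Chs S ϖ) :
    ∃ F : ℂ → ℂ, Differentiable ℂ F ∧
    (∀ z : ℂ, 3 / 2 < z.re → HasProd (fun p : Nat.Primes =>
      (1 - bc p * ((∏ q ∈ S, qch q (p : ℕ)) * ((p : ℕ) : ℂ) ^ (-z)) +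
      ec p * ((∏ q ∈ S, qch q (p : ℕ)) * ((p : ℕ) : ℂ) ^ (-z)) ^ 2)⁻¹) (F z)) ∧
    ∀ (Γ : Type) [LinearOrderedCommGroupWithZero Γ] (v : Valuation ℂ Γ) (L : PeriodPair) (Ω : ℂ),
      LD L Ω → v al < 1 →
      (gD S ϖ ≠ 0 → v 2 * v ((starRingEnd ℂ) (F 1) / Ω) = v 2 ^ (ixs S).card) ∧
      (gD S ϖ = 0 → v 2 * v ((starRingEnd ℂ) (F 1) / Ω) < v 2 ^ (ixs S).card) := by
  classical
  rcases S.eq_empty_or_nonempty with rfl | hne
  · obtain ⟨F, g1, g2, g3, g4⟩ := val_triv
    have hix : ixs (∅ : Finset ℕ) = ∅ := by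
      ext i
      rw [mem_ixs]
      simp
    have hgd : gD (∅ : Finset ℕ) ϖ = 1 := by
      unfold gD
      rw [hix]
      unfold TW.gd
      exact Matrix.det_isEmpty
    refine ⟨F, g1, fun z hz => ?_, fun Γ _ v L Ω hL hv => ⟨fun _ => ?_, fun h0 => ?_⟩⟩
    · have := prod_triv (g2 z hz)
      simpa using this
    · rw [hix, Finset.card_empty, pow_zero]
      exact g4 Γ v L Ω hL hv
    · rw [hgd] at h0
      exact absurd h0 one_ne_zero
  · have hHC' := hHC S hS hne
    have hN := Gn.prodq hS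
    obtain ⟨q0, hq0⟩ := hne
    have hN1 : ∏ q ∈ S, q ≠ 1 := by
      intro h1
      have h2 : q0 ∣ 1 := h1 ▸ Finset.dvd_prod_of_mem (fun q => q) hq0
      exact (hS q0 hq0).pr.one_lt.ne' (Nat.dvd_one.1 h2)
    obtain ⟨F, g1, g2, g3⟩ := val_gen hN hN1 hHC' (φ := fun m => ∏ q ∈ S, qch q m)
      (by
        intro g
        rw [map_prod]
        refine Finset.prod_congr rfl fun q _ => ?_
        rw [qch_conj, nI_sp']) two_pos
      (qprod_sq (fun q hq => (hS q hq).pr) fun q hq => (hS q hq).not_seven)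
    have key : ∀ (Γ : Type) [LinearOrderedCommGroupWithZero Γ] (v : Valuation ℂ Γ)
        (L : PeriodPair) (Ω : ℂ), LD L Ω → v al < 1 →
        (gD S ϖ ≠ 0 → v 2 * v ((starRingEnd ℂ) (F 1) / Ω) = v 2 ^ (ixs S).card) ∧
        (gD S ϖ = 0 → v 2 * v ((starRingEnd ℂ) (F 1) / Ω) < v 2 ^ (ixs S).card) := by
      intro Γ _ v L Ω hL hv
      have := fin_quot fR_ne
      let _ : Fintype (RR ⧸ sp fR) := Fintype.ofFinite _
      obtain ⟨F0, -, -, k3⟩ := val_one
      have hT := k3 L Ω hL.lat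
      have hvT := hL.v_T hv hT
      have hfo := fo hS hc
      have h5 := g3 Γ v L Ω hL hv _ hT
      rw [BB_Bg _ (prod_pg hS h4 hc).symm _ (fun m => ∏ i ∈ ixs S, sy (pg ϖ i) m)
        (fun x => prod_syg hS hc x)] at h5
      have h6 := ind' (v := v) hrec hL hv hT hfo (fun i hi k hk hne => rcp hS hc hi hk hne)
        (fun i hi => frg hS hc hi) (ixs S) (Finset.Subset.refl _) (sum_te hS hc)
      rw [h5]
      have h7 := h6
      refine ⟨fun h0 => ?_, fun h0 => ?_⟩
      · have h8 := Rd.fin (K := 1) (N := (ixs S).card) hvT one_ne_zero h0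
          (by rw [one_mul]; exact h7)
        rw [h8, map_one, one_mul]
      · have h8 := Rd.fin0 (K := 1) (N := (ixs S).card) hvT one_ne_zero h0
          (by rw [one_mul]; exact h7)
        rw [map_one, one_mul] at h8
        exact h8
    refine ⟨F, g1, fun z hz => ?_, key⟩
    refine prod_gen (f := fun n => ∏ q ∈ S, qch q (n : ℤ)) ?_ ?_ (g2 z hz)
    · simp [qch_one]
    · intro m n
      rw [← Finset.prod_mul_distrib]
      refine Finset.prod_congr rfl fun q _ => ?_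
      push_cast
      exact qch_mul _ _ _

end Pool.Agent.T2h78.TW
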