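import Pool.Agent.R428.Q0.Fin

/-!
# Statements: ports of the library to general odd primes
-/

set_option autoImplicit false
set_option linter.unusedSectionVars false

namespace Pool.Agent.T2h78.TW

open Pool.Agent.Y698 Pool.Agent.Y698.SG
open NumberField IsDedekindDomain IsCyclotomicExtension.Rat WithZero WeierstrassCurve
open Pool.Agent.W189.NF Pool.Agent.TH936.CM
open Pool.Agent.H921R2.TatePole Pool.Agent.H82R3.EK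
open H667R3 Pool.Agent.W192.HK

/-- the primes used -/
structure Gq (q : ℕ) : Prop where
  pr : q.Prime
  n2 : q ≠ 2
  n7 : q ≠ 7

/-- TASK HC -/
def T_HC : Prop := ∀ S : Finset ℕ, (∀ q ∈ S, Gq q) → S.Nonempty →
  HC 0 (sp ((∏ q ∈ S, q : ℕ) : RR)) (fun I => ∏ q ∈ S, qch q (nI I))

/-- TASK LS -/
def T_LS : Prop := ∀ (S : Finset ℕ) (j : ℕ) (F : ℂ → ℂ), (∀ q ∈ S, Gq q) →
  ∏ q ∈ S, q = 1 + 4 * j →
  (∀ z : ℂ, 3 / 2 < z.re → HasProd (fun p : Nat.Primes =>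
      (1 - bc p * ((∏ q ∈ S, qch q (p : ℕ)) * ((p : ℕ) : ℂ) ^ (-z)) +
      ec p * ((∏ q ∈ S, qch q (p : ℕ)) * ((p : ℕ) : ℂ) ^ (-z)) ^ 2)⁻¹) (F z)) →
    ∀ s : ℂ, 2 < s.re → F s = (EX ℚ (j : ℚ)).LSeries s

open Classical in
/-- TASK TAM -/
def T_TAM : Prop := ∀ (S : Finset ℕ) (j : ℕ), (∀ q ∈ S, Gq q) → ∏ q ∈ S, q = 1 + 4 * j →
  ∏ᶠ v : HeightOneSpectrum (𝓞 ℚ), tam (AX ℚ j) v =
    2 ^ (1 + ∑ q ∈ S, if IsSquare (-7 : ZMod q) then 2 else 1)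

/-- TASK MIN -/
def T_MIN : Prop := ∀ (S : Finset ℕ) (j : ℕ), (∀ q ∈ S, Gq q) → ∏ q ∈ S, q = 1 + 4 * j →
  ∀ v : HeightOneSpectrum (𝓞 ℚ), MinimalAt (AX ℚ j) v

end Pool.Agent.T2h78.TW
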