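import Pool.Agent.T2h78.TW.Pr

/-!
# The sums over the classes
-/

set_option autoImplicit false
set_option linter.unusedSectionVars false

open Filter
open scoped Topology PeriodPair

namespace Pool.Agent.T2h78.TW

open Pool.Agent.Y698 Pool.Agent.Y698.SG Pool.Agent.Y279.SG
open H667R3 Pool.Agent.W192.HK Pool.Agent.TH936.CM Pool.Agent.TH936.PU

variable {L : PeriodPair} {Ω : ℂ}

/-- a family of primes -/
structure FO {ι : Type} (S : Finset ι) (π : ι → RR) : Prop where
  po : ∀ i ∈ S, PO (π i)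
  ne : ∀ i ∈ S, ∀ j ∈ S, i ≠ j → π i ∉ sp (π j)

lemma FO.mono {ι : Type} {S S' : Finset ι} {π : ι → RR} (h : FO S π) (hs : S' ⊆ S) :
    FO S' π := ⟨fun i hi => h.po i (hs hi), fun i hi j hj => h.ne i (hs hi) j (hs hj)⟩

lemma FO.gm {ι : Type} {S : Finset ι} {π : ι → RR} (h : FO S π) : Gm (∏ i ∈ S, π i) :=
  Gm.prod fun i hi => (h.po i hi).gm

/-- the values of the function -/
noncomputable def Wf (L : PeriodPair) (Ω : ℂ) (n x : RR) : ℂ := ef L Ω (Ω * x / n)

/-- the constants -/
noncomputable def nu (ϖ : RR) : ℂ := ((nR ϖ : ℂ) - ϖ) / 2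

section
variable {Γ : Type} [LinearOrderedCommGroupWithZero Γ] {v : Valuation ℂ Γ}

lemma v_int1 (m : ℤ) : v (m : ℂ) ≤ 1 := v_int m

theorem dat {ι : Type} [DecidableEq ι] (h : LD L Ω) (hv : v al < 1) {S0 : Finset ι} {π : ι → RR}
    (hS : FO S0 π) : Dat v RR.subtype (Wf L Ω) S0 π (fun i => sl (π i)) (fun i => te (π i))
      (fun i => nu (π i)) where
  t2 := v_two_lt hv
  vc := fun x => v_RR hv x
  pr := fun i hi => (hS.po i hi).pr
  cop := by
    intro i hi j hj hij
    have h1 := hS.ne i hi j hj hij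
    rw [Ideal.mem_span_singleton] at h1
    exact (((hS.po j hj).pr.irreducible.coprime_iff_not_dvd).2 h1).symm
  fin := fun i hi => fin_quot (hS.po i hi).pr.ne_zero
  card := by
    intro i hi
    have hp := hS.po i hi
    have h1 := card_sp (π i)
    have h4 := hp.nR4
    have h2 := hp.y2
    refine ⟨(Nat.card (RR ⧸ sp (π i)) - 1) / 2, ?_, ?_⟩
    · show Nat.card (RR ⧸ sp (π i)) = _
      omega
    · show _ = te (π i)
      unfold te
      split_ifs with h0
      · have : ((Nat.card (RR ⧸ sp (π i)) - 1) / 2) % 2 = 0 := by omega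
        exact (ZMod.natCast_eq_zero_iff_even.2 (Nat.even_iff.2 this))
      · have : ((Nat.card (RR ⧸ sp (π i)) - 1) / 2) % 2 = 1 := by omega
        exact (ZMod.natCast_eq_one_iff_odd.2 (Nat.odd_iff.2 this))
  per := by
    intro n x y hxy
    unfold Wf
    by_cases hn : n = 0
    · subst hn
      simp
    · apply ef_per
      have h1 := (div_mem_iff h.lat hn (x - y)).2 (Ideal.mem_span_singleton.2 hxy)
      convert h1 using 1
      push_cast
      ring
  mul := by
    intro q n x hq hn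
    unfold Wf
    congr 1
    have := coe_ne hq
    have := coe_ne hn
    push_cast
    field_simp
  dist := by
    intro i hi n hn y
    have hp := hS.po i hi
    have f1 := fin_quot hp.pr.ne_zero
    let _ : Fintype (RR ⧸ sp (π i)) := Fintype.ofFinite _
    rw [finsum_eq_sum_of_fintype]
    have hq0 := coe_ne hp.pr.ne_zero
    have hn0 := coe_ne hn
    have h1 := Mf_dist h.lat hp.pr.ne_zero (cop_bR hp.odd) (Ω * y / ((π i * n : RR) : ℂ))
    have h2 : ∀ t : RR ⧸ sp (π i), Wf L Ω (π i * n) (y + n * t.out) =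
        Mf L Ω (Ω * y / ((π i * n : RR) : ℂ) + Ω * t.out / (π i)) + 1 / 2 := by
      intro t
      unfold Wf ef
      congr 2
      push_cast
      field_simp
    rw [Finset.sum_congr rfl fun t _ => h2 t, Finset.sum_add_distrib, h1, Finset.sum_const,
      Finset.card_univ]
    have h3 : ((Fintype.card (RR ⧸ sp (π i)) : ℕ) : ℂ) = ((nR (π i) : ℤ) : ℂ) := by
      rw [← card_sp, Nat.card_eq_fintype_card]
      push_cast
      rfl
    have h4 : (π i : ℂ) * (Ω * y / ((π i * n : RR) : ℂ)) = Ω * y / n := by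
      push_cast
      field_simp
    rw [nsmul_eq_mul, h3, h4]
    unfold Wf ef nu
    show _ = (π i : ℂ) * _ + _
    ring
  neg := by
    intro n x
    unfold Wf
    have : Ω * ((-x : RR) : ℂ) / n = -(Ω * x / n) := by
      push_cast
      ring
    rw [this, ef_neg]
  one := by
    unfold Wf ef
    have : Ω * ((0 : RR) : ℂ) / ((1 : RR) : ℂ) = 0 := by simp
    rw [this, Mf_zero (zero_mem _), zero_add]
  int := by
    intro S hSS x hx
    have hg := (hS.mono hSS).gm
    refine ef_odd h hv hg.ne hg.odd fun h1 => hx ?_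
    rwa [Ideal.mem_span_singleton] at h1
  π1 := by
    intro i hi
    have hp := hS.po i hi
    obtain ⟨k, hk⟩ : ∃ k, cX (π i) = 1 + 4 * k := ⟨(cX (π i) - 1) / 4, by have := hp.x4; omega⟩
    obtain ⟨m, hm⟩ : ∃ m, cY (π i) = 2 * m := ⟨cY (π i) / 2, by have := hp.y2; omega⟩
    have e := co (π i)
    rw [hk, hm] at e
    push_cast at e
    have e2 : (RR.subtype (π i) - 1) / 2 = 2 * (k : ℂ) + al * (m : ℂ) := by
      show ((π i : ℂ) - 1) / 2 = _
      rw [e]
      ring
    rw [e2]
    exact v_add_lt (v_mul_lt' (v_two_lt hv) (v_int k)) (v_mul_lt' hv (v_int m))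
  ν1 := by
    intro i hi
    have hp := hS.po i hi
    obtain ⟨k, hk⟩ : ∃ k, cX (π i) = 1 + 4 * k := ⟨(cX (π i) - 1) / 4, by have := hp.x4; omega⟩
    obtain ⟨m, hm⟩ : ∃ m, cY (π i) = 2 * m := ⟨cY (π i) / 2, by have := hp.y2; omega⟩
    have e := co (π i)
    have en : (nR (π i) : ℂ) = (cX (π i) : ℂ) ^ 2 + cX (π i) * cY (π i) + 2 * (cY (π i)) ^ 2 := by
      unfold nR
      push_cast
      rfl
    have t2 := v_two_lt hv
    have e2 : nu (π i) - m = 2 * ((k : ℂ) + 4 * k ^ 2 + 2 * k * m + 2 * m ^ 2) - al * m := by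
      unfold nu
      rw [en, e, hk, hm]
      push_cast
      ring
    have h1 : v (nu (π i) - m) < 1 := by
      rw [e2]
      refine v_sub_lt (v_mul_lt' t2 ?_) (v_mul_lt' hv (v_int m))
      have : ((k : ℂ) + 4 * k ^ 2 + 2 * k * m + 2 * m ^ 2) =
          ((k + 4 * k ^ 2 + 2 * k * m + 2 * m ^ 2 : ℤ) : ℂ) := by push_cast; rfl
      rw [this]
      exact v_int _
    have h2 : v ((m : ℂ) - (te (π i)).val) < 1 := by
      unfold te
      split_ifs with h0
      · obtain ⟨j, hj⟩ : ∃ j, m = 2 * j := ⟨m / 2, by omega⟩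
        rw [hj]
        push_cast
        have : (2 * (j : ℂ) - ((0 : ZMod 2).val : ℂ)) = 2 * (j : ℂ) := by simp
        rw [this]
        exact v_mul_lt' t2 (v_int j)
      · obtain ⟨j, hj⟩ : ∃ j, m = 1 + 2 * j := ⟨m / 2, by omega⟩
        rw [hj]
        push_cast
        have h3 : (1 : ZMod 2).val = 1 := by decide
        rw [h3]
        have : (1 + 2 * (j : ℂ) - ((1 : ℕ) : ℂ)) = 2 * (j : ℂ) := by push_cast; ring
        rw [this]
        exact v_mul_lt' t2 (v_int j)
    have e3 : nu (π i) - (te (π i)).val = (nu (π i) - m) + ((m : ℂ) - (te (π i)).val) := by ring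
    show v (nu (π i) - (te (π i)).val) < 1
    rw [e3]
    exact v_add_lt h1 h2
  smul := fun i hi x y hx hy => sl_mul (hS.po i hi).pr
    (fun h => hx (Ideal.mem_span_singleton.1 h)) (fun h => hy (Ideal.mem_span_singleton.1 h))
  sper := fun i hi x y hxy => sl_per (Ideal.mem_span_singleton.2 hxy)
  sneg := fun i hi => (hS.po i hi).sl_neg
  sex := by
    intro i hi
    obtain ⟨x, hx, hx'⟩ := (hS.po i hi).sex
    refine ⟨x, fun h => hx (Ideal.mem_span_singleton.2 h), ?_⟩
    show lg (sy (π i) x) = 1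
    rw [hx', lg_neg_one]

end

end Pool.Agent.T2h78.TW
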