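import Pool.Agent.T2h78.TW.Rc
import Pool.Agent.T2h78.TW.Yv

/-!
# The prime factors of `D` in `ℤ[(1 + √-7) / 2]`
-/

set_option autoImplicit false
set_option linter.unusedSectionVars false

namespace Pool.Agent.T2h78.TW

open Pool.Agent.Y698 Pool.Agent.Y698.SG Pool.Agent.Y279.SG
open H667R3 Pool.Agent.W192.HK Pool.Agent.TH936.CM Pool.Agent.TH936.PU

/-- an element of norm `p` -/
lemma exists_nR {p : ℕ} (hp : Gq p) (hsq : IsSquare (-7 : ZMod p)) : ∃ ϖ : RR, nR ϖ = p := by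
  have hpp := hp.pr
  have _ : Fact p.Prime := ⟨hpp⟩
  have hp2 : ¬ ((p : ℤ) ∣ 2) := by
    intro h
    have h1 : p ∣ 2 := by exact_mod_cast h
    exact hp.n2 ((Nat.prime_dvd_prime_iff_eq hpp Nat.prime_two).1 h1)
  obtain ⟨t, ht⟩ := hsq
  obtain ⟨s, hs⟩ := ZMod.intCast_surjective t
  have h7 : (p : ℤ) ∣ s ^ 2 + 7 := by
    rw [← ZMod.intCast_zmod_eq_zero_iff_dvd]
    push_cast
    rw [hs]
    linear_combination -ht
  have hsf : ((p : ℤ) : RR) ∣ ((s : RR) - fR) * ((s : RR) + fR) := by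
    obtain ⟨k, hk⟩ := h7
    refine ⟨(k : RR), ?_⟩
    have hk' : ((s ^ 2 + 7 : ℤ) : RR) = ((p * k : ℤ) : RR) := by rw [hk]
    push_cast at hk'
    push_cast
    linear_combination hk' - fR_sq
  have hnp : ¬ Irreducible ((p : ℤ) : RR) := by
    intro hirr
    rcases hirr.prime.dvd_or_dvd hsf with h | h
    · have h1 := (dvd_coord h).2
      apply hp2
      have h2 : cY ((s : RR) - fR) = -2 := by
        rw [sub_eq_add_neg, (cXY_add _ _).2, (cXY_int s).2, (cXY_neg _).2, cXY_fR.2]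
        norm_num
      rw [h2] at h1
      exact (dvd_neg).1 h1
    · have h1 := (dvd_coord h).2
      apply hp2
      have h2 : cY ((s : RR) + fR) = 2 := by
        rw [(cXY_add _ _).2, (cXY_int s).2, cXY_fR.2]
        norm_num
      rw [h2] at h1
      exact h1
  have hnu : ¬ IsUnit ((p : ℤ) : RR) := by
    intro h
    have := isUnit_nR h
    rw [nR_int] at this
    have h1 : (p : ℤ) ^ 2 = 1 := this
    have h2 : (2 : ℤ) ≤ p := by exact_mod_cast hpp.two_le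
    nlinarith
  rw [irreducible_iff] at hnp
  push Not at hnp
  obtain ⟨a, b, hab, hau, hbu⟩ := hnp hnu
  have hN : nR a * nR b = (p : ℤ) ^ 2 := by
    rw [← nR_mul, ← hab, nR_int]
  have hNn : (nR a).natAbs * (nR b).natAbs = p ^ 2 := by
    rw [← Int.natAbs_mul, hN]
    simp [Int.natAbs_pow]
  refine ⟨a, ?_⟩
  have h1 : (nR a).natAbs ∣ p ^ 2 := Dvd.intro _ hNn
  obtain ⟨i, hi, hi'⟩ := (Nat.dvd_prime_pow hpp).1 h1
  have ha0 := nR_nonneg a
  have hb0 := nR_nonneg b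
  interval_cases i
  · exfalso
    apply hau
    apply unit_of_nR
    rw [pow_zero] at hi'
    omega
  · rw [pow_one] at hi'
    omega
  · exfalso
    apply hbu
    apply unit_of_nR
    rw [hi'] at hNn
    have h3 : 0 < p ^ 2 := pow_pos hpp.pos 2
    have : (nR b).natAbs = 1 := Nat.eq_of_mul_eq_mul_left h3 (by rw [hNn, mul_one])
    omega

open Classical in
/-- the normalization -/
noncomputable def nrm (x : RR) : RR := if cX x % 4 = 1 then x else -x

lemma nrm_cases (x : RR) : nrm x = x ∨ nrm x = -x := by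
  unfold nrm
  split_ifs
  · exact Or.inl rfl
  · exact Or.inr rfl

lemma nR_neg' (x : RR) : nR (-x) = nR x := by
  unfold nR
  rw [(cXY_neg x).1, (cXY_neg x).2]
  ring

lemma nR_nrm (x : RR) : nR (nrm x) = nR x := by
  rcases nrm_cases x with h | h <;> rw [h]
  exact nR_neg' x

lemma sp_nrm (x : RR) : sp (nrm x) = sp x := by
  rcases nrm_cases x with h | h <;> rw [h]
  exact sp_neg x

lemma nrm_mod {x : RR} (h : cX x % 2 = 1) : cX (nrm x) % 4 = 1 := by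
  unfold nrm
  split_ifs with h1
  · exact h1
  · rw [(cXY_neg x).1]
    omega

lemma odd_norm {x : RR} (h : nR x % 2 = 1) : cX x % 2 = 1 ∧ cY x % 2 = 0 := by
  unfold nR at h
  rcases Int.even_or_odd' (cX x) with ⟨k, hk | hk⟩ <;>
    rcases Int.even_or_odd' (cY x) with ⟨m, hm | hm⟩ <;> rw [hk, hm] at h
  · exfalso
    have e : (2 * k) ^ 2 + 2 * k * (2 * m) + 2 * (2 * m) ^ 2 =
        2 * (2 * k ^ 2 + 2 * k * m + 4 * m ^ 2) := by ring
    omega
  · exfalso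
    have e : (2 * k) ^ 2 + 2 * k * (2 * m + 1) + 2 * (2 * m + 1) ^ 2 =
        2 * (2 * k ^ 2 + k * (2 * m + 1) + (2 * m + 1) ^ 2) := by ring
    omega
  · omega
  · exfalso
    have e : (2 * k + 1) ^ 2 + (2 * k + 1) * (2 * m + 1) + 2 * (2 * m + 1) ^ 2 =
        2 * (2 * k ^ 2 + 3 * k + 2 * k * m + m + 1 + (2 * m + 1) ^ 2) := by ring
    omega

lemma exists_Sp1 {p : ℕ} (hp : Gq p) (hsq : IsSquare (-7 : ZMod p)) : ∃ ϖ : RR, Sp1 p ϖ := by
  obtain ⟨a, ha⟩ := exists_nR hp hsq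
  have h2 := hp.m2
  have h3 := odd_norm (x := a) (by omega)
  exact ⟨nrm a, hp, by rw [nR_nrm, ha], nrm_mod h3.1⟩

lemma Sp1.cj {p : ℕ} {ϖ : RR} (h : Sp1 p ϖ) : Sp1 p (nrm (Pool.Agent.Y698.cj ϖ)) := by
  have h1 : nR (Pool.Agent.Y698.cj ϖ) = p := by rw [nR_cj, h.nr]
  have h2 := h.gp.m2
  have h3 := odd_norm (x := Pool.Agent.Y698.cj ϖ) (by omega)
  exact ⟨h.gp, by rw [nR_nrm, h1], nrm_mod h3.1⟩

lemma Sp1.mul_cj {p : ℕ} {ϖ : RR} (h : Sp1 p ϖ) :
    ϖ * nrm (Pool.Agent.Y698.cj ϖ) = ((qs p : ℤ) : RR) := by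
  have h1 := Pool.Agent.Y698.mul_cj ϖ
  rw [h.nr] at h1
  have h4 := h.mod4
  have hy := h.y2
  have hx := h.x4
  have h2 := h.gp.m2
  unfold nrm qs
  rw [(cXY_cj ϖ).1]
  by_cases h5 : p % 4 = 1
  · rw [if_pos (by omega), if_pos h5, h1]
  · rw [if_neg (by omega), if_neg h5, mul_neg, h1]
    push_cast
    rfl

/-- the symbols of the conjugate primes -/
lemma Sp1.sy_cj {p : ℕ} {ϖ : RR} (h : Sp1 p ϖ) (x : RR) :
    SG.sy ϖ x * SG.sy (nrm (Pool.Agent.Y698.cj ϖ)) x = qch p (nR x) := by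
  have h1 : SG.sy (nrm (Pool.Agent.Y698.cj ϖ)) x = SG.sy ϖ (Pool.Agent.Y698.cj x) := by
    rw [sy_congr (sp_nrm _), ← Pool.Agent.Y279.SG.sy_cj ϖ (Pool.Agent.Y698.cj x), cj_cj]
  rw [h1, ← sy_mul h.po.pr, Pool.Agent.Y698.mul_cj, h.sy_int]

lemma Sp1.ne_cj {p : ℕ} {ϖ : RR} (h : Sp1 p ϖ) : ϖ ∉ sp (nrm (Pool.Agent.Y698.cj ϖ)) := by
  rw [sp_nrm]
  intro h0
  rw [Ideal.mem_span_singleton'] at h0
  obtain ⟨c, hc⟩ := h0
  have hNc : nR (Pool.Agent.Y698.cj ϖ) = p := by rw [nR_cj, h.nr]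
  have h2 : nR c = 1 := by
    have h3 := congrArg nR hc
    rw [nR_mul, hNc, h.nr] at h3
    have h5 : (p : ℤ) ≠ 0 := by exact_mod_cast h.gp.pr.ne_zero
    apply mul_right_cancel₀ h5
    linarith
  have h3 := isUnit_iff.1 (unit_of_nR h2)
  have h6 : (p : ℤ) = cX ϖ ^ 2 + cX ϖ * cY ϖ + 2 * cY ϖ ^ 2 := by
    rw [← h.nr]; rfl
  rcases h3 with h3 | h3
  · rw [h3, one_mul] at hc
    have h5 := congrArg cY hc
    rw [(cXY_cj ϖ).2] at h5
    exact h.yne (by omega)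
  · rw [h3, neg_one_mul] at hc
    have h5 := congrArg cX hc
    rw [(cXY_neg _).1, (cXY_cj ϖ).1] at h5
    have hY : cY ϖ = -2 * cX ϖ := by omega
    rw [hY] at h6
    have h7 : (7 : ℤ) ∣ p := ⟨cX ϖ ^ 2, by linear_combination h6⟩
    have h8 : 7 ∣ p := by exact_mod_cast h7
    exact h.gp.n7 ((Nat.prime_dvd_prime_iff_eq (by norm_num) h.gp.pr).1 h8).symm

/-! ### the family -/

/-- the choice of the prime elements -/
def Chs (S : Finset ℕ) (ϖ : ℕ → RR) : Prop := ∀ p ∈ S, IsSquare (-7 : ZMod p) → Sp1 p (ϖ p)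

lemma exists_chs {S : Finset ℕ} (hS : ∀ q ∈ S, Gq q) : ∃ ϖ, Chs S ϖ := by
  classical
  choose! f hf using fun (p : ℕ) (hp : p ∈ S) (h : IsSquare (-7 : ZMod p)) => exists_Sp1 (hS p hp) h
  exact ⟨f, hf⟩

open Classical in
/-- the primes of the field -/
noncomputable def pg (ϖ : ℕ → RR) (i : ℕ × Bool) : RR :=
  if IsSquare (-7 : ZMod i.1) then (if i.2 then nrm (cj (ϖ i.1)) else ϖ i.1)
  else ((qs i.1 : ℤ) : RR)

open Classical in
/-- the indices -/
noncomputable def ixs (S : Finset ℕ) : Finset (ℕ × Bool) :=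
  (S ×ˢ {false}) ∪ ((S.filter fun p => IsSquare (-7 : ZMod p)) ×ˢ {true})

section
variable {S : Finset ℕ} {ϖ : ℕ → RR}

open Classical in
lemma mem_ixs {i : ℕ × Bool} : i ∈ ixs S ↔ i.1 ∈ S ∧ (i.2 = true → IsSquare (-7 : ZMod i.1)) := by
  unfold ixs
  rw [Finset.mem_union, Finset.mem_product, Finset.mem_product, Finset.mem_filter,
    Finset.mem_singleton, Finset.mem_singleton]
  rcases i with ⟨a, b⟩
  cases b <;> simp

open Classical in
lemma prod_ixs {M : Type*} [CommMonoid M] (f : ℕ × Bool → M) :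
    ∏ i ∈ ixs S, f i =
      ∏ q ∈ S, (f (q, false) * if IsSquare (-7 : ZMod q) then f (q, true) else 1) := by
  unfold ixs
  rw [Finset.prod_union, Finset.prod_product, Finset.prod_product]
  · simp only [Finset.prod_singleton]
    rw [Finset.prod_filter, ← Finset.prod_mul_distrib]
  · rw [Finset.disjoint_left]
    rintro ⟨a, b⟩ h1 h2
    rw [Finset.mem_product, Finset.mem_singleton] at h1 h2
    have h3 : b = false := h1.2
    have h4 : b = true := h2.2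
    rw [h3] at h4
    exact Bool.noConfusion h4

open Classical in
lemma card_ixs : (ixs S).card = ∑ q ∈ S, if IsSquare (-7 : ZMod q) then 2 else 1 := by
  have h1 := prod_ixs (S := S) (M := Multiplicative ℕ) (fun _ => Multiplicative.ofAdd 1)
  rw [Finset.prod_const] at h1
  have h2 := congrArg Multiplicative.toAdd h1
  rw [toAdd_pow, toAdd_ofAdd, toAdd_prod, smul_eq_mul, mul_one] at h2
  rw [h2]
  refine Finset.sum_congr rfl fun q _ => ?_
  split_ifs
  · rfl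
  · rfl

lemma pg_i {q : ℕ} (h : ¬ IsSquare (-7 : ZMod q)) (b : Bool) : pg ϖ (q, b) = ((qs q : ℤ) : RR) :=
  if_neg h

lemma pg_f {q : ℕ} (h : IsSquare (-7 : ZMod q)) : pg ϖ (q, false) = ϖ q := by
  unfold pg
  rw [if_pos h]
  rfl

lemma pg_t {q : ℕ} (h : IsSquare (-7 : ZMod q)) : pg ϖ (q, true) = nrm (cj (ϖ q)) := by
  unfold pg
  rw [if_pos h]
  rfl

lemma qs_prod (hS : ∀ q ∈ S, Gq q) (h4 : (∏ q ∈ S, q) % 4 = 1) :
    ∏ q ∈ S, qs q = ((∏ q ∈ S, q : ℕ) : ℤ) := by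
  classical
  have key : ∀ S : Finset ℕ, (∀ q ∈ S, Gq q) → (∏ q ∈ S, qs q) % 4 = 1 ∧
      (∏ q ∈ S, qs q = ((∏ q ∈ S, q : ℕ) : ℤ) ∨ ∏ q ∈ S, qs q = -((∏ q ∈ S, q : ℕ) : ℤ)) := by
    intro S
    induction S using Finset.induction_on with
    | empty =>
      intro _
      simp
    | insert q S hq ih =>
      intro hS
      obtain ⟨h1, h2⟩ := ih fun p hp => hS p (Finset.mem_insert_of_mem hp)
      rw [Finset.prod_insert hq, Finset.prod_insert hq]
      have h3 := qs_mod (hS q (Finset.mem_insert_self _ _)).m2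
      refine ⟨?_, ?_⟩
      · rw [Int.mul_emod, h1, h3]
        norm_num
      · push_cast at h2 ⊢
        have h5 : qs q = q ∨ qs q = -q := by
          unfold qs
          split_ifs
          · exact Or.inl rfl
          · exact Or.inr rfl
        rcases h5 with h5 | h5 <;> rcases h2 with h2 | h2 <;> rw [h5, h2]
        · exact Or.inl rfl
        · right; ring
        · right; ring
        · left; ring
  obtain ⟨h1, h2 | h2⟩ := key S hS
  · exact h2
  · exfalso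
    omega

/-- the product of the primes -/
theorem prod_pg (hS : ∀ q ∈ S, Gq q) (h4 : (∏ q ∈ S, q) % 4 = 1) (hc : Chs S ϖ) :
    ∏ i ∈ ixs S, pg ϖ i = ((∏ q ∈ S, q : ℕ) : RR) := by
  classical
  rw [prod_ixs]
  have h1 : ∀ q ∈ S, (pg ϖ (q, false) * if IsSquare (-7 : ZMod q) then pg ϖ (q, true) else 1) =
      ((qs q : ℤ) : RR) := by
    intro q hq
    split_ifs with h
    · rw [pg_f h, pg_t h, (hc q hq h).mul_cj]
    · rw [pg_i h, mul_one]
  rw [Finset.prod_congr rfl h1]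
  have h2 := congrArg (fun t : ℤ => (t : RR)) (qs_prod hS h4)
  push_cast at h2 ⊢
  exact h2

/-- the product of the symbols -/
theorem prod_syg (hS : ∀ q ∈ S, Gq q) (hc : Chs S ϖ) (x : RR) :
    ∏ i ∈ ixs S, sy (pg ϖ i) x = ∏ q ∈ S, qch q (nR x) := by
  classical
  rw [prod_ixs]
  refine Finset.prod_congr rfl fun q hq => ?_
  split_ifs with h
  · rw [pg_f h, pg_t h, (hc q hq h).sy_cj]
  · rw [pg_i h, mul_one, Iq.sy ⟨hS q hq, h⟩]

/-- the cases -/
lemma pg_cases (hS : ∀ q ∈ S, Gq q) (hc : Chs S ϖ) {i : ℕ × Bool} (hi : i ∈ ixs S) :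
    (IsSquare (-7 : ZMod i.1) ∧ Sp1 i.1 (pg ϖ i)) ∨
      (Iq i.1 ∧ pg ϖ i = ((qs i.1 : ℤ) : RR)) := by
  rcases i with ⟨q, b⟩
  have h1 := (mem_ixs.1 hi).1
  by_cases h : IsSquare (-7 : ZMod q)
  · left
    refine ⟨h, ?_⟩
    cases b
    · rw [pg_f h]
      exact hc q h1 h
    · rw [pg_t h]
      exact (hc q h1 h).cj
  · right
    exact ⟨⟨hS q h1, h⟩, pg_i h b⟩

lemma pg_po (hS : ∀ q ∈ S, Gq q) (hc : Chs S ϖ) {i : ℕ × Bool} (hi : i ∈ ixs S) : PO (pg ϖ i) := by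
  rcases pg_cases hS hc hi with ⟨-, h⟩ | ⟨h, h'⟩
  · exact h.po
  · rw [h']
    exact h.po

lemma qs_sq (q : ℕ) : qs q ^ 2 = (q : ℤ) ^ 2 := by
  unfold qs
  split_ifs <;> ring

/-- the norm -/
lemma pg_nR (hS : ∀ q ∈ S, Gq q) (hc : Chs S ϖ) {i : ℕ × Bool} (hi : i ∈ ixs S) :
    (i.1 : ℤ) ∣ nR (pg ϖ i) ∧ nR (pg ϖ i) ∣ (i.1 : ℤ) ^ 2 := by
  rcases pg_cases hS hc hi with ⟨-, h⟩ | ⟨h, h'⟩
  · rw [h.nr]
    exact ⟨dvd_refl _, Dvd.intro (i.1 : ℤ) (by ring)⟩
  · rw [h', nR_int, qs_sq]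
    exact ⟨Dvd.intro (i.1 : ℤ) (by ring), dvd_refl _⟩

/-- **the family** -/
theorem fo (hS : ∀ q ∈ S, Gq q) (hc : Chs S ϖ) : FO (ixs S) (pg ϖ) := by
  refine ⟨fun i hi => pg_po hS hc hi, ?_⟩
  rintro ⟨a, b⟩ hi ⟨a', b'⟩ hj hne hmem
  have h1 := nR_dvd hmem
  have ha := (hS a (mem_ixs.1 hi).1).pr
  have ha' := (hS a' (mem_ixs.1 hj).1).pr
  by_cases haa : a = a'
  · subst haa
    by_cases h : IsSquare (-7 : ZMod a)
    · have hp := hc a (mem_ixs.1 hi).1 h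
      cases b <;> cases b'
      · exact hne rfl
      · rw [pg_f h, pg_t h] at hmem
        exact hp.ne_cj hmem
      · rw [pg_f h, pg_t h] at hmem
        have h2 := hp.cj.ne_cj
        apply h2
        rw [sp_nrm]
        have h3 : sp (cj (nrm (cj (ϖ a)))) = sp (ϖ a) := by
          rcases nrm_cases (cj (ϖ a)) with h4 | h4 <;> rw [h4]
          · rw [cj_cj]
          · rw [map_neg, cj_cj, sp_neg]
        rw [h3]
        exact hmem
      · exact hne rfl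
    · have hb : b = false := by
        cases b
        · rfl
        · exact absurd ((mem_ixs.1 hi).2 rfl) h
      have hb' : b' = false := by
        cases b'
        · rfl
        · exact absurd ((mem_ixs.1 hj).2 rfl) h
      exact hne (by rw [hb, hb'])
  · have h2 : (a' : ℤ) ∣ (a : ℤ) ^ 2 :=
      ((pg_nR hS hc hj).1.trans h1).trans (pg_nR hS hc hi).2
    have h5 : a' ∣ a ^ 2 := by exact_mod_cast h2
    exact haa ((Nat.prime_dvd_prime_iff_eq ha' ha).1 (ha'.dvd_of_dvd_pow h5)).symm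

/-- the reciprocity law -/
theorem rcp (hS : ∀ q ∈ S, Gq q) (hc : Chs S ϖ) {i k : ℕ × Bool} (hi : i ∈ ixs S) (hk : k ∈ ixs S)
    (hne : i ≠ k) : sl (pg ϖ k) (pg ϖ i) + sl (pg ϖ i) (pg ϖ k) = te (pg ϖ i) * te (pg ϖ k) := by
  have hfo := fo hS hc
  rcases pg_cases hS hc hi with ⟨-, h⟩ | ⟨h, h'⟩ <;> rcases pg_cases hS hc hk with ⟨-, g⟩ | ⟨g, g'⟩
  · exact h.rcp g (hfo.ne i hi k hk hne) (hfo.ne k hk i hi hne.symm)
  · rw [g', h.rcp2 g, Iq.te, mul_zero]
    exact CharTwo.add_self_eq_zero _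
  · rw [h', g.rcp2 h, Iq.te, zero_mul]
    exact CharTwo.add_self_eq_zero _
  · have hik : i.1 ≠ k.1 := by
      intro h1
      apply hne
      have hb : i.2 = false := by
        by_contra hb
        exact h.ns ((mem_ixs.1 hi).2 (by simpa using hb))
      have hb' : k.2 = false := by
        by_contra hb
        exact g.ns ((mem_ixs.1 hk).2 (by simpa using hb))
      exact Prod.ext h1 (by rw [hb, hb'])
    rw [h', g', g.rcp h hik.symm, h.rcp g hik, Iq.te, zero_mul, add_zero]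

lemma frg (hS : ∀ q ∈ S, Gq q) (hc : Chs S ϖ) {i : ℕ × Bool} (hi : i ∈ ixs S) :
    sl (pg ϖ i) fR = lg (e7 (pg ϖ i)) := by
  rcases pg_cases hS hc hi with ⟨-, h⟩ | ⟨h, h'⟩
  · exact h.fR
  · rw [h']
    exact h.fR

/-- the sum of the signs -/
theorem sum_te (hS : ∀ q ∈ S, Gq q) (hc : Chs S ϖ) :
    ∑ i ∈ ixs S, te (pg ϖ i) = 0 := by
  classical
  have h1 := sgn_prod (s := ixs S) (f := fun i => sy (pg ϖ i) (-1)) fun i hi => by
    rw [(pg_po hS hc hi).sy_neg_one]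
    split_ifs
    · exact Or.inl rfl
    · exact Or.inr rfl
  have h2 : ∑ i ∈ ixs S, te (pg ϖ i) = ∑ i ∈ ixs S, lg (sy (pg ϖ i) (-1)) :=
    Finset.sum_congr rfl fun i hi => ((pg_po hS hc hi).sl_neg).symm
  have h3 : nR (-1 : RR) = 1 := by
    unfold nR
    rw [(cXY_neg 1).1, (cXY_neg 1).2, cXY_one.1, cXY_one.2]
    norm_num
  rw [h2, ← h1.2, prod_syg hS hc, h3]
  have h5 : ∏ q ∈ S, qch q 1 = 1 := Finset.prod_eq_one fun q _ => qch_one q
  rw [h5, lg_one]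

end

end Pool.Agent.T2h78.TW
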