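import Pool.Agent.T2h78.TW.Cv1

/-!
# The factorizations of `D`
-/

set_option autoImplicit false
set_option linter.unusedSectionVars false

namespace Pool.Agent.T2h78.TW

open Pool.Agent.Y698 Pool.Agent.Y698.SG Pool.Agent.Y279.SG
open H667R3 Pool.Agent.W192.HK Pool.Agent.TH936.CM Pool.Agent.TH936.PU

lemma cXY_a2 (z : RR) : cX (aR ^ 2 * z) = -2 * (cX z + cY z) ∧ cY (aR ^ 2 * z) = cX z - cY z := by
  have h1 : cX (aR ^ 2) = -2 ∧ cY (aR ^ 2) = 1 := by
    rw [_root_.sq, (cXY_mul _ _).1, (cXY_mul _ _).2, cXY_aR.1, cXY_aR.2]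
    norm_num
  rw [(cXY_mul _ _).1, (cXY_mul _ _).2, h1.1, h1.2]
  constructor <;> ring

/-- the normalization -/
lemma a2_dvd {g : RR} : aR ^ 2 ∣ g - 1 ↔ ∃ s t : ℤ, cX g = 1 - 2 * (s + t) ∧ cY g = s - t := by
  constructor
  · rintro ⟨z, hz⟩
    have e : g = 1 + aR ^ 2 * z := by linear_combination hz
    refine ⟨cX z, cY z, ?_, ?_⟩
    · rw [e, (cXY_add _ _).1, cXY_one.1, (cXY_a2 z).1]
      ring
    · rw [e, (cXY_add _ _).2, cXY_one.2, (cXY_a2 z).2]
      ring
  · rintro ⟨s, t, h1, h2⟩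
    have e0 : cX ((s : RR) + (t : RR) * aR) = s ∧ cY ((s : RR) + (t : RR) * aR) = t := by
      rw [(cXY_add _ _).1, (cXY_add _ _).2, (cXY_mul _ _).1, (cXY_mul _ _).2, (cXY_int _).1,
        (cXY_int _).2, (cXY_int _).1, (cXY_int _).2, cXY_aR.1, cXY_aR.2]
      constructor <;> ring
    refine ⟨(s : RR) + (t : RR) * aR, ?_⟩
    apply RR_ext
    · rw [sub_eq_add_neg, (cXY_add _ _).1, (cXY_neg _).1, cXY_one.1, (cXY_a2 _).1, e0.1, e0.2, h1]
      ring
    · rw [sub_eq_add_neg, (cXY_add _ _).2, (cXY_neg _).2, cXY_one.2, (cXY_a2 _).2, e0.1, e0.2, h2]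
      ring

lemma a2_of {g : RR} (h1 : cX g % 4 = 1) (h2 : cY g % 2 = 0) : aR ^ 2 ∣ g - 1 := by
  obtain ⟨k, hk⟩ : ∃ k, cX g = 1 + 4 * k := ⟨(cX g - 1) / 4, by omega⟩
  obtain ⟨m, hm⟩ : ∃ m, cY g = 2 * m := ⟨cY g / 2, by omega⟩
  exact a2_dvd.2 ⟨m - k, -k - m, by omega, by omega⟩

lemma of_a2 {g : RR} (h : aR ^ 2 ∣ g - 1) (ho : nR g % 2 = 1) : cX g % 4 = 1 ∧ cY g % 2 = 0 := by
  obtain ⟨s, t, h1, h2⟩ := a2_dvd.1 h
  obtain ⟨h3, h4⟩ := odd_norm ho
  constructor <;> omega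

open Classical in
/-- `1` if `x` is not a square modulo `π`, and `0` if it is -/
noncomputable def nq (π x : RR) : ZMod 2 :=
  if IsSquare (Ideal.Quotient.mk (Ideal.span {π}) x) then 0 else 1

lemma nq_eq {π x : RR} (h : x ∉ sp π) : nq π x = sl π x := by
  classical
  have h2 : (-1 : ℂ) ≠ 1 := by norm_num
  unfold nq sl sy
  rw [if_neg h]
  by_cases h1 : IsSquare (Ideal.Quotient.mk (sp π) x)
  · rw [if_pos h1, if_pos h1, lg_one]
  · rw [if_neg h1, if_neg h1, lg_neg_one]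

/-- the matrix of a factorization -/
noncomputable def mq {n : ℕ} (π : Fin n → RR) : Matrix (Fin n) (Fin n) (ZMod 2) :=
  Matrix.of fun i j =>
    if i = j then nq (π i) fR + ∑ k ∈ Finset.univ.erase i, nq (π k) (π i) else nq (π j) (π i)

section
variable {S : Finset ℕ} {ϖ : ℕ → RR}

/-- **uniqueness of the factorization** -/
theorem fac_equiv (hS : ∀ q ∈ S, Gq q) (h4 : (∏ q ∈ S, q) % 4 = 1) (hc : Chs S ϖ) {n : ℕ}
    {π : Fin n → RR} (hpr : ∀ i, Prime (π i)) (ha : ∀ i, aR ^ 2 ∣ π i - 1)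
    (hprod : ∏ i, π i = ((∏ q ∈ S, q : ℕ) : RR)) :
    ∃ e : Fin n ≃ ixs S, ∀ i, π i = pg ϖ (e i) := by
  classical
  have hfo := fo hS hc
  have hpg := prod_pg hS h4 hc
  have hodd : ∀ i, nR (π i) % 2 = 1 := by
    intro i
    have h1 : π i ∣ ((∏ q ∈ S, q : ℕ) : RR) := by
      rw [← hprod]
      exact Finset.dvd_prod_of_mem _ (Finset.mem_univ i)
    obtain ⟨c, hc'⟩ := h1
    have h2 := congrArg nR hc'
    rw [nR_nat, nR_mul] at h2
    have h3 : ((∏ q ∈ S, q : ℕ) : ℤ) % 2 = 1 := by omega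
    have h5 : (((∏ q ∈ S, q : ℕ) : ℤ) ^ 2) % 2 = 1 := by
      rw [_root_.sq, Int.mul_emod, h3]
      norm_num
    rw [h2] at h5
    rcases Int.emod_two_eq_zero_or_one (nR (π i)) with h6 | h6
    · rw [Int.mul_emod, h6] at h5
      simp at h5
    · exact h6
  have hex : ∀ i, ∃ k : ixs S, π i = pg ϖ k := by
    intro i
    have h1 : π i ∣ ∏ k ∈ ixs S, pg ϖ k := by
      rw [hpg, ← hprod]
      exact Finset.dvd_prod_of_mem _ (Finset.mem_univ i)
    obtain ⟨k, hk, h2⟩ := (Prime.dvd_finsetProd_iff (hpr i) _).1 h1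
    refine ⟨⟨k, hk⟩, ?_⟩
    have hpo := hfo.po k hk
    have h3 : Associated (π i) (pg ϖ k) :=
      (hpr i).irreducible.associated_of_dvd hpo.pr.irreducible h2
    obtain ⟨u, hu⟩ := h3
    have h5 := (of_a2 (ha i) (hodd i)).1
    have h6 := hpo.x4
    rcases isUnit_iff.1 u.isUnit with h7 | h7
    · rw [h7, mul_one] at hu
      exact hu
    · exfalso
      rw [h7, mul_neg, mul_one] at hu
      rw [← hu, (cXY_neg _).1] at h6
      omega
  choose f hf using hex
  have hinj : Function.Injective f := by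
    intro i j hij
    by_contra hne
    have h1 : π j = π i := by rw [hf i, hf j, hij]
    have h2 : ∏ i, π i = π i * (π i * ∏ k ∈ (Finset.univ.erase i).erase j, π k) := by
      rw [← Finset.mul_prod_erase Finset.univ _ (Finset.mem_univ i),
        ← Finset.mul_prod_erase (Finset.univ.erase i) _
          (Finset.mem_erase.2 ⟨fun h => hne h.symm, Finset.mem_univ j⟩), h1]
    rw [hprod, ← hpg, ← Finset.mul_prod_erase (ixs S) _ (f i).2, ← hf i] at h2
    have h3 := mul_left_cancel₀ (hpr i).ne_zero h2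
    have h4 : π i ∣ ∏ k ∈ (ixs S).erase (f i), pg ϖ k := ⟨_, h3⟩
    obtain ⟨k, hk, h5⟩ := (Prime.dvd_finsetProd_iff (hpr i) _).1 h4
    rw [Finset.mem_erase] at hk
    rw [hf i] at h5
    exact hfo.ne k hk.2 (f i) (f i).2 hk.1 (Ideal.mem_span_singleton.2 h5)
  have hsurj : Function.Surjective f := by
    intro k
    have hpo := hfo.po k k.2
    have h1 : pg ϖ k ∣ ∏ i, π i := by
      rw [hprod, ← hpg]
      exact Finset.dvd_prod_of_mem _ k.2
    obtain ⟨i, -, h2⟩ := (Prime.dvd_finsetProd_iff hpo.pr _).1 h1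
    refine ⟨i, ?_⟩
    by_contra hne
    rw [hf i] at h2
    exact hfo.ne (f i) (f i).2 k k.2 (fun h => hne (Subtype.ext h)) (Ideal.mem_span_singleton.2 h2)
  exact ⟨Equiv.ofBijective f ⟨hinj, hsurj⟩, hf⟩

/-- the determinant -/
theorem det_mq (hS : ∀ q ∈ S, Gq q) (hc : Chs S ϖ) {n : ℕ}
    {π : Fin n → RR} (e : Fin n ≃ ixs S) (he : ∀ i, π i = pg ϖ (e i)) :
    (mq π).det = gD S ϖ := by
  classical
  have hfo := fo hS hc
  have h1 : mq π = (Matrix.of fun i j : ixs S =>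
      if i = j then lg (e7 (pg ϖ i)) + ∑ k ∈ (ixs S).erase i, sl (pg ϖ k) (pg ϖ i)
        else sl (pg ϖ j) (pg ϖ i) : Matrix (ixs S) (ixs S) (ZMod 2)).submatrix e e := by
    ext i j
    unfold mq
    rw [Matrix.of_apply, Matrix.submatrix_apply, Matrix.of_apply]
    by_cases hij : i = j
    · rw [if_pos hij, if_pos (by rw [hij]), he i, nq_eq (fR_notin' (hfo.po _ (e i).2)),
        frg hS hc (e i).2]
      congr 1
      have h2 : ∀ k ∈ Finset.univ.erase i, nq (π k) (pg ϖ (e i)) =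
          (fun m : ixs S => sl (pg ϖ m) (pg ϖ (e i))) (e k) := by
        intro k hk
        rw [Finset.mem_erase] at hk
        rw [he k]
        exact nq_eq (hfo.ne _ (e i).2 _ (e k).2 (fun h => hk.1 (e.injective (Subtype.ext h.symm))))
      rw [Finset.sum_congr rfl h2]
      have h3 : ∑ k ∈ Finset.univ.erase i, (fun m : ixs S => sl (pg ϖ m) (pg ϖ (e i))) (e k) =
          ∑ m ∈ Finset.univ.erase (e i), sl (pg ϖ m) (pg ϖ (e i)) := by
        refine Finset.sum_bij' (fun k _ => e k) (fun m _ => e.symm m) ?_ ?_ ?_ ?_ ?_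
        · intro k hk
          rw [Finset.mem_erase] at hk ⊢
          exact ⟨fun h => hk.1 (e.injective h), Finset.mem_univ _⟩
        · intro m hm
          rw [Finset.mem_erase] at hm ⊢
          refine ⟨fun h => hm.1 ?_, Finset.mem_univ _⟩
          rw [← h, e.apply_symm_apply]
        · intro k _
          exact e.symm_apply_apply k
        · intro m _
          exact e.apply_symm_apply m
        · intro k _
          rfl
      rw [h3]
      refine Finset.sum_bij (fun m _ => (m : ℕ × Bool)) ?_ ?_ ?_ ?_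
      · intro m hm
        rw [Finset.mem_erase] at hm ⊢
        exact ⟨fun h => hm.1 (Subtype.ext h), m.2⟩
      · intro m _ m' _ h
        exact Subtype.ext h
      · intro m hm
        rw [Finset.mem_erase] at hm
        exact ⟨⟨m, hm.2⟩, Finset.mem_erase.2 ⟨fun h => hm.1 (congrArg Subtype.val h),
          Finset.mem_univ _⟩, rfl⟩
      · intro m _
        rfl
    · rw [if_neg hij, if_neg (fun h => hij (e.injective h)), he i, he j]
      exact nq_eq (hfo.ne _ (e i).2 _ (e j).2 (fun h => hij (e.injective (Subtype.ext h))))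
  rw [h1, Matrix.det_submatrix_equiv_self]
  unfold gD TW.gd
  congr 1

/-- a factorization -/
theorem exists_fac (hS : ∀ q ∈ S, Gq q) (h4 : (∏ q ∈ S, q) % 4 = 1) (hc : Chs S ϖ) :
    ∃ π : Fin (ixs S).card → RR, (∀ i, Prime (π i)) ∧ (∀ i, aR ^ 2 ∣ π i - 1) ∧
      ∏ i, π i = ((∏ q ∈ S, q : ℕ) : RR) := by
  classical
  have e := (ixs S).equivFin
  refine ⟨fun i => pg ϖ (e.symm i), fun i => (pg_po hS hc (e.symm i).2).pr,
    fun i => a2_of (pg_po hS hc (e.symm i).2).x4 (pg_po hS hc (e.symm i).2).y2, ?_⟩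
  rw [← prod_pg hS h4 hc, ← Finset.prod_coe_sort (ixs S) (pg ϖ)]
  exact Fintype.prod_equiv e.symm (fun i => pg ϖ (e.symm i)) (fun i : ixs S => pg ϖ i)
    fun i => rfl

end

end Pool.Agent.T2h78.TW
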