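import Pool.Agent.T2h78.TW.Cv2

/-!
# The local conditions
-/

set_option autoImplicit false
set_option linter.unusedSectionVars false

namespace Pool.Agent.T2h78.TW

open Pool.Agent.Y698 Pool.Agent.Y698.SG Pool.Agent.Y279.SG
open H667R3 Pool.Agent.W192.HK Pool.Agent.TH936.CM Pool.Agent.TH936.PU

/-! ### squares -/

lemma Sa_mul_sq {F : Type} [Field F] {g : RR} (hg : Sa F (cX g) (cY g)) (h : RR) :
    Sa F (cX (g * h ^ 2)) (cY (g * h ^ 2)) := by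
  obtain ⟨m, n, h1, h2⟩ := hg
  refine ⟨m * cX h - 2 * n * cY h, m * cY h + n * cX h + n * cY h, ?_, ?_⟩
  · rw [(cXY_mul _ _).1, _root_.sq h, (cXY_mul h h).1, (cXY_mul h h).2]
    push_cast
    rw [h1, h2]
    ring
  · rw [(cXY_mul _ _).2, _root_.sq h, (cXY_mul h h).1, (cXY_mul h h).2]
    push_cast
    rw [h1, h2]
    ring

lemma Sa_of_sq {F : Type} [Field F] [CharZero F] {a : F} (ha : a ^ 2 = a - 2) {x y : ℤ}
    (h1 : IsSquare ((x : F) + y * a)) (h2 : IsSquare ((x : F) + y * (1 - a))) : Sa F x y := by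
  obtain ⟨p, hp⟩ := h1
  obtain ⟨q, hq⟩ := h2
  have hs := s_ne ha
  refine ⟨p - (p - q) / (2 * a - 1) * a, (p - q) / (2 * a - 1), ?_, ?_⟩
  · obtain ⟨n, hn⟩ : ∃ n, n = (p - q) / (2 * a - 1) := ⟨_, rfl⟩
    rw [← hn]
    rw [eq_div_iff hs] at hn
    have hq' : q = p - n * (2 * a - 1) := by linear_combination hn
    rw [hq'] at hq
    apply mul_left_cancel₀ hs
    linear_combination (a - 1) * hp + a * hq + (n ^ 2 * (2 * a - 1)) * ha
  · obtain ⟨n, hn⟩ : ∃ n, n = (p - q) / (2 * a - 1) := ⟨_, rfl⟩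
    rw [← hn]
    rw [eq_div_iff hs] at hn
    have hq' : q = p - n * (2 * a - 1) := by linear_combination hn
    rw [hq'] at hq
    apply mul_left_cancel₀ hs
    linear_combination hp - hq


/-! ### the family -/

section
variable {S : Finset ℕ} {ϖ : ℕ → RR} {T : Finset (ℕ × Bool)}

/-- the complementary element -/
noncomputable def dl' (S : Finset ℕ) (ϖ : ℕ → RR) (T : Finset (ℕ × Bool)) : RR :=
  ((sgz (∑ i ∈ T, te (pg ϖ i)) : ℤ) : RR) * (fR * ∏ i ∈ ixs S \ T, pg ϖ i)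

lemma KE.sy_out (hS : ∀ q ∈ S, Gq q) (hc : Chs S ϖ) (h : KE S ϖ T) {i : ℕ × Bool}
    (hi : i ∈ ixs S) (hiT : i ∉ T) : sy (pg ϖ i) (dl ϖ T) = 1 := by
  have h1 := sy_of (fo hS hc) h.sub hi hiT (∑ i ∈ T, te (pg ϖ i)) false (by
    simpa using h.out i hi hiT)
  have e : fb false = 1 := rfl
  rw [e, one_mul] at h1
  exact h1

lemma KE.sy_inn (hS : ∀ q ∈ S, Gq q) (hc : Chs S ϖ) (h : KE S ϖ T) {i : ℕ × Bool}
    (hiT : i ∈ T) : sy (pg ϖ i) (dl' S ϖ T) = 1 := by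
  have h1 := sy_of (fo hS hc) (U := ixs S \ T) Finset.sdiff_subset (h.sub hiT)
    (fun h2 => (Finset.mem_sdiff.1 h2).2 hiT) (∑ i ∈ T, te (pg ϖ i)) true (by
      simpa using h.inn i hiT)
  exact h1

/-- the product -/
lemma KE.dl_mul (hS : ∀ q ∈ S, Gq q) (h4 : (∏ q ∈ S, q) % 4 = 1) (hc : Chs S ϖ)
    (h : KE S ϖ T) : (((∏ q ∈ S, q : ℕ) : ℤ) : RR) * (fR * dl ϖ T) =
      dl' S ϖ T * (∏ i ∈ T, pg ϖ i) ^ 2 := by
  have h1 := prod_pg hS h4 hc
  rw [← Finset.prod_sdiff h.sub] at h1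
  have h2 : (((∏ q ∈ S, q : ℕ) : ℤ) : RR) = ((∏ q ∈ S, q : ℕ) : RR) := by push_cast; rfl
  rw [h2, ← h1]
  unfold dl dl'
  ring

lemma cXY_DfR (D : ℤ) (g : RR) : cX ((D : RR) * (fR * g)) = D * (-cX g - 4 * cY g) ∧
    cY ((D : RR) * (fR * g)) = D * (2 * cX g + cY g) := by
  rw [(cXY_mul (D : RR) (fR * g)).1, (cXY_mul (D : RR) (fR * g)).2, (cXY_mul fR g).1,
    (cXY_mul fR g).2, (cXY_int D).1, (cXY_int D).2, cXY_fR.1, cXY_fR.2]
  constructor <;> ring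

lemma dl_ne (hS : ∀ q ∈ S, Gq q) (hc : Chs S ϖ) (h : KE S ϖ T) : dl ϖ T ≠ 0 := by
  unfold dl
  refine mul_ne_zero ?_ ?_
  · rcases sgz_unit (∑ i ∈ T, te (pg ϖ i)) with h1 | h1 <;> rw [h1]
    · push_cast
      exact one_ne_zero
    · push_cast
      exact neg_ne_zero.2 one_ne_zero
  · rw [Finset.prod_ne_zero_iff]
    exact fun i hi => (pg_po hS hc (h.sub hi)).pr.ne_zero

lemma dl_xy (hS : ∀ q ∈ S, Gq q) (hc : Chs S ϖ) (h : KE S ϖ T) :
    cX (dl ϖ T) ≠ 0 ∨ cY (dl ϖ T) ≠ 0 := by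
  by_contra hcon
  push Not at hcon
  apply dl_ne hS hc h
  exact RR_ext (by rw [hcon.1, cXY_zero.1]) (by rw [hcon.2, cXY_zero.2])

lemma nR_prod' {ι : Type} (U : Finset ι) (f : ι → RR) : nR (∏ i ∈ U, f i) = ∏ i ∈ U, nR (f i) := by
  classical
  induction U using Finset.induction_on with
  | empty =>
    rw [Finset.prod_empty, Finset.prod_empty]
    unfold nR
    rw [cXY_one.1, cXY_one.2]
    norm_num
  | insert i U hi ih => rw [Finset.prod_insert hi, Finset.prod_insert hi, nR_mul, ih]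

lemma nR_dl : nR (dl ϖ T) = ∏ i ∈ T, nR (pg ϖ i) := by
  unfold dl
  rw [nR_mul, nR_prod', nR_int]
  have h1 := sgz_sq (∑ i ∈ T, te (pg ϖ i))
  rw [← _root_.sq] at h1
  rw [h1, one_mul]

lemma not_dvd_nR_dl (hS : ∀ q ∈ S, Gq q) (hc : Chs S ϖ) (h : KE S ϖ T) {p : ℕ} (hp : p.Prime)
    (hpS : p ∉ S) : ¬ (p : ℤ) ∣ nR (dl ϖ T) := by
  rw [nR_dl]
  intro hd
  obtain ⟨i, hi, h1⟩ := (Prime.dvd_finsetProd_iff (Nat.prime_iff_prime_int.1 hp) _).1 hd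
  have h2 := (pg_nR hS hc (h.sub hi)).2
  have h3 : (p : ℤ) ∣ (i.1 : ℤ) ^ 2 := h1.trans h2
  have h4 : p ∣ i.1 ^ 2 := by exact_mod_cast h3
  have hiS := (mem_ixs.1 (h.sub hi)).1
  have h5 := (Nat.prime_dvd_prime_iff_eq hp (hS i.1 hiS).pr).1 (hp.dvd_of_dvd_pow h4)
  exact hpS (h5 ▸ hiS)

/-! ### the place two -/

/-- the condition at two -/
def Tw (g : RR) : Prop := cX g % 2 = 1 ∧ (cX g - cY g) % 4 = 1

lemma Tw.one : Tw 1 := by
  unfold Tw
  rw [cXY_one.1, cXY_one.2]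
  norm_num

lemma Tw.mul {g h : RR} (hg : Tw g) (hh : Tw h) : Tw (g * h) := by
  obtain ⟨g1, g2⟩ := hg
  obtain ⟨h1, h2⟩ := hh
  obtain ⟨s, hs⟩ : ∃ s, cX g = cY g + 1 + 4 * s := ⟨(cX g - cY g - 1) / 4, by omega⟩
  obtain ⟨s', hs'⟩ : ∃ s, cX h = cY h + 1 + 4 * s := ⟨(cX h - cY h - 1) / 4, by omega⟩
  obtain ⟨y, hy⟩ : ∃ y, cY g = 2 * y := ⟨cY g / 2, by omega⟩
  obtain ⟨y', hy'⟩ : ∃ y, cY h = 2 * y := ⟨cY h / 2, by omega⟩
  unfold Tw
  rw [(cXY_mul g h).1, (cXY_mul g h).2, hs, hs', hy, hy']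
  constructor
  · have e : (2 * y + 1 + 4 * s) * (2 * y' + 1 + 4 * s') - 2 * (2 * y) * (2 * y') =
        1 + 2 * (2 * y * y' + y + 4 * y * s' + y' + 2 * s' + 4 * s * y' + 2 * s + 8 * s * s' -
          4 * y * y') := by ring
    rw [e]
    omega
  · have e : (2 * y + 1 + 4 * s) * (2 * y' + 1 + 4 * s') - 2 * (2 * y) * (2 * y') -
        ((2 * y + 1 + 4 * s) * (2 * y') + 2 * y * (2 * y' + 1 + 4 * s') + 2 * y * (2 * y')) =
        1 + 4 * (s + s' + 4 * s * s' - 4 * y * y') := by ring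
    rw [e]
    omega

lemma Tw.po {g : RR} (h : PO g) : Tw (((sgz (te g) : ℤ) : RR) * g) := by
  have h4 := h.x4
  have h2 := h.y2
  unfold Tw
  rw [(cXY_mul _ g).1, (cXY_mul _ g).2, (cXY_int _).1, (cXY_int _).2]
  unfold te sgz
  by_cases h0 : cY g % 4 = 0
  · rw [if_pos h0, if_pos rfl]
    constructor <;> omega
  · rw [if_neg h0, if_neg (by decide)]
    constructor <;> omega

lemma Tw.dl (hS : ∀ q ∈ S, Gq q) (hc : Chs S ϖ) (h : KE S ϖ T) : Tw (TW.dl ϖ T) := by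
  classical
  have key : ∀ U ⊆ T, Tw (TW.dl ϖ U) := by
    intro U
    induction U using Finset.induction_on with
    | empty =>
      intro _
      unfold TW.dl
      rw [Finset.sum_empty, Finset.prod_empty, sgz_zero]
      push_cast
      rw [one_mul]
      exact Tw.one
    | insert i U hi ih =>
      intro hU
      have h1 := ih fun j hj => hU (Finset.mem_insert_of_mem hj)
      have h2 := Tw.po (pg_po hS hc (h.sub (hU (Finset.mem_insert_self i U))))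
      have h3 := h2.mul h1
      have e : TW.dl ϖ (insert i U) = ((sgz (te (pg ϖ i)) : ℤ) : RR) * pg ϖ i * TW.dl ϖ U := by
        unfold TW.dl
        rw [Finset.sum_insert hi, Finset.prod_insert hi, sgz_add]
        push_cast
        ring
      rw [e]
      exact h3
  exact key T (Finset.Subset.refl T)

/-! ### the place seven -/

lemma e7_sgz (t : ZMod 2) : (e7 ((sgz t : ℤ) : RR) = 1 ∨ e7 ((sgz t : ℤ) : RR) = -1) ∧
    lg (e7 ((sgz t : ℤ) : RR)) = t := by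
  rcases zm2 t with rfl | rfl
  · rw [sgz_zero]
    push_cast
    rw [e7_one]
    exact ⟨Or.inl rfl, lg_one⟩
  · have : sgz 1 = -1 := if_neg (by decide)
    rw [this]
    push_cast
    rw [e7_neg, e7_one]
    exact ⟨Or.inr rfl, lg_neg_one⟩

lemma e7_dl (hS : ∀ q ∈ S, Gq q) (hc : Chs S ϖ) (h : KE S ϖ T) : e7 (dl ϖ T) = 1 := by
  classical
  have h1 := sgn_prod (s := T) (f := fun i => e7 (pg ϖ i)) fun i hi =>
    e7_sgn (pg_po hS hc (h.sub hi)).cop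
  have h2 : e7 (∏ i ∈ T, pg ϖ i) = ∏ i ∈ T, e7 (pg ϖ i) := by
    have key : ∀ U : Finset (ℕ × Bool), e7 (∏ i ∈ U, pg ϖ i) = ∏ i ∈ U, e7 (pg ϖ i) := by
      intro U
      induction U using Finset.induction_on with
      | empty => rw [Finset.prod_empty, Finset.prod_empty, e7_one]
      | insert i U hi ih => rw [Finset.prod_insert hi, Finset.prod_insert hi, e7_mul, ih]
    exact key T
  obtain ⟨h3, h4⟩ := e7_sgz (∑ i ∈ T, te (pg ϖ i))
  have h5 : e7 (dl ϖ T) = 1 ∨ e7 (dl ϖ T) = -1 := by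
    unfold dl
    rw [e7_mul, h2]
    exact sgn_mul h3 h1.1
  refine lg_inj h5 (Or.inl rfl) ?_
  rw [lg_one]
  unfold dl
  rw [e7_mul, h2, lg_mul h3 h1.1, h4, h1.2, h.sev]
  exact CharTwo.add_self_eq_zero _

lemma seven (hS : ∀ q ∈ S, Gq q) (hc : Chs S ϖ) (h : KE S ϖ T) : ∃ z : ℤ, ¬ (7 : ℤ) ∣ z ∧
    (7 : ℤ) ∣ (cX (dl ϖ T) + 4 * cY (dl ϖ T)) - z ^ 2 := by
  have h1 := e7_dl hS hc h
  unfold e7 at h1
  have h2 : quadraticChar (ZMod 7) (r7 (dl ϖ T)) = 1 := by exact_mod_cast h1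
  have h3 : r7 (dl ϖ T) ≠ 0 := by
    intro h0
    rw [h0, MulChar.map_zero] at h2
    exact zero_ne_one h2
  obtain ⟨s, hs⟩ := (quadraticChar_one_iff_isSquare h3).1 h2
  obtain ⟨z, rfl⟩ := ZMod.intCast_surjective s
  refine ⟨z, ?_, ?_⟩
  · intro hz
    have h4 : (z : ZMod 7) = 0 := (ZMod.intCast_zmod_eq_zero_iff_dvd z 7).2 hz
    rw [h4, mul_zero] at hs
    exact h3 hs
  · rw [r7_apply] at hs
    have h4 : (((cX (dl ϖ T) + 4 * cY (dl ϖ T)) - z ^ 2 : ℤ) : ZMod 7) = 0 := by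
      push_cast
      linear_combination hs
    exact (ZMod.intCast_zmod_eq_zero_iff_dvd _ 7).1 h4

end

end Pool.Agent.T2h78.TW
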