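import Pool.Agent.T2h78.TW.Al
import Pool.Agent.T2h78.TW.Std
import Pool.Agent.Y698.SG.Ck

/-!
# The finite part of the descent for the twists by all `D = 1 mod 4`
-/

set_option autoImplicit false
set_option linter.unusedSectionVars false

namespace Pool.Agent.T2h78.TW

open Pool.Agent.Y698 Pool.Agent.Y698.SG Pool.Agent.R428.Q0 Pool.Agent.Y279.SG
open NumberField IsDedekindDomain Ideal IsCyclotomicExtension.Rat WithZero
open Pool.Agent.H921R2.TatePole Pool.Agent.H82R3.EK
open Pool.Agent.W192.HK (sp)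

/-- the kernel of the matrix -/
theorem ker_empty {ι : Type} [DecidableEq ι] {I : Finset ι} {c e : ι → ZMod 2}
    {r : ι → ι → ZMod 2} (hrcp : ∀ i ∈ I, ∀ k ∈ I, i ≠ k → r i k + r k i = e i * e k)
    (he : ∑ i ∈ I, e i = 0) (hdet : TW.gd c r I ≠ 0) {T : Finset ι} (hT : T ⊆ I)
    (h1 : ∀ i ∈ I \ T, e i * ∑ j ∈ T, e j + ∑ j ∈ T, r j i = 0)
    (h2 : ∀ i ∈ T, e i * ∑ j ∈ T, e j + (c i + ∑ j ∈ I \ T, r j i) = 0) : T = ∅ := by
  classical
  have h2' : ∀ x : ZMod 2, x + x = 0 := CharTwo.add_self_eq_zero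
  have hr : ∀ i ∈ I, ∀ k ∈ I, i ≠ k → r i k = e i * e k + r k i := by
    intro i hi k hk hik
    have := hrcp i hi k hk hik
    linear_combination this - h2' (r k i)
  set M : Matrix I I (ZMod 2) := Matrix.of fun i j : I =>
    if i = j then c i + ∑ k ∈ I.erase i, r i k else r i j with hM
  have hMv : M.mulVec (fun j : I => if (j : ι) ∈ T then 1 else 0) = 0 := by
    funext i
    obtain ⟨i, hi⟩ := i
    rw [Matrix.mulVec, dotProduct]
    have e1 : ∑ j : I, M ⟨i, hi⟩ j * (if (j : ι) ∈ T then 1 else 0) =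
        ∑ j ∈ T, (if i = j then c i + ∑ k ∈ I.erase i, r i k else r i j) := by
      have e2 : ∀ j : I, M ⟨i, hi⟩ j * (if (j : ι) ∈ T then 1 else 0) =
          (fun j : ι => if j ∈ T then (if i = j then c i + ∑ k ∈ I.erase i, r i k else r i j)
            else 0) j := by
        intro j
        rw [hM, Matrix.of_apply]
        simp only [mul_ite, mul_one, mul_zero]
        congr 1
        by_cases hij : i = j
        · rw [if_pos (Subtype.ext hij), if_pos hij]
        · rw [if_neg (fun h => hij (congrArg Subtype.val h)), if_neg hij]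
      rw [Finset.sum_congr rfl fun j _ => e2 j, Finset.sum_coe_sort I (fun j : ι => if j ∈ T then
        (if i = j then c i + ∑ k ∈ I.erase i, r i k else r i j) else 0), ← Finset.sum_filter]
      refine Finset.sum_congr ?_ fun _ _ => rfl
      ext j
      rw [Finset.mem_filter]
      exact ⟨fun h => h.2, fun h => ⟨hT h, h⟩⟩
    rw [e1]
    show _ = (0 : ZMod 2)
    by_cases hiT : i ∈ T
    · have h3 := h2 i hiT
      rw [← Finset.add_sum_erase T _ hiT, if_pos rfl]
      have e3 : ∑ j ∈ T.erase i, (if i = j then c i + ∑ k ∈ I.erase i, r i k else r i j) =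
          ∑ j ∈ T.erase i, r i j :=
        Finset.sum_congr rfl fun j hj => if_neg (Finset.ne_of_mem_erase hj).symm
      have e4 : ∑ k ∈ I.erase i, r i k = ∑ k ∈ I \ T, r i k + ∑ k ∈ T.erase i, r i k := by
        have : I.erase i = (I \ T) ∪ T.erase i := by
          ext k
          simp only [Finset.mem_erase, Finset.mem_union, Finset.mem_sdiff]
          constructor
          · rintro ⟨h5, h6⟩
            by_cases h7 : k ∈ T
            · exact Or.inr ⟨h5, h7⟩
            · exact Or.inl ⟨h6, h7⟩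
          · rintro (⟨h5, h6⟩ | ⟨h5, h6⟩)
            · exact ⟨fun h => h6 (h ▸ hiT), h5⟩
            · exact ⟨h5, hT h6⟩
        rw [this, Finset.sum_union]
        rw [Finset.disjoint_left]
        intro k h5 h6
        exact (Finset.mem_sdiff.1 h5).2 (Finset.mem_of_mem_erase h6)
      have e5 : ∑ k ∈ I \ T, r i k = e i * ∑ k ∈ I \ T, e k + ∑ k ∈ I \ T, r k i := by
        rw [Finset.mul_sum, ← Finset.sum_add_distrib]
        refine Finset.sum_congr rfl fun k hk => ?_
        rw [Finset.mem_sdiff] at hk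
        exact hr i hi k hk.1 fun h => hk.2 (h ▸ hiT)
      have e6 : ∑ k ∈ I \ T, e k = ∑ k ∈ T, e k := by
        have h8 := Finset.sum_sdiff (f := e) hT
        rw [he] at h8
        linear_combination h8 - h2' (∑ k ∈ T, e k)
      rw [e3, e4, e5, e6]
      linear_combination h3 + h2' (∑ k ∈ T.erase i, r i k)
    · have h3 := h1 i (Finset.mem_sdiff.2 ⟨hi, hiT⟩)
      have e3 : ∑ j ∈ T, (if i = j then c i + ∑ k ∈ I.erase i, r i k else r i j) =
          ∑ j ∈ T, (e i * e j + r j i) :=
        Finset.sum_congr rfl fun j hj => by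
          rw [if_neg (fun h : i = j => hiT (h ▸ hj))]
          exact hr i hi j (hT hj) fun h => hiT (h ▸ hj)
      rw [e3, Finset.sum_add_distrib, ← Finset.mul_sum]
      exact h3
  have h0 := Matrix.eq_zero_of_mulVec_eq_zero hdet hMv
  rw [Finset.eq_empty_iff_forall_notMem]
  intro i hi
  have h3 := congrFun h0 ⟨i, hT hi⟩
  simp only [Pi.zero_apply] at h3
  rw [if_pos hi] at h3
  exact one_ne_zero h3

lemma sy_prod' {ϖ : RR} (h : Prime ϖ) {ι : Type} (U : Finset ι) (π : ι → RR) :
    sy ϖ (∏ i ∈ U, π i) = ∏ i ∈ U, sy ϖ (π i) := by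
  classical
  induction U using Finset.induction_on with
  | empty => rw [Finset.prod_empty, Finset.prod_empty, sy_one' h]
  | insert i U hi ih => rw [Finset.prod_insert hi, Finset.prod_insert hi, sy_mul h, ih]

lemma fR_notin' {ϖ : RR} (h : PO ϖ) : fR ∉ sp ϖ := by
  intro h1
  rw [Ideal.mem_span_singleton] at h1
  exact h.pr.not_isUnit (h.cop.isUnit_of_dvd' h1 dvd_rfl)

lemma sgz_unit (t : ZMod 2) : sgz t = 1 ∨ sgz t = -1 := by
  unfold sgz
  split_ifs
  · exact Or.inl rfl
  · exact Or.inr rfl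

lemma prod_notin' {ι : Type} {I U : Finset ι} {π : ι → RR} (hf : FO I π) (hU : U ⊆ I) {i : ι}
    (hi : i ∈ I) (hiU : i ∉ U) (t : ZMod 2) (e : Bool) :
    ((sgz t : ℤ) : RR) * (fb e * ∏ j ∈ U, π j) ∉ sp (π i) := by
  classical
  have hp := (hf.po i hi).pr
  intro h
  rw [Ideal.mem_span_singleton] at h
  have h0 : π i ∣ fb e * ∏ j ∈ U, π j := by
    rcases sgz_unit t with h1 | h1 <;> rw [h1] at h
    · push_cast at h
      rwa [one_mul] at h
    · push_cast at h
      rw [neg_one_mul] at h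
      exact (dvd_neg).1 h
  rcases hp.dvd_or_dvd h0 with h1 | h1
  · cases e
    · exact hp.not_isUnit (isUnit_of_dvd_one h1)
    · exact fR_notin' (hf.po i hi) (Ideal.mem_span_singleton.2 h1)
  · obtain ⟨j, hj, h2⟩ := (Prime.dvd_finsetProd_iff hp _).1 h1
    exact hf.ne j (hU hj) i hi (fun h3 => hiU (h3 ▸ hj)) (Ideal.mem_span_singleton.2 h2)

lemma sl_sgz {ϖ : RR} (h : PO ϖ) (t : ZMod 2) : lg (sy ϖ ((sgz t : ℤ) : RR)) = te ϖ * t ∧
    (sy ϖ ((sgz t : ℤ) : RR) = 1 ∨ sy ϖ ((sgz t : ℤ) : RR) = -1) := by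
  rcases zm2 t with rfl | rfl
  · have e : ((sgz 0 : ℤ) : RR) = 1 := by
      rw [sgz_zero]
      push_cast
      rfl
    rw [e, sy_one' h.pr, lg_one, mul_zero]
    exact ⟨rfl, Or.inl rfl⟩
  · have e : ((sgz 1 : ℤ) : RR) = -1 := by
      have : sgz 1 = -1 := if_neg (by decide)
      rw [this]
      push_cast
      rfl
    rw [e, mul_one]
    refine ⟨h.sl_neg, ?_⟩
    rw [h.sy_neg_one]
    split_ifs
    · exact Or.inl rfl
    · exact Or.inr rfl

lemma lg_syQ {ι : Type} {I U : Finset ι} {π : ι → RR} (hf : FO I π) (hU : U ⊆ I) {i : ι}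
    (hi : i ∈ I) (hiU : i ∉ U) (t : ZMod 2) (e : Bool)
    (h : sy (π i) (((sgz t : ℤ) : RR) * (fb e * ∏ j ∈ U, π j)) = 1) :
    te (π i) * t + ((if e then sl (π i) fR else 0) + ∑ j ∈ U, sl (π i) (π j)) = 0 := by
  have hp := hf.po i hi
  have h1 := sgn_prod (s := U) (f := fun j => sy (π i) (π j)) fun j hj =>
    sy_sgn (hf.ne j (hU hj) i hi (fun h3 => hiU (h3 ▸ hj)))
  obtain ⟨h2, h3⟩ := sl_sgz hp t
  rw [sy_mul hp.pr, sy_mul hp.pr, sy_prod' hp.pr] at h
  have e0 : ∑ j ∈ U, sl (π i) (π j) = lg (∏ j ∈ U, sy (π i) (π j)) := h1.2.symm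
  rw [e0, ← h2]
  cases e
  · have e1 : fb false = 1 := rfl
    rw [e1, sy_one' hp.pr, one_mul] at h
    simp only [Bool.false_eq_true, if_false, zero_add]
    rw [← lg_mul h3 h1.1, h, lg_one]
  · have e1 : fb true = fR := rfl
    rw [e1] at h
    have hfs := sy_sgn (fR_notin' hp)
    simp only [if_true]
    have e2 : sl (π i) fR = lg (sy (π i) fR) := rfl
    rw [e2, ← lg_mul hfs h1.1, ← lg_mul h3 (sgn_mul hfs h1.1), h, lg_one]

section
variable {F : Type*} [Field F] [CharZero F] {b : F} (hb : b ^ 2 = b - 2)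

include hb in
/-- the finite part -/
theorem finQ_of {V : Set (Valuation F ℤᵐ⁰)} {S : Finset ℕ} {ι : Type} [DecidableEq ι]
    {I : Finset ι} {π : ι → RR} (hf : FO I π)
    (hprod : ∏ i ∈ I, π i = ((∏ q ∈ S, q : ℕ) : RR))
    (hA : ∀ i ∈ I, ∃ w ∈ V, w (ev b hb (π i)) = exp (-1) ∧ w 7 = 1 ∧
      ∀ x : RR, x ∉ sp (π i) → Sq w (ev b hb x) → sy (π i) x = 1)
    (he : ∑ i ∈ I, te (π i) = 0)
    (hNS : ∀ T ⊆ I, (∀ i ∈ I \ T, te (π i) * ∑ j ∈ T, te (π j) + ∑ j ∈ T, sl (π i) (π j) = 0) →
      (∀ i ∈ T, te (π i) * ∑ j ∈ T, te (π j) + (sl (π i) fR + ∑ j ∈ I \ T, sl (π i) (π j)) = 0) →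
        T = ∅) : FinQ b hb V S I π := by
  classical
  intro g T e hT hg hloc
  have hDD := fam_DQ (a := b) (ha := hb) hprod
  have hs : ev b hb fR = 2 * b - 1 := by
    unfold fR
    rw [map_sub, map_mul, map_ofNat, ev_aR, map_one]
  have hfb : ∀ e : Bool, (if e then (2 * b - 1) else 1) = ev b hb (fb e) := by
    intro e
    cases e
    · exact (map_one _).symm
    · exact hs.symm
  have hs0 := s_ne hb
  set t : ZMod 2 := ∑ i ∈ T, te (π i) with ht
  have htc : ∑ i ∈ I \ T, te (π i) = t := by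
    have h8 := Finset.sum_sdiff (f := fun i => te (π i)) hT
    rw [he] at h8
    have h2' : ∀ x : ZMod 2, x + x = 0 := CharTwo.add_self_eq_zero
    rw [ht]
    linear_combination h8 - h2' (∑ k ∈ T, te (π k))
  have hev : ∀ (t : ZMod 2) (e : Bool) (U : Finset ι), (sgz t : F) *
      ((if e then (2 * b - 1) else 1) * ∏ i ∈ U, ev b hb (π i)) =
      ev b hb (((sgz t : ℤ) : RR) * (fb e * ∏ i ∈ U, π i)) := by
    intro t e U
    rw [map_mul, map_mul, map_prod, hfb, map_intCast]
  have hsg : (sgz t : F) * (sgz t : F) = 1 := by exact_mod_cast congrArg (fun m : ℤ => (m : F)) (sgz_sq t)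
  have hsg0 : (sgz t : F) ≠ 0 := left_ne_zero_of_mul_eq_one hsg
  have key : ∀ i ∈ I,
      (i ∉ T → te (π i) * t + ((if e then sl (π i) fR else 0) + ∑ j ∈ T, sl (π i) (π j)) = 0) ∧
      (i ∈ T → te (π i) * t + ((if !e then sl (π i) fR else 0) +
        ∑ j ∈ I \ T, sl (π i) (π j)) = 0) := by
    intro i hi
    obtain ⟨w, hw, hwi, hw7, hsq⟩ := hA i hi
    have hlt : w (ev b hb (π i)) < 1 := by
      rw [hwi, ← exp_zero, exp_lt_exp]
      norm_num
    have hpi := (hf.po i hi).pr
    -- units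
    have hunit : ∀ (t : ZMod 2) (e : Bool) (U : Finset ι), U ⊆ I → i ∉ U →
        w (ev b hb (((sgz t : ℤ) : RR) * (fb e * ∏ j ∈ U, π j))) = 1 := by
      intro t e U hU hiU
      refine le_antisymm (w_ev hb w _) (not_lt.1 fun h1 => ?_)
      exact prod_notin' hf hU hi hiU t e (Ideal.mem_span_singleton.2 ((undr_eq hb hpi hlt _).1 h1))
    have hU1 : ∀ (U : Finset ι), U ⊆ I → i ∉ U → w (∏ j ∈ U, ev b hb (π j)) = 1 := by
      intro U hU hiU
      have h1 := hunit 0 false U hU hiU
      rw [← hev, sgz_zero] at h1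
      simpa using h1
    have hsu : w (2 * b - 1) = 1 := by
      have h3 : w (2 * b - 1) ^ 2 = 1 := by
        rw [← map_pow, s_sq hb, Valuation.map_neg, hw7]
      exact (pow_eq_one_iff_of_nonneg zero_le two_ne_zero).1 h3
    have hse : ∀ e : Bool, w (if e then (2 * b - 1) else 1) = 1 := by
      intro e
      cases e
      · simp
      · simpa using hsu
    have hwt : w (sgz t : F) = 1 := by
      rcases sgz_unit t with h | h <;> rw [h]
      · simp
      · push_cast
        rw [Valuation.map_neg, map_one]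
    have hDe : w (DD F S) = exp (-1) := by
      rw [← hDD, ← Finset.mul_prod_erase I _ hi, map_mul, hwi,
        hU1 _ (Finset.erase_subset _ _) (Finset.notMem_erase _ _), mul_one]
    have hD1 : w (DD F S) < 1 := by
      rw [hDe, ← exp_zero, exp_lt_exp]
      norm_num
    have hodd : ∀ x : F, w x = exp (-1) → ¬ Ev w x := by
      rintro x hx ⟨z, hz, h⟩
      refine ev_odd_val hz h (k := -1) ?_
      rw [hx]
      congr 1
    have hl := hloc w hw hw7 hD1
    constructor
    · intro hiT
      rcases hl with h1 | h1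
      · have h2 := h1.sqE hg.symm
        rw [hev] at h2
        exact lg_syQ hf hT hi hiT t e (hsq _ (prod_notin' hf hT hi hiT t e) h2)
      · exfalso
        have h2 := (h1.sqE ((SqE.refl (DD F S * (2 * b - 1))).mul hg).symm).ev
        refine hodd _ ?_ h2
        rw [map_mul, map_mul, map_mul, map_mul, hDe, hsu, hse, hU1 T hT hiT, hwt]
        simp
    · intro hiT
      have hiT' : i ∉ I \ T := fun h => (Finset.mem_sdiff.1 h).2 hiT
      rcases hl with h1 | h1
      · exfalso
        have h2 := (h1.sqE hg.symm).ev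
        refine hodd _ ?_ h2
        rw [map_mul, map_mul, hse, hwt, one_mul, one_mul, ← Finset.mul_prod_erase T _ hiT, map_mul,
          hwi, hU1 _ ((Finset.erase_subset _ _).trans hT) (Finset.notMem_erase _ _), mul_one]
      · have h2 := h1.sqE ((SqE.refl (DD F S * (2 * b - 1))).mul hg).symm
        have hne : ∀ j ∈ I, ev b hb (π j) ≠ 0 := by
          have hD0 : DD F S ≠ 0 := by
            intro h0
            rw [h0, map_zero] at hDe
            exact exp_ne_zero hDe.symm
          rw [← hDD, Finset.prod_ne_zero_iff] at hD0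
          exact hD0
        have hPT : ∏ j ∈ T, ev b hb (π j) ≠ 0 := by
          rw [Finset.prod_ne_zero_iff]
          exact fun j hj => hne j (hT hj)
        have h3 : Sq w ((sgz t : F) * ((if !e then (2 * b - 1) else 1) *
            ∏ j ∈ I \ T, ev b hb (π j))) := by
          refine h2.sqE ?_
          have e1 : DD F S = (∏ j ∈ I \ T, ev b hb (π j)) * ∏ j ∈ T, ev b hb (π j) := by
            rw [← hDD, Finset.prod_sdiff hT]
          rw [e1]
          cases e
          · refine ⟨(∏ j ∈ T, ev b hb (π j))⁻¹, inv_ne_zero hPT, ?_⟩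
            simp only [Bool.not_false, if_true, Bool.false_eq_true, if_false, one_mul]
            field_simp
          · refine ⟨((2 * b - 1) * ∏ j ∈ T, ev b hb (π j))⁻¹,
              inv_ne_zero (mul_ne_zero hs0 hPT), ?_⟩
            simp only [Bool.not_true, Bool.false_eq_true, if_false, if_true, one_mul]
            field_simp
        rw [hev] at h3
        exact lg_syQ hf Finset.sdiff_subset hi hiT' t (!e)
          (hsq _ (prod_notin' hf Finset.sdiff_subset hi hiT' t (!e)) h3)
  cases e with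
  | false =>
    left
    have hT0 : T = ∅ := by
      refine hNS T hT (fun i hi => ?_) (fun i hi => ?_)
      · rw [Finset.mem_sdiff] at hi
        simpa using (key i hi.1).1 hi.2
      · simpa using (key i (hT hi)).2 hi
    have ht0 : t = 0 := by rw [ht, hT0, Finset.sum_empty]
    rw [ht0, hT0, sgz_zero] at hg
    simpa using hg
  | true =>
    right
    have hT0 : I \ T = ∅ := by
      refine hNS (I \ T) Finset.sdiff_subset (fun i hi => ?_) (fun i hi => ?_)
      · rw [Finset.sdiff_sdiff_eq_self hT] at hi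
        rw [htc]
        simpa using (key i (hT hi)).2 hi
      · rw [Finset.sdiff_sdiff_eq_self hT, htc]
        rw [Finset.mem_sdiff] at hi
        simpa using (key i hi.1).1 hi.2
    have hTI : T = I := Finset.Subset.antisymm hT (Finset.sdiff_eq_empty_iff_subset.1 hT0)
    have ht0 : t = 0 := by rw [← htc, hT0, Finset.sum_empty]
    rw [ht0, hTI, hDD, sgz_zero] at hg
    simp only [if_true, Int.cast_one, one_mul] at hg
    rw [mul_comm] at hg
    exact hg

end

end Pool.Agent.T2h78.TW
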