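import Mathlib

/-!
# Quadratic twists of `X_0(49)` by all `D = 1 mod 4`: self-contained statements
-/

set_option autoImplicit false

namespace Pool.Agent.T2h78.TW

/-! ### combinatorics -/

/-- the determinant -/
def gd {ι : Type} [DecidableEq ι] (c : ι → ZMod 2) (r : ι → ι → ZMod 2) (S : Finset ι) : ZMod 2 :=
  Matrix.det (Matrix.of fun i j : S =>
    if i = j then c i + ∑ k ∈ S.erase i, r i k else r i j : Matrix S S (ZMod 2))

/-- known recursion for the determinants -/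
def S_REC : Prop := ∀ (ι : Type) [DecidableEq ι] (c : ι → ZMod 2) (r : ι → ι → ZMod 2)
  (S : Finset ι), S.Nonempty →
    ∑ A ∈ S.powerset, gd c r A * ∏ i ∈ S \ A, (c i + ∑ j ∈ A, r i j) = 0

/-- the auxiliary numbers, by recursion on the number of elements of `S` -/
def hh {ι : Type} [DecidableEq ι] (e : ι → ZMod 2) (r : ι → ι → ZMod 2) :
    ℕ → Finset ι → ι → ZMod 2
  | 0, _, _ => 0
  | (n + 1), S, i => ∑ k ∈ S.erase i, r i k * hh e r n (S.erase i) k + e i * ∏ j ∈ S.erase i, e j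

/-- TASK C: the combinatorial identity -/
def T_C : Prop := ∀ (ι : Type) [DecidableEq ι] (c e : ι → ZMod 2) (r : ι → ι → ZMod 2)
  (S : Finset ι), S_REC → S.Nonempty →
    (∀ i ∈ S, ∀ k ∈ S, i ≠ k → r i k + r k i = e i * e k) →
    (∀ A ⊆ S, A.Nonempty → ∑ i ∈ A, e i * hh e r A.card A i = ∏ i ∈ A, e i) →
    ∑ i ∈ S, c i * hh e r S.card S i =
      ∑ A ∈ S.powerset with ∑ i ∈ A, e i = 1, gd c r A * ∏ i ∈ S \ A, (c i + ∑ j ∈ A, r i j)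

/-! ### Jacobi symbols: the norm form of `ℤ[(1 + √-7) / 2]` -/

/-- TASK R1 -/
def T_R1 : Prop := ∀ (X Y : ℤ) (N : ℕ), X % 4 = 1 → Y % 2 = 0 → Y ≠ 0 →
  (N : ℤ) = X ^ 2 + X * Y + 2 * Y ^ 2 → IsCoprime Y (N : ℤ) →
    jacobiSym Y N = if Y % 4 = 0 then 1 else -1

/-- TASK R2 -/
def T_R2 : Prop := ∀ (X Y : ℤ) (N : ℕ), X % 4 = 1 → Y % 2 = 0 →
  (N : ℤ) = X ^ 2 + X * Y + 2 * Y ^ 2 → IsCoprime (2 * X + Y) (N : ℤ) →
    jacobiSym (2 * X + Y) N = jacobiSym (2 * X + Y) 7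

/-- TASK R3 (from R1) -/
def T_R3 : Prop := ∀ (X Y U V : ℤ) (p l : ℕ), p.Prime → l.Prime → X % 4 = 1 → Y % 2 = 0 →
  U % 4 = 1 → V % 2 = 0 → (p : ℤ) = X ^ 2 + X * Y + 2 * Y ^ 2 →
  (l : ℤ) = U ^ 2 + U * V + 2 * V ^ 2 → IsCoprime (Y * U - X * V) ((p : ℤ) * l) →
    jacobiSym Y p * jacobiSym (Y * U - X * V) p * (jacobiSym V l * jacobiSym (X * V - Y * U) l) =
      if Y % 4 = 0 ∨ V % 4 = 0 then 1 else -1

/-! ### sums over classes -/

section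

variable {Γ : Type} [LinearOrderedCommGroupWithZero Γ]

/-- the reduction of `z` is `a` -/
def Rd (v : Valuation ℂ Γ) (z : ℂ) (a : ZMod 2) : Prop := v (z - (a.val : ℂ)) < 1

/-- the data: `R` is a ring (of integers), `c` its embedding in `ℂ`, `W n x` the value of a function
at the point `x / n`, `π i` prime elements, `s i` the logarithm of the quadratic residue symbol
modulo `π i`, `e i` the logarithm of the symbol of `-1` -/
structure Dat {R : Type} [CommRing R] [IsDomain R] {ι : Type} [DecidableEq ι] (v : Valuation ℂ Γ)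
    (c : R →+* ℂ) (W : R → R → ℂ) (S0 : Finset ι) (π : ι → R) (s : ι → R → ZMod 2)
    (e : ι → ZMod 2) (ν : ι → ℂ) : Prop where
  t2 : v 2 < 1
  vc : ∀ x, v (c x) ≤ 1
  pr : ∀ i ∈ S0, Prime (π i)
  cop : ∀ i ∈ S0, ∀ j ∈ S0, i ≠ j → IsCoprime (π i) (π j)
  fin : ∀ i ∈ S0, Finite (R ⧸ Ideal.span {π i})
  card : ∀ i ∈ S0, ∃ k : ℕ, Nat.card (R ⧸ Ideal.span {π i}) = 1 + 2 * k ∧ (k : ZMod 2) = e i
  per : ∀ n x y, n ∣ x - y → W n x = W n y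
  mul : ∀ q n x, q ≠ 0 → n ≠ 0 → W (q * n) (q * x) = W n x
  dist : ∀ i ∈ S0, ∀ n, n ≠ 0 → ∀ y,
    ∑ᶠ t : R ⧸ Ideal.span {π i}, W (π i * n) (y + n * t.out) = c (π i) * W n y + ν i
  neg : ∀ n x, W n (-x) = 1 - W n x
  one : W 1 0 = 1 / 2
  int : ∀ S ⊆ S0, ∀ x, ¬ (∏ i ∈ S, π i) ∣ x → v (W (∏ i ∈ S, π i) x) ≤ 1
  π1 : ∀ i ∈ S0, v ((c (π i) - 1) / 2) < 1
  ν1 : ∀ i ∈ S0, Rd v (ν i) (e i)
  smul : ∀ i ∈ S0, ∀ x y, ¬ π i ∣ x → ¬ π i ∣ y → s i (x * y) = s i x + s i y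
  sper : ∀ i ∈ S0, ∀ x y, π i ∣ x - y → s i x = s i y
  sneg : ∀ i ∈ S0, s i (-1) = e i
  sex : ∀ i ∈ S0, ∃ x, ¬ π i ∣ x ∧ s i x = 1

open Classical in
/-- the sum over the classes `x` modulo `∏ π i` with `s i x = t i` for all `i ∈ S` -/
noncomputable def Cs {R : Type} [CommRing R] [IsDomain R] {ι : Type} (W : R → R → ℂ) (π : ι → R)
    (s : ι → R → ZMod 2) (S : Finset ι) (t : ι → ZMod 2) : ℂ :=
  ∑ᶠ x : R ⧸ Ideal.span {∏ i ∈ S, π i},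
    if ∀ i ∈ S, ¬ π i ∣ x.out ∧ s i x.out = t i then W (∏ i ∈ S, π i) x.out else 0

/-- TASK E: the differences of the sums over the classes modulo the primes above two -/
def T_E : Prop := ∀ (Γ : Type) [LinearOrderedCommGroupWithZero Γ] (R : Type) [CommRing R]
  [IsDomain R] (ι : Type) [DecidableEq ι] (v : Valuation ℂ Γ)
  (c : R →+* ℂ) (W : R → R → ℂ) (S0 : Finset ι) (π : ι → R) (s : ι → R → ZMod 2)
  (e : ι → ZMod 2) (ν : ι → ℂ), Dat v c W S0 π s e ν → ∀ S ⊆ S0, S.Nonempty →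
    (∀ t, v (Cs W π s S t) ≤ 1) ∧
    (∀ t t' : ι → ZMod 2, Rd v (Cs W π s S t - Cs W π s S t')
      (∑ i ∈ S, (t i + t' i) * hh e (fun i k => s k (π i)) S.card S i)) ∧
    ∑ i ∈ S, e i * hh e (fun i k => s k (π i)) S.card S i = ∏ i ∈ S, e i

end

end Pool.Agent.T2h78.TW
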