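import Pool.Agent.T2h78.TW.M2
import Pool.Agent.T2h78.TW.S
import Pool.Agent.Y698.Ct
import Pool.Agent.Y279.SG.PI

/-!
# Prime elements and quadratic residue symbols
-/

set_option autoImplicit false
set_option linter.unusedSectionVars false

namespace Pool.Agent.T2h78.TW

open Pool.Agent.Y698 Pool.Agent.Y698.SG Pool.Agent.Y279.SG
open H667R3 Pool.Agent.W192.HK Pool.Agent.TH936.CM Pool.Agent.TH936.PU

/-- the prime elements used -/
structure PO (ϖ : RR) : Prop where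
  pr : Prime ϖ
  x4 : cX ϖ % 4 = 1
  y2 : cY ϖ % 2 = 0
  cop : IsCoprime fR ϖ

lemma odd_of {ϖ : RR} (h : cX ϖ % 4 = 1) (h' : cY ϖ % 2 = 0) : IsCoprime 2 ϖ := by
  obtain ⟨k, hk⟩ : ∃ k, cX ϖ = 1 + 2 * k := ⟨(cX ϖ - 1) / 2, by omega⟩
  obtain ⟨m, hm⟩ : ∃ m, cY ϖ = 2 * m := ⟨cY ϖ / 2, by omega⟩
  refine ⟨-((k : RR) + (m : RR) * aR), 1, ?_⟩
  have e := dec ϖ
  rw [hk, hm] at e
  push_cast at e
  linear_combination e

lemma PO.odd {ϖ : RR} (h : PO ϖ) : IsCoprime 2 ϖ := odd_of h.x4 h.y2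

lemma PO.gm {ϖ : RR} (h : PO ϖ) : Gm ϖ := ⟨h.pr.ne_zero, h.cop, h.odd⟩

section
variable {ϖ : RR}

lemma fld (h : Prime ϖ) : ∃ (F : Type) (_ : Field F) (_ : Fintype F) (φ : RR →+* F),
    Function.Surjective φ ∧ (∀ x, φ x = 0 ↔ x ∈ sp ϖ) ∧ (Fintype.card F : ℤ) = nR ϖ := by
  classical
  have h1 := maximal_sp h.irreducible
  have h2 := fin_quot h.ne_zero
  let i1 : Field (RR ⧸ sp ϖ) := Ideal.Quotient.field (sp ϖ)
  let i2 : Fintype (RR ⧸ sp ϖ) := Fintype.ofFinite (RR ⧸ sp ϖ)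
  refine ⟨RR ⧸ sp ϖ, i1, i2, Ideal.Quotient.mk (sp ϖ), Ideal.Quotient.mk_surjective,
    fun x => Ideal.Quotient.eq_zero_iff_mem, ?_⟩
  rw [← Nat.card_eq_fintype_card, card_sp]

theorem sy_mul (h : Prime ϖ) (x y : RR) : sy ϖ (x * y) = sy ϖ x * sy ϖ y := by
  classical
  obtain ⟨F, _, _, φ, hs, hk, _⟩ := fld h
  rw [sy_eq φ hs hk, sy_eq φ hs hk, sy_eq φ hs hk, map_mul, map_mul]
  push_cast
  rfl

lemma sy_one' (h : Prime ϖ) : sy ϖ 1 = 1 := by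
  classical
  obtain ⟨F, _, _, φ, hs, hk, _⟩ := fld h
  rw [sy_eq φ hs hk, map_one, map_one]
  push_cast
  rfl

lemma PO.nR4 (h : PO ϖ) : nR ϖ % 4 = (1 + cY ϖ) % 4 := by
  obtain ⟨k, hk⟩ : ∃ k, cX ϖ = 1 + 4 * k := ⟨(cX ϖ - 1) / 4, by have := h.x4; omega⟩
  obtain ⟨m, hm⟩ : ∃ m, cY ϖ = 2 * m := ⟨cY ϖ / 2, by have := h.y2; omega⟩
  unfold nR
  rw [hk, hm]
  have e : (1 + 4 * k) ^ 2 + (1 + 4 * k) * (2 * m) + 2 * (2 * m) ^ 2 =
      (1 + 2 * m) + 4 * (2 * k + 4 * k ^ 2 + 2 * k * m + 2 * m ^ 2) := by ring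
  rw [e]
  omega

lemma PO.nR_odd (h : PO ϖ) : nR ϖ % 2 = 1 := by
  have h1 := h.nR4
  have h2 := h.y2
  omega

theorem PO.sy_neg_one (h : PO ϖ) : sy ϖ (-1) = if cY ϖ % 4 = 0 then 1 else -1 := by
  classical
  obtain ⟨F, _, _, φ, hs, hk, hc⟩ := fld h.pr
  rw [sy_eq φ hs hk, map_neg, map_one]
  have h4 := h.nR4
  have h2 := h.y2
  rw [← hc] at h4
  have hne : (-1 : F) ≠ 0 := neg_ne_zero.2 one_ne_zero
  split_ifs with h0
  · have h1 : IsSquare (-1 : F) := by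
      rw [FiniteField.isSquare_neg_one_iff]
      omega
    rw [(quadraticChar_one_iff_isSquare hne).2 h1]
    norm_num
  · have h1 : ¬ IsSquare (-1 : F) := by
      rw [FiniteField.isSquare_neg_one_iff]
      omega
    rw [(quadraticChar_neg_one_iff_not_isSquare).2 h1]
    norm_num

/-- a nonsquare -/
lemma PO.sex (h : PO ϖ) : ∃ x, x ∉ sp ϖ ∧ sy ϖ x = -1 := by
  classical
  obtain ⟨F, _, _, φ, hs, hk, hc⟩ := fld h.pr
  have h2 := h.nR_odd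
  rw [← hc] at h2
  have hch : ringChar F ≠ 2 := by
    intro h3
    have := FiniteField.even_card_iff_char_two.1 h3
    omega
  obtain ⟨a, ha⟩ := quadraticChar_exists_neg_one hch
  obtain ⟨x, rfl⟩ := hs a
  have h5 : sy ϖ x = -1 := by
    rw [sy_eq φ hs hk, ha]
    norm_num
  refine ⟨x, fun h6 => ?_, h5⟩
  rcases sy_val ϖ x with h7 | h7
  · rw [h7.2] at h5
    norm_num at h5
  · exact h7.1 h6

end

/-- the logarithm of the symbol -/
noncomputable def sl (ϖ x : RR) : ZMod 2 := lg (sy ϖ x)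

/-- the logarithm of the symbol of `-1` -/
noncomputable def te (ϖ : RR) : ZMod 2 := if cY ϖ % 4 = 0 then 0 else 1

section
variable {ϖ : RR}

lemma sl_mul (h : Prime ϖ) {x y : RR} (hx : x ∉ sp ϖ) (hy : y ∉ sp ϖ) :
    sl ϖ (x * y) = sl ϖ x + sl ϖ y := by
  unfold sl
  rw [sy_mul h, lg_mul (sy_sgn hx) (sy_sgn hy)]

lemma sl_one (h : Prime ϖ) : sl ϖ 1 = 0 := by
  unfold sl
  rw [sy_one' h, lg_one]

lemma sl_per {x y : RR} (h : x - y ∈ sp ϖ) : sl ϖ x = sl ϖ y := by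
  unfold sl
  rw [sy_per ϖ x y h]

lemma PO.sl_neg (h : PO ϖ) : sl ϖ (-1) = te ϖ := by
  unfold sl te
  rw [h.sy_neg_one]
  split_ifs
  · exact lg_one
  · exact lg_neg_one

lemma lg_inj {z w : ℂ} (hz : z = 1 ∨ z = -1) (hw : w = 1 ∨ w = -1) (h : lg z = lg w) : z = w := by
  rcases hz with rfl | rfl <;> rcases hw with rfl | rfl
  · rfl
  · rw [lg_one, lg_neg_one] at h
    exact absurd h (by decide)
  · rw [lg_one, lg_neg_one] at h
    exact absurd h (by decide)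
  · rfl

end

end Pool.Agent.T2h78.TW
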