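import Pool.Agent.R428.Q0.Cy
import Pool.Agent.T2h78.TW.Pr

/-!
# The global classes for the twists by all `D = 1 mod 4`

After `Pool/Agent/R428/Q0/Cy.lean`, with signs.
-/

set_option autoImplicit false
set_option linter.unusedSectionVars false

open WithZero

namespace Pool.Agent.T2h78.TW

open Pool.Agent.Y698 Pool.Agent.Y698.SG Pool.Agent.R428.Q0 Pool.Agent.Y279.SG

variable {F : Type*} [Field F] [CharZero F] {a : F} (ha : a ^ 2 = a - 2)

/-- the sign of a class -/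
noncomputable def sgz (t : ZMod 2) : ℤ := if t = 0 then 1 else -1

lemma sgz_zero : sgz 0 = 1 := if_pos rfl

lemma sgz_add (s t : ZMod 2) : sgz (s + t) = sgz s * sgz t := by
  rcases zm2 s with rfl | rfl <;> rcases zm2 t with rfl | rfl <;> unfold sgz <;> simp <;> decide

lemma sgz_sq (s : ZMod 2) : sgz s * sgz s = 1 := by
  unfold sgz
  split_ifs <;> norm_num

/-- the finite part of the descent -/
def FinQ {ι : Type} (a : F) (ha : a ^ 2 = a - 2) (V : Set (Valuation F ℤᵐ⁰)) (S : Finset ℕ)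
    (I : Finset ι) (π : ι → RR) : Prop :=
  ∀ (g : F) (T : Finset ι) (e : Bool), T ⊆ I →
    SqE g ((sgz (∑ i ∈ T, te (π i)) : F) * ((if e then (2 * a - 1) else 1) *
      ∏ i ∈ T, ev a ha (π i))) →
    (∀ w ∈ V, w 7 = 1 → w (DD F S) < 1 → Sq w g ∨ Sq w (DD F S * (2 * a - 1) * g)) →
    SDD a (DD F S) g

/-- the data for the twists over a field of degree one -/
structure C1 (a : F) (ha : a ^ 2 = a - 2) (V : Set (Valuation F ℤᵐ⁰)) (S : Finset ℕ) : Prop where
  big : Big a ha 1 V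
  rat : ∀ x : F, ∃ u v : ℚ, x = u + v * a
  w7 : ∃ (w : Valuation F ℤᵐ⁰) (k : ℤ), w (2 * a - 1) = exp (2 * k + 1)
  inS : ∀ q ∈ S, q.Prime ∧ q ≠ 7 ∧ q ≠ 2
  m4 : (∏ q ∈ S, q) % 4 = 1
  fam : ∃ (ι : Type) (_ : DecidableEq ι) (I : Finset ι) (π : ι → RR), (∀ i ∈ I, PO (π i)) ∧
    ∏ i ∈ I, π i = ((∏ q ∈ S, q : ℕ) : RR) ∧
    ∀ (b : F) (hb : b ^ 2 = b - 2), FinQ b hb V S I π

variable {V : Set (Valuation F ℤᵐ⁰)} {S : Finset ℕ}

variable {ha}

lemma C1.w_DD (hC : C1 a ha V S) {w : Valuation F ℤᵐ⁰} {p : ℕ} (hp : p.Prime)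
    (hpS : p ∉ S) (hw : w (p : F) < 1) : w (DD F S) = 1 := by
  unfold DD
  refine w_prod_one fun q hq => w_nat_one ?_ hw
  exact (Nat.coprime_primes (hC.inS q hq).1 hp).2 (fun h => hpS (h ▸ hq))

lemma C1.two_notin (hC : C1 a ha V S) : 2 ∉ S := fun h => (hC.inS 2 h).2.2 rfl

lemma C1.seven_notin (hC : C1 a ha V S) : 7 ∉ S := fun h => (hC.inS 7 h).2.1 rfl

/-- the valuation of `D` -/
lemma C1.w_DD_exp (hC : C1 a ha V S) {w : Valuation F ℤᵐ⁰} (hw : w ∈ V)
    (h : w (DD F S) < 1) : w (DD F S) = exp (-1) := by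
  obtain ⟨q, hq, hlt⟩ : ∃ q ∈ S, w (q : F) < 1 := by
    by_contra hcon
    push Not at hcon
    have : w (DD F S) = 1 := w_prod_one fun q hq => le_antisymm (w_nat q) (hcon q hq)
    rw [this] at h
    exact lt_irrefl _ h
  obtain ⟨h1, h3, h5⟩ := hC.inS q hq
  have h6 := hC.big.un w hw q h1 h3 h1.ne_one hlt
  unfold DD
  rw [← Finset.mul_prod_erase S _ hq, map_mul, h6]
  have h7 : w (∏ p ∈ S.erase q, (p : F)) = 1 := by
    refine w_prod_one fun p hp => w_nat_one ?_ hlt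
    exact (Nat.coprime_primes (hC.inS p (Finset.mem_of_mem_erase hp)).1 h1).2
      (Finset.ne_of_mem_erase hp)
  rw [h7, mul_one]

lemma C1.w_DD_sub (hC : C1 a ha V S) (w : Valuation F ℤᵐ⁰) : w (DD F S - 1) ≤ w 4 := by
  rw [DD_cast]
  exact w_one_sub hC.m4

/-- the family in the field -/
lemma fam_DQ {ι : Type} {I : Finset ι} {π : ι → RR}
    (h : ∏ i ∈ I, π i = ((∏ q ∈ S, q : ℕ) : RR)) : ∏ i ∈ I, ev a ha (π i) = DD F S := by
  rw [← map_prod, h, map_natCast, DD_cast]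

/-- the class at the place above `ā` -/
lemma ur_PO {w : Valuation F ℤᵐ⁰} (h1a : w (1 - a) = w 2) {ϖ : RR} (h : PO ϖ) :
    Ur w ((sgz (te ϖ) : F) * ev a ha ϖ) := by
  obtain ⟨k, hk⟩ : ∃ k, cX ϖ = 1 + 4 * k := ⟨(cX ϖ - 1) / 4, by have := h.x4; omega⟩
  obtain ⟨m, hm⟩ : ∃ m, cY ϖ = 2 * m := ⟨cY ϖ / 2, by have := h.y2; omega⟩
  have hle : w (1 - a) ≤ 1 := wa_le (ha_conj ha)
  refine ⟨1, one_ne_zero, ?_⟩
  rw [one_pow, map_one, one_pow, mul_one]
  have h4 : ∀ x : ℤ, w (4 * (x : F)) ≤ w 4 := fun x => by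
    rw [map_mul]
    exact mul_le_of_le_one_right' (w_int x)
  have h22 : ∀ x : ℤ, w (2 * (1 - a) * (x : F)) ≤ w 4 := fun x => by
    rw [map_mul, map_mul, h1a, w_four, sq]
    exact mul_le_of_le_one_right' (w_int x)
  rw [ev_apply, hk, hm]
  unfold te sgz
  by_cases h0 : cY ϖ % 4 = 0
  · obtain ⟨j, hj⟩ : ∃ j, m = 2 * j := ⟨m / 2, by omega⟩
    rw [if_pos h0, if_pos rfl, hj]
    have e : (((1 : ℤ) : F) * (((1 + 4 * k : ℤ) : F) + ((2 * (2 * j) : ℤ) : F) * a) - 1) =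
        4 * ((k + j : ℤ) : F) - 2 * (1 - a) * ((2 * j : ℤ) : F) := by
      push_cast
      ring
    rw [e]
    exact Valuation.map_sub_le w (h4 _) (h22 _)
  · obtain ⟨j, hj⟩ : ∃ j, m = 1 + 2 * j := ⟨m / 2, by omega⟩
    rw [if_neg h0, if_neg (by decide), hj]
    have e : (((-1 : ℤ) : F) * (((1 + 4 * k : ℤ) : F) + ((2 * (1 + 2 * j) : ℤ) : F) * a) - 1) =
        2 * (1 - a) * ((1 + 2 * j : ℤ) : F) - 4 * ((1 + k + j : ℤ) : F) := by
      push_cast
      ring
    rw [e]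
    exact Valuation.map_sub_le w (h22 _) (h4 _)

lemma ur_prodQ {w : Valuation F ℤᵐ⁰} (h2 : w 2 < 1) (h1a : w (1 - a) = w 2) {ι : Type}
    [DecidableEq ι] (T : Finset ι) (π : ι → RR) (hT : ∀ i ∈ T, PO (π i)) :
    Ur w ((sgz (∑ i ∈ T, te (π i)) : F) * ∏ i ∈ T, ev a ha (π i)) := by
  induction T using Finset.induction_on with
  | empty =>
    refine ⟨1, one_ne_zero, ?_⟩
    rw [Finset.sum_empty, Finset.prod_empty, sgz_zero]
    simp
  | insert q T hq ih =>
    rw [Finset.prod_insert hq, Finset.sum_insert hq, sgz_add]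
    have h3 := (ur_PO (ha := ha) h1a (hT q (Finset.mem_insert_self q T))).mul h2
      (ih (fun q' hq' => hT q' (Finset.mem_insert_of_mem hq')))
    convert h3 using 1
    push_cast
    ring

/-- the classes of the elements of `R` -/
lemma C1.low (hC : C1 a ha V S) {g : RR} (hg0 : g ≠ 0)
    (hEv : ∀ w ∈ V, w (7 : F) = 1 → w (DD F S) = 1 → Ev w (ev a ha g))
    (hUr : ∀ w ∈ V, w (7 : F) = 1 → w (DD F S) = 1 → w (1 - a) < 1 → Ur w (ev a ha g))
    (hSq : ∀ w ∈ V, w 7 = 1 → w (DD F S) < 1 → Sq w (ev a ha g) ∨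
      Sq w (DD F S * (2 * a - 1) * (ev a ha g))) : SDD a (DD F S) (ev a ha g) := by
  have hs0 := s_ne ha
  obtain ⟨ι, _, I, π, hI1, hI3, hI4⟩ := hC.fam
  have hprod := fam_DQ (a := a) (ha := ha) hI3
  have hDD0 : DD F S ≠ 0 := DD_ne fun q hq => (hC.inS q hq).1
  have hne : ∀ i ∈ I, ev a ha (π i) ≠ 0 := by
    rw [← hprod, Finset.prod_ne_zero_iff] at hDD0
    exact hDD0
  obtain ⟨T, hT, hT'⟩ := classes_set' (V := V) (r := 1) ha I π
    (fun i hi => ⟨(hI1 i hi).pr, hne i hi⟩)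
    g hg0 (by
      intro w hw h7 hr hq
      refine hEv w hw h7 ?_
      rw [← hprod, map_prod]
      exact Finset.prod_eq_one hq)
  have hPR : (∏ i ∈ T, π i) ≠ 0 := by
    rw [Finset.prod_ne_zero_iff]
    intro q hq
    exact (hI1 q (hT hq)).pr.ne_zero
  have hPF : (∏ i ∈ T, ev a ha (π i)) ≠ 0 := by
    rw [Finset.prod_ne_zero_iff]
    exact fun i hi => hne i (hT hi)
  have hev : ev a ha (g * ∏ i ∈ T, π i) = ev a ha g * ∏ i ∈ T, ev a ha (π i) := by
    rw [map_mul, map_prod]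
  set ε : ℤ := sgz (∑ i ∈ T, te (π i)) with hε
  have hεε : (ε : F) * (ε : F) = 1 := by
    have h := sgz_sq (∑ i ∈ T, te (π i))
    rw [← hε] at h
    exact_mod_cast h
  have hε1 : ε = 1 ∨ ε = -1 := by
    rw [hε]
    unfold sgz
    split_ifs
    · exact Or.inl rfl
    · exact Or.inr rfl
  -- a place above `ā`
  obtain ⟨w', hw'V, hw'1⟩ := hC.big.ex (1 - aR) (by
    intro hu
    rcases isUnit_iff.1 hu with h | h
    · have h1 : aR = 0 := by linear_combination -h
      have h2 := cXY_aR.2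
      rw [h1, cXY_zero.2] at h2
      norm_num at h2
    · have h1 : aR = ((2 : ℤ) : RR) := by push_cast; linear_combination -h
      have h2 := cXY_aR.2
      rw [h1, (cXY_int 2).2] at h2
      norm_num at h2)
  rw [map_sub, map_one, ev_aR] at hw'1
  have hw'2 := two_lt ha hw'1
  have hw'2e : w' 2 = exp (-1) := by
    have := hC.big.un w' hw'V 2 Nat.prime_two (by norm_num) (by norm_num)
      (by exact_mod_cast hw'2)
    exact_mod_cast this
  have hw'7 : w' 7 = 1 := by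
    have e : (7 : F) = 1 + 2 * 3 := by norm_num
    rw [e, Valuation.map_add_eq_of_lt_left w', map_one]
    rw [map_one, map_mul]
    exact mul_lt_one_of_lt_of_le hw'2 (by exact_mod_cast w_nat (w := w') 3)
  have hw'D : w' (DD F S) = 1 :=
    hC.w_DD Nat.prime_two hC.two_notin (by exact_mod_cast hw'2)
  have hUg0 := hUr w' hw'V hw'7 hw'D hw'1
  have hw'a : w' a = 1 := by
    by_contra h1
    have h2 : w' a < 1 := lt_of_le_of_ne (wa_le ha) h1
    have h3 : w' (a + (1 - a)) < 1 := Valuation.map_add_lt w' h2 hw'1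
    rw [add_sub_cancel, map_one] at h3
    exact lt_irrefl _ h3
  have hb : w' (1 - a) = w' 2 := by
    have := congrArg w' (ab_eq ha)
    rwa [map_mul, hw'a, one_mul] at this
  have hUg : Ur w' ((ε : F) * ev a ha (g * ∏ i ∈ T, π i)) := by
    rw [hev]
    have h3 := hUg0.mul hw'2 (ur_prodQ (ha := ha) hw'2 hb T π fun i hi => hI1 i (hT hi))
    convert h3 using 1
    ring
  have hUs : Ur w' (2 * a - 1) := by
    refine ⟨1, one_ne_zero, ?_⟩
    have e : (2 * a - 1 - 1 ^ 2 : F) = -(2 * (1 - a)) := by ring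
    rw [e, Valuation.map_neg, map_mul, hb, map_one, one_pow, mul_one, w_four, sq]
  have hnot := not_ur_neg_one (w := w') hw'2e
  have hback : ∀ t : F, SqE (ev a ha (g * ∏ i ∈ T, π i)) t →
      SqE (ev a ha g) (t * ∏ i ∈ T, ev a ha (π i)) := by
    rintro t ⟨z, hz, h⟩
    rw [hev] at h
    refine ⟨z / ∏ i ∈ T, ev a ha (π i), div_ne_zero hz hPF, ?_⟩
    field_simp
    linear_combination h
  -- the classes `± 1`, `± √-7`
  have key : ∀ (e : Bool) (η : ℤ), (η = 1 ∨ η = -1) →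
      SqE (ev a ha (g * ∏ i ∈ T, π i)) ((η : F) * (if e then (2 * a - 1) else 1)) →
      SDD a (DD F S) (ev a ha g) := by
    intro e η hη h
    have hηη : (η : F) * (η : F) = 1 := by
      rcases hη with rfl | rfl <;> norm_num
    have hηε : η = ε := by
      by_contra hne'
      have h5 : (ε : F) * (η : F) = -1 := by
        rcases hη with rfl | rfl <;> rcases hε1 with h6 | h6 <;> rw [h6] at hne' ⊢ <;>
          first | exact absurd rfl hne' | norm_num
      have h6 : SqE ((ε : F) * ev a ha (g * ∏ i ∈ T, π i)) (-(if e then (2 * a - 1) else 1)) := by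
        have h7 := (SqE.refl (ε : F)).mul h
        rwa [← mul_assoc, h5, neg_one_mul] at h7
      have h8 : Ur w' (-(if e then (2 * a - 1) else 1) : F) := hUg.sqE hw'2 h6.symm
      cases e
      · simp only [Bool.false_eq_true, if_false] at h8
        exact hnot h8
      · simp only [if_true] at h8
        have h9 := hUs.mul hw'2 h8
        refine hnot (h9.sqE hw'2 ⟨(2 * a - 1)⁻¹, inv_ne_zero (s_ne ha), ?_⟩)
        field_simp
    refine hI4 a ha _ T e hT ?_ hSq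
    have h10 := hback _ h
    rw [← hε, ← hηε]
    rwa [mul_assoc] at h10
  rcases classes1 ha hC.big _ (mul_ne_zero hg0 hPR) hT' with h | h | h | h
  · exact key false 1 (Or.inl rfl) (by simpa using h)
  · exact key false (-1) (Or.inr rfl) (by simpa using h)
  · exact key true 1 (Or.inl rfl) (by simpa using h)
  · exact key true (-1) (Or.inr rfl) (by simpa using h)

theorem C1.main (hC : C1 a ha V S) {d : F} (hd : PDD (1 : F ≃+* F) a (DD F S) V d) :
    SDD a (DD F S) d := by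
  obtain ⟨u, v, huv⟩ := hC.rat d
  obtain ⟨g, hg⟩ := exists_RR ha u v
  rw [← huv] at hg
  have hdg : SqE d (ev a ha g) := hg
  have hd0 := hd.1
  have hg0 : g ≠ 0 := by
    rintro rfl
    obtain ⟨z', -, h'⟩ := hdg
    rw [map_zero, zero_mul] at h'
    exact hd0 h'
  have hfin := hC.low hg0 (fun w hw h7 hD => ((hd.2 0 w hw h7).1 hD).1.sqE hdg.symm)
    (fun w hw h7 hD h1 => (((hd.2 0 w hw h7).1 hD).2 h1).sqE (two_lt ha h1) hdg.symm)
    (fun w hw h7 hD => by
      rcases (hd.2 0 w hw h7).2 hD with h1 | h1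
      · exact Or.inl (h1.sqE hdg.symm)
      · exact Or.inr (h1.sqE ((SqE.refl _).mul hdg.symm)))
  rcases hfin with h1 | h1
  · exact Or.inl (hdg.trans h1)
  · exact Or.inr (hdg.trans h1)

/-- the conjugate data -/
lemma C1.conj (hC : C1 a ha V S) : C1 (1 - a) (ha_conj ha) V S := by
  have hev : ∀ g : RR, ev (1 - a) (ha_conj ha) g = ev a ha (cj g) := by
    intro g
    unfold cj
    rw [ev_apply, ev_apply (1 - aR), map_add, map_mul, map_intCast, map_intCast, map_sub, map_one,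
      ev_aR]
  refine ⟨⟨fun g hg => ?_, hC.big.un⟩, fun x => ?_, ?_, hC.inS, hC.m4, hC.fam⟩
  · obtain ⟨w, hw, h⟩ := hC.big.ex (cj g) (by
      intro h
      apply hg
      have h1 := h.map cj
      rwa [cj_cj] at h1)
    exact ⟨w, hw, by rw [hev]; exact h⟩
  · obtain ⟨u, v, h⟩ := hC.rat x
    exact ⟨u + v, -v, by rw [h]; push_cast; ring⟩
  · obtain ⟨w, k, hk⟩ := hC.w7
    refine ⟨w, k, ?_⟩
    rw [← hk, ← Valuation.map_neg]
    congr 1
    ring

/-- an odd valuation -/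
lemma C1.w7s (hC : C1 a ha V S) :
    ∃ (v : Valuation F ℤᵐ⁰) (k : ℤ), v (DD F S * (2 * a - 1)) = exp (2 * k + 1) := by
  obtain ⟨w, k, hk⟩ := hC.w7
  have hw7 : w ((7 : ℕ) : F) < 1 := by
    have h1 : w ((7 : ℕ) : F) = exp (2 * (2 * k + 1)) := by
      have h2 : ((7 : ℕ) : F) = -((2 * a - 1) ^ 2) := by
        rw [s_sq ha]
        norm_num
      rw [h2, Valuation.map_neg, map_pow, hk, ← exp_nsmul]
      congr 1
    have h3 := w_nat (w := w) 7
    rw [h1, ← exp_zero, exp_le_exp] at h3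
    rw [h1, ← exp_zero, exp_lt_exp]
    omega
  have hwD : w (DD F S) = 1 := hC.w_DD (by norm_num) hC.seven_notin hw7
  exact ⟨w, k, by rw [map_mul, hwD, one_mul, hk]⟩

end Pool.Agent.T2h78.TW
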