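import Pool.Agent.T2h78.TW.H1
import Pool.Agent.T2h78.TW.Fq
import Pool.Agent.T2h78.TW.Val
import Pool.Agent.Y21.SG.LinN

/-!
# The kernel of the matrix and the local conditions
-/

set_option autoImplicit false
set_option linter.unusedSectionVars false

namespace Pool.Agent.T2h78.TW

open Pool.Agent.Y698 Pool.Agent.Y698.SG Pool.Agent.Y279.SG
open H667R3 Pool.Agent.W192.HK Pool.Agent.TH936.CM Pool.Agent.TH936.PU

/-! ### the kernel -/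

/-- the equations of a class -/
structure KE (S : Finset ℕ) (ϖ : ℕ → RR) (T : Finset (ℕ × Bool)) : Prop where
  sub : T ⊆ ixs S
  out : ∀ i ∈ ixs S, i ∉ T →
    te (pg ϖ i) * ∑ j ∈ T, te (pg ϖ j) + ∑ j ∈ T, sl (pg ϖ i) (pg ϖ j) = 0
  inn : ∀ i ∈ T, te (pg ϖ i) * ∑ j ∈ T, te (pg ϖ j) +
    (sl (pg ϖ i) fR + ∑ j ∈ ixs S \ T, sl (pg ϖ i) (pg ϖ j)) = 0
  sev : ∑ i ∈ T, lg (e7 (pg ϖ i)) = ∑ i ∈ T, te (pg ϖ i)

theorem exists_ker {S : Finset ℕ} {ϖ : ℕ → RR} (hS : ∀ q ∈ S, Gq q) (hc : Chs S ϖ)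
    (hdet : gD S ϖ = 0) : ∃ T : Finset (ℕ × Bool), T.Nonempty ∧ KE S ϖ T := by
  classical
  have h2' : ∀ x : ZMod 2, x + x = 0 := CharTwo.add_self_eq_zero
  obtain ⟨T, hT, hne, h1, h2⟩ := Pool.Agent.Y21.SG.t_LIN (ℕ × Bool)
    (fun i => lg (e7 (pg ϖ i))) (fun i j => sl (pg ϖ j) (pg ϖ i)) (ixs S) hdet
  have he := sum_te hS hc
  have htc : ∑ i ∈ ixs S \ T, te (pg ϖ i) = ∑ i ∈ T, te (pg ϖ i) := by
    have h8 := Finset.sum_sdiff (f := fun i => te (pg ϖ i)) hT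
    rw [he] at h8
    linear_combination h8 - h2' (∑ k ∈ T, te (pg ϖ k))
  have hr : ∀ i ∈ ixs S, ∀ k ∈ ixs S, i ≠ k →
      sl (pg ϖ i) (pg ϖ k) = te (pg ϖ i) * te (pg ϖ k) + sl (pg ϖ k) (pg ϖ i) := by
    intro i hi k hk hik
    have := rcp hS hc hi hk hik
    linear_combination this - h2' (sl (pg ϖ k) (pg ϖ i))
  refine ⟨T, hne, hT, ?_, ?_, ?_⟩
  · intro i hi hiT
    have h3 := h1 i (Finset.mem_sdiff.2 ⟨hi, hiT⟩)
    rw [Finset.sum_congr rfl fun j hj => hr i hi j (hT hj) fun h => hiT (h ▸ hj),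
      Finset.sum_add_distrib, ← Finset.mul_sum, h3]
    linear_combination h2' (te (pg ϖ i) * ∑ j ∈ T, te (pg ϖ j))
  · intro i hiT
    have hi := hT hiT
    have h3 := h2 i hiT
    rw [Finset.sum_congr rfl fun j hj => hr i hi j (Finset.mem_sdiff.1 hj).1
      fun h => (Finset.mem_sdiff.1 hj).2 (h ▸ hiT), Finset.sum_add_distrib, ← Finset.mul_sum, htc,
      frg hS hc hi]
    linear_combination h3 + h2' (te (pg ϖ i) * ∑ j ∈ T, te (pg ϖ j))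
  · have e1 : ∑ i ∈ T, lg (e7 (pg ϖ i)) +
        ∑ i ∈ T, ∑ j ∈ ixs S \ T, sl (pg ϖ j) (pg ϖ i) = 0 := by
      rw [← Finset.sum_add_distrib]
      exact Finset.sum_eq_zero h2
    have e2 : ∑ i ∈ T, ∑ j ∈ ixs S \ T, sl (pg ϖ j) (pg ϖ i) =
        ∑ i ∈ T, ∑ j ∈ ixs S \ T, (te (pg ϖ j) * te (pg ϖ i) + sl (pg ϖ i) (pg ϖ j)) := by
      refine Finset.sum_congr rfl fun i hi => Finset.sum_congr rfl fun j hj => ?_
      rw [Finset.mem_sdiff] at hj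
      exact hr j hj.1 i (hT hi) fun h => hj.2 (h ▸ hi)
    have e3 : ∑ i ∈ T, ∑ j ∈ ixs S \ T, sl (pg ϖ i) (pg ϖ j) = 0 := by
      rw [Finset.sum_comm]
      exact Finset.sum_eq_zero h1
    have e4 : ∑ i ∈ T, ∑ j ∈ ixs S \ T, te (pg ϖ j) * te (pg ϖ i) =
        (∑ i ∈ T, te (pg ϖ i)) * ∑ i ∈ T, te (pg ϖ i) := by
      have : ∀ i ∈ T, ∑ j ∈ ixs S \ T, te (pg ϖ j) * te (pg ϖ i) =
          (∑ j ∈ T, te (pg ϖ j)) * te (pg ϖ i) := fun i _ => by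
        rw [← Finset.sum_mul, htc]
      rw [Finset.sum_congr rfl this, ← Finset.mul_sum]
    have e5 : ∀ x : ZMod 2, x * x = x := by decide
    rw [e2] at e1
    simp only [Finset.sum_add_distrib] at e1
    rw [e3, e4, e5, add_zero] at e1
    linear_combination e1 - h2' (∑ i ∈ T, te (pg ϖ i))

/-- the element of a class -/
noncomputable def dl (ϖ : ℕ → RR) (T : Finset (ℕ × Bool)) : RR :=
  ((sgz (∑ i ∈ T, te (pg ϖ i)) : ℤ) : RR) * ∏ i ∈ T, pg ϖ i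

lemma sy_of {ι : Type} {I U : Finset ι} {π : ι → RR} (hf : FO I π) (hU : U ⊆ I) {i : ι}
    (hi : i ∈ I) (hiU : i ∉ U) (t : ZMod 2) (e : Bool)
    (h : te (π i) * t + ((if e then sl (π i) fR else 0) + ∑ j ∈ U, sl (π i) (π j)) = 0) :
    sy (π i) (((sgz t : ℤ) : RR) * (fb e * ∏ j ∈ U, π j)) = 1 := by
  have hp := hf.po i hi
  have h1 := sgn_prod (s := U) (f := fun j => sy (π i) (π j)) fun j hj =>
    sy_sgn (hf.ne j (hU hj) i hi (fun h3 => hiU (h3 ▸ hj)))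
  obtain ⟨h2, h3⟩ := sl_sgz hp t
  refine lg_inj (sy_sgn (prod_notin' hf hU hi hiU t e)) (Or.inl rfl) ?_
  rw [lg_one, ← h, sy_mul hp.pr, sy_mul hp.pr, sy_prod' hp.pr, ← h2]
  have e0 : ∑ j ∈ U, sl (π i) (π j) = lg (∏ j ∈ U, sy (π i) (π j)) := h1.2.symm
  rw [e0]
  cases e
  · have e1 : fb false = 1 := rfl
    rw [e1, sy_one' hp.pr, one_mul, lg_mul h3 h1.1]
    simp
  · have e1 : fb true = fR := rfl
    have hfs := sy_sgn (fR_notin' hp)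
    rw [e1, lg_mul h3 (sgn_mul hfs h1.1), lg_mul hfs h1.1]
    rfl

end Pool.Agent.T2h78.TW
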