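import Pool.Agent.T2h78.TW.Cv1

/-!
# The local conditions at the primes dividing `D`
-/

set_option autoImplicit false
set_option linter.unusedSectionVars false

namespace Pool.Agent.T2h78.TW

open Pool.Agent.Y698 Pool.Agent.Y698.SG Pool.Agent.Y279.SG
open H667R3 Pool.Agent.W192.HK Pool.Agent.TH936.CM Pool.Agent.TH936.PU

section
variable {p : ℕ} [hp : Fact p.Prime]

lemma norm_two (h2 : p ≠ 2) : ‖(2 : ℤ_[p])‖ = 1 := by
  have h : ‖((2 : ℕ) : ℤ_[p])‖ = 1 := by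
    rw [PadicInt.norm_natCast_eq_one_iff]
    exact (Nat.coprime_primes hp.out Nat.prime_two).2 h2
  exact_mod_cast h

lemma unit_add {u v : ℤ_[p]} (hu : ‖u‖ = 1) (h : ‖v‖ < 1) : ‖u + v‖ = 1 := by
  have h1 : ‖u + v‖ = max ‖u‖ ‖v‖ := PadicInt.norm_add_eq_max_of_ne (by rw [hu]; exact h.ne')
  rw [h1, hu]
  exact max_eq_left h.le

/-- squares of units -/
lemma hs_sq (h2 : p ≠ 2) {u v : ℤ_[p]} (hu : ‖u‖ = 1) (h : ‖v ^ 2 - u‖ < 1) :
    ∃ z : ℤ_[p], z ^ 2 = u ∧ ‖z - v‖ < 1 := by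
  have hv2 : ‖v ^ 2‖ = 1 := by
    have e : v ^ 2 = u + (v ^ 2 - u) := by ring
    rw [e]
    exact unit_add hu h
  have hv : ‖v‖ = 1 := by
    rw [norm_pow] at hv2
    exact (pow_eq_one_iff_of_nonneg (norm_nonneg v) two_ne_zero).1 hv2
  have e1 : (Polynomial.X ^ 2 - Polynomial.C u : Polynomial ℤ_[p]).aeval v = v ^ 2 - u := by
    simp
  have e2 : (Polynomial.X ^ 2 - Polynomial.C u : Polynomial ℤ_[p]).derivative.aeval v = 2 * v := by
    simp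
    exact Or.inl one_add_one_eq_two
  have hn : ‖(Polynomial.X ^ 2 - Polynomial.C u : Polynomial ℤ_[p]).derivative.aeval v‖ = 1 := by
    rw [e2, norm_mul, norm_two h2, hv, mul_one]
  obtain ⟨z, hz, hzv, -, -⟩ := hensels_lemma (F := (Polynomial.X ^ 2 - Polynomial.C u :
    Polynomial ℤ_[p])) (a := v) (by rw [hn, e1, one_pow]; exact h)
  refine ⟨z, ?_, ?_⟩
  · have e3 : (Polynomial.X ^ 2 - Polynomial.C u : Polynomial ℤ_[p]).aeval z = z ^ 2 - u := by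
      simp
    rw [e3] at hz
    exact sub_eq_zero.1 hz
  · rw [hn] at hzv
    exact hzv

/-- the embedding at a split prime -/
lemma Sp1.emb {ϖ : RR} (h : Sp1 p ϖ) : ∃ (α : ℤ_[p]) (hα : α ^ 2 = α - 2), ‖ev α hα ϖ‖ < 1 := by
  have hp2 := h.gp.n2
  obtain ⟨Y', k, hY⟩ := h.ycop
  have hYk : cY ϖ * Y' = 1 - k * p := by linear_combination hY
  set a0 : ℤ := -(cX ϖ * Y') with ha0
  have hpd : ∀ m : ℤ, (p : ℤ) ∣ m → ‖((m : ℤ) : ℤ_[p])‖ < 1 := fun m hm =>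
    (PadicInt.norm_intCast_lt_one_iff).2 hm
  have hpu : ∀ m : ℤ, ¬ (p : ℤ) ∣ m → ‖((m : ℤ) : ℤ_[p])‖ = 1 := fun m hm =>
    (PadicInt.norm_intCast_eq_one_iff).2 ((dvd_cop hp.out hm))
  have hnr := h.nr
  unfold nR at hnr
  have hf0 : (p : ℤ) ∣ a0 ^ 2 - a0 + 2 := by
    have hpp := Nat.prime_iff_prime_int.1 hp.out
    have h1 : (p : ℤ) ∣ cY ϖ ^ 2 * (a0 ^ 2 - a0 + 2) := by
      refine ⟨1 - 2 * k * cX ϖ ^ 2 + k ^ 2 * p * cX ϖ ^ 2 - k * cX ϖ * cY ϖ, ?_⟩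
      have e : cY ϖ ^ 2 * (a0 ^ 2 - a0 + 2) = cX ϖ ^ 2 * (cY ϖ * Y') ^ 2 +
          cX ϖ * cY ϖ * (cY ϖ * Y') + 2 * cY ϖ ^ 2 := by
        rw [ha0]
        ring
      rw [e, hYk]
      linear_combination hnr
    rcases hpp.dvd_or_dvd h1 with h2 | h2
    · exact absurd (hpp.dvd_of_dvd_pow h2) (cop_dvd hp.out h.ycop)
    · exact h2
  have hd : ¬ (p : ℤ) ∣ 2 * a0 - 1 := by
    intro hd
    have h1 : (p : ℤ) ∣ 7 := by
      have e : (7 : ℤ) = 4 * (a0 ^ 2 - a0 + 2) - (2 * a0 - 1) * (2 * a0 - 1) := by ring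
      rw [e]
      exact dvd_sub (Dvd.dvd.mul_left hf0 _) (Dvd.dvd.mul_left hd _)
    exact h.gp.not_seven h1
  have e1 : (Polynomial.X ^ 2 - Polynomial.X + 2 : Polynomial ℤ_[p]).aeval ((a0 : ℤ) : ℤ_[p]) =
      ((a0 ^ 2 - a0 + 2 : ℤ) : ℤ_[p]) := by
    simp
  have e2 : (Polynomial.X ^ 2 - Polynomial.X + 2 : Polynomial ℤ_[p]).derivative.aeval
      ((a0 : ℤ) : ℤ_[p]) = ((2 * a0 - 1 : ℤ) : ℤ_[p]) := by
    simp
    exact Or.inl one_add_one_eq_two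
  have hn : ‖(Polynomial.X ^ 2 - Polynomial.X + 2 : Polynomial ℤ_[p]).derivative.aeval
      ((a0 : ℤ) : ℤ_[p])‖ = 1 := by
    rw [e2]
    exact hpu _ hd
  obtain ⟨α, hα, hαa, -, -⟩ := hensels_lemma (F := (Polynomial.X ^ 2 - Polynomial.X + 2 :
    Polynomial ℤ_[p])) (a := ((a0 : ℤ) : ℤ_[p])) (by
      rw [hn, e1, one_pow]
      exact hpd _ hf0)
  have e3 : (Polynomial.X ^ 2 - Polynomial.X + 2 : Polynomial ℤ_[p]).aeval α =
      α ^ 2 - α + 2 := by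
    simp
  rw [e3] at hα
  rw [hn] at hαa
  refine ⟨α, by linear_combination hα, ?_⟩
  rw [ev_apply]
  have e4 : ((cX ϖ : ℤ) : ℤ_[p]) + ((cY ϖ : ℤ) : ℤ_[p]) * α =
      ((cX ϖ + cY ϖ * a0 : ℤ) : ℤ_[p]) + ((cY ϖ : ℤ) : ℤ_[p]) * (α - ((a0 : ℤ) : ℤ_[p])) := by
    push_cast
    ring
  rw [e4]
  refine lt_of_le_of_lt (PadicInt.nonarchimedean _ _) (max_lt (hpd _ ?_) ?_)
  · refine ⟨cX ϖ * k, ?_⟩
    have e5 : cX ϖ + cY ϖ * a0 = cX ϖ * (1 - cY ϖ * Y') := by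
      rw [ha0]
      ring
    rw [e5, hYk]
    ring
  · rw [norm_mul]
    exact mul_lt_one_of_nonneg_of_lt_one_right (PadicInt.norm_le_one _) (norm_nonneg _) hαa

/-- the squares at a split prime -/
lemma Sp1.sqr {ϖ : RR} (h : Sp1 p ϖ) {α : ℤ_[p]} {hα : α ^ 2 = α - 2} (hϖ : ‖ev α hα ϖ‖ < 1)
    {x : RR} (hx : sy ϖ x = 1) : ‖ev α hα x‖ = 1 ∧ IsSquare (ev α hα x) := by
  have hxn : x ∉ sp ϖ := by
    rcases sy_val ϖ x with h1 | h1
    · rw [h1.2] at hx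
      exact absurd hx zero_ne_one
    · exact h1.1
  have hmax := maximal_sp h.po.pr.irreducible
  have hmul : ∀ c : RR, ‖ev α hα (c * ϖ)‖ < 1 := by
    intro c
    rw [map_mul, norm_mul]
    exact mul_lt_one_of_nonneg_of_lt_one_right (PadicInt.norm_le_one _) (norm_nonneg _) hϖ
  have hu : ‖ev α hα x‖ = 1 := by
    have h1 : IsCoprime x ϖ := by
      have h2 := (h.po.pr.irreducible.coprime_iff_not_dvd (n := x)).2
        (fun h3 => hxn (Ideal.mem_span_singleton.2 h3))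
      exact h2.symm
    obtain ⟨u, v, huv⟩ := h1
    have h2 : ‖ev α hα u * ev α hα x‖ = 1 := by
      have e : ev α hα u * ev α hα x = 1 + -ev α hα (v * ϖ) := by
        rw [← map_mul, ← map_one (ev α hα), ← huv, map_add]
        ring
      rw [e]
      exact unit_add (norm_one) (by rw [norm_neg]; exact hmul v)
    rw [norm_mul] at h2
    refine le_antisymm (PadicInt.norm_le_one _) ?_
    by_contra hlt
    push Not at hlt
    have h3 : ‖ev α hα u‖ * ‖ev α hα x‖ < 1 :=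
      mul_lt_one_of_nonneg_of_lt_one_right (PadicInt.norm_le_one _) (norm_nonneg _) hlt
    rw [h2] at h3
    exact lt_irrefl _ h3
  refine ⟨hu, ?_⟩
  have hsq : IsSquare (Ideal.Quotient.mk (sp ϖ) x) := by
    by_contra hcon
    unfold sy at hx
    rw [if_neg hxn, if_neg hcon] at hx
    norm_num at hx
  obtain ⟨y, hy⟩ := hsq
  obtain ⟨y, rfl⟩ := Ideal.Quotient.mk_surjective y
  rw [← map_mul, Ideal.Quotient.eq, Ideal.mem_span_singleton'] at hy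
  obtain ⟨c, hc⟩ := hy
  obtain ⟨z, hz, -⟩ := hs_sq (v := ev α hα y) h.gp.n2 hu (by
    have e : ev α hα y ^ 2 - ev α hα x = -ev α hα (c * ϖ) := by
      rw [hc, map_sub, map_mul]
      ring
    rw [e, norm_neg]
    exact hmul c)
  exact ⟨z, by rw [← hz]; ring⟩

lemma cj2' {α : ℤ_[p]} (hα : α ^ 2 = α - 2) : (1 - α) ^ 2 = (1 - α) - 2 := by
  linear_combination hα

lemma ev_cj {R : Type*} [CommRing R] {α : R} (hα : α ^ 2 = α - 2) (hα' : (1 - α) ^ 2 = (1 - α) - 2)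
    (x : RR) : ev α hα (cj x) = ev (1 - α) hα' x := by
  rw [ev_apply, ev_apply, (cXY_cj x).1, (cXY_cj x).2]
  push_cast
  ring

lemma Sp1.emb2 {ϖ : RR} {α : ℤ_[p]} {hα : α ^ 2 = α - 2} (hϖ : ‖ev α hα ϖ‖ < 1) :
    ‖ev (1 - α) (cj2' hα) (nrm (Pool.Agent.Y698.cj ϖ))‖ < 1 := by
  have h1 : ev (1 - α) (cj2' hα) (Pool.Agent.Y698.cj ϖ) = ev α hα ϖ := by
    have h2 := ev_cj (cj2' hα) (by linear_combination hα) ϖ
    rw [h2, ev_apply, ev_apply]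
    ring
  rcases nrm_cases (Pool.Agent.Y698.cj ϖ) with h | h <;> rw [h]
  · rw [h1]
    exact hϖ
  · rw [map_neg, norm_neg, h1]
    exact hϖ

end

end Pool.Agent.T2h78.TW
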