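import Mathlib

/-!
# Local classes for the twists of `X_0(49)`: statements

`y² = x (x² + 21 D x + 112 D²) = x (x - D (a - 11)) (x + D (a + 10))` with `a² = a - 2`. A class is
an element `x + y a`; it is locally soluble over `F` if there is a point `(X, Y)` over `F`, `Y ≠ 0`,
with `X + D (a + 10) = (x + y a) (u + w a)²` in `F[a]`, `u, w` in `F`.
-/

set_option autoImplicit false

namespace Pool.Agent.T2h78.TW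

/-- local solubility of the class `x + y a` on the twist by `D` -/
def Lc (F : Type) [Field F] (D x y : ℤ) : Prop :=
  ∃ X Y u w : F, Y ≠ 0 ∧ Y ^ 2 = X * (X ^ 2 + 21 * D * X + 112 * D ^ 2) ∧
    X + 10 * D = x * (u ^ 2 - 2 * w ^ 2) - 2 * y * (2 * u * w + w ^ 2) ∧
    D = x * (2 * u * w + w ^ 2) + y * (u ^ 2 - 2 * w ^ 2) + y * (2 * u * w + w ^ 2)

/-- `x + y a` is a square in `F[a]` -/
def Sa (F : Type) [Field F] (x y : ℤ) : Prop :=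
  ∃ m n : F, (x : F) = m ^ 2 - 2 * n ^ 2 ∧ (y : F) = 2 * m * n + n ^ 2

/-- the real place -/
def T_LR : Prop := ∀ D x y : ℤ, 0 < D → (x ≠ 0 ∨ y ≠ 0) → Lc ℝ D x y

/-- the class of `O` (points near `O`) -/
def T_LN1 : Prop := ∀ (p : ℕ) [Fact p.Prime] (D x y : ℤ), D ≠ 0 → (x ≠ 0 ∨ y ≠ 0) →
  Sa ℚ_[p] x y → Lc ℚ_[p] D x y

/-- the class `D √-7` of `(0, 0)` (points near `(0, 0)`);
`D (2 a - 1) (x + y a) = D (- x - 4 y) + D (2 x + y) a` -/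
def T_LN2 : Prop := ∀ (p : ℕ) [Fact p.Prime] (D x y : ℤ), D ≠ 0 → (x ≠ 0 ∨ y ≠ 0) →
  Sa ℚ_[p] (D * (-x - 4 * y)) (D * (2 * x + y)) → Lc ℚ_[p] D x y

/-- the class of `(D (α - 11), 0)`, for `α` in `ℚ_p` (points near it) -/
def T_LM : Prop := ∀ (p : ℕ) [Fact p.Prime] (D x y : ℤ) (α : ℚ_[p]), α ^ 2 = α - 2 → D ≠ 0 →
  (x ≠ 0 ∨ y ≠ 0) → IsSquare ((D : ℚ_[p]) * (2 * α - 1) * (x + y * α)) →
  IsSquare ((x : ℚ_[p]) + y * (1 - α)) → Lc ℚ_[p] D x y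

/-- the good places -/
def T_LG : Prop := ∀ (p : ℕ) [Fact p.Prime] (D x y : ℤ), p ≠ 2 → p ≠ 7 → ¬ (p : ℤ) ∣ D →
  ¬ (p : ℤ) ∣ x ^ 2 + x * y + 2 * y ^ 2 → Lc ℚ_[p] D x y

/-- the place `2` -/
def T_L2 : Prop := ∀ D x y : ℤ, D % 4 = 1 → x % 2 = 1 → (x - y) % 4 = 1 → Lc ℚ_[2] D x y

/-- lifting of squares -/
def T_LSq : Prop := ∀ (p : ℕ) [Fact p.Prime] (x y m n : ℤ), p ≠ 2 → p ≠ 7 →
  ¬ (p : ℤ) ∣ x ^ 2 + x * y + 2 * y ^ 2 → (p : ℤ) ∣ x - (m ^ 2 - 2 * n ^ 2) →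
  (p : ℤ) ∣ y - (2 * m * n + n ^ 2) → Sa ℚ_[p] x y

/-- lifting of squares at `7` (`x + y a ≡ x + 4 y mod √-7`) -/
def T_L7 : Prop := ∀ [Fact (Nat.Prime 7)] (x y z : ℤ), ¬ (7 : ℤ) ∣ z → (7 : ℤ) ∣ (x + 4 * y) - z ^ 2 → Sa ℚ_[7] x y

end Pool.Agent.T2h78.TW
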