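import Pool.Agent.Y698.SG.Wn
import Pool.Agent.Y698.Tw
import Pool.Agent.Y698.Sg

/-!
# The elliptic function attached to the point of order `ᾱ`
-/

set_option autoImplicit false
set_option linter.unusedSectionVars false

open Filter
open scoped Topology PeriodPair

namespace Pool.Agent.T2h78.TW

open Pool.Agent.Y698 Pool.Agent.Y698.SG
open H667R3 Pool.Agent.W192.HK Pool.Agent.TH936.CM Pool.Agent.TH936.PU

variable {L : PeriodPair} {Ω : ℂ}

open Classical in
/-- half the second difference at the point of order `ᾱ` -/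
noncomputable def Mf (L : PeriodPair) (Ω z : ℂ) : ℂ :=
  if z ∈ L.lattice then 0 else Dd L z (tB Ω) / 2

lemma EE_two (hL : IsLat L RR Ω) (δ : ℝ) {z : ℂ} (h : 2 * z ∈ L.lattice) : EE RR Ω δ z = 0 := by
  have h1 := EE_neg (R := RR) (Ω := Ω) δ z
  have h2 : EE RR Ω δ z = EE RR Ω δ (-z) := EE_per hL δ (by
    have e : z - -z = 2 * z := by ring
    rw [e]
    exact h)
  rw [h1] at h2
  linear_combination (1 / 2 : ℂ) * h2

theorem lim_M (hL : IsLat L RR Ω) (z : ℂ) :
    Tendsto (fun δ : ℝ => EE RR Ω δ (z + tB Ω) - EE RR Ω δ z) (𝓝[>] 0) (𝓝 (Mf L Ω z)) := by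
  have htwo := two_tB hL
  by_cases hz : z ∈ L.lattice
  · have h0 : Mf L Ω z = 0 := if_pos hz
    rw [h0]
    refine tendsto_const_nhds.congr fun δ => ?_
    have hz2 : 2 * z ∈ L.lattice := by
      rw [two_mul]
      exact add_mem hz hz
    rw [EE_two hL δ hz2, EE_two hL δ (by rw [mul_add]; exact add_mem hz2 htwo), sub_zero]
  by_cases hzt : z + tB Ω ∈ L.lattice
  · have hz2 : 2 * z ∈ L.lattice := by
      have := sub_mem (add_mem hzt hzt) htwo
      convert this using 1
      ring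
    have h0 : Mf L Ω z = 0 := by
      unfold Mf
      rw [if_neg hz]
      unfold Dd
      rw [dwp_half hz2, zero_div, zero_div]
    rw [h0]
    refine tendsto_const_nhds.congr fun δ => ?_
    rw [EE_two hL δ hz2, EE_two hL δ (by rw [mul_add]; exact add_mem hz2 htwo), sub_zero]
  · have hzt' : z - tB Ω ∉ L.lattice := by
      intro h
      apply hzt
      have := add_mem h htwo
      convert this using 1
      ring
    have h1 := (lim_Dd hL hz (tB_notMem hL) hzt hzt').div_const 2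
    have h0 : Mf L Ω z = Dd L z (tB Ω) / 2 := if_neg hz
    rw [h0]
    refine h1.congr fun δ => ?_
    have e : EE RR Ω δ (z - tB Ω) = EE RR Ω δ (z + tB Ω) := EE_per hL δ (by
      have := neg_mem htwo
      convert this using 1
      ring)
    rw [e]
    ring

lemma Mf_per {z w : ℂ} (h : z - w ∈ L.lattice) : Mf L Ω z = Mf L Ω w := by
  unfold Mf
  by_cases hz : z ∈ L.lattice
  · have hw : w ∈ L.lattice := by
      have := sub_mem hz h
      rwa [sub_sub_cancel] at this
    rw [if_pos hz, if_pos hw]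
  · have hw : w ∉ L.lattice := by
      intro hw
      apply hz
      have := add_mem h hw
      rwa [sub_add_cancel] at this
    rw [if_neg hz, if_neg hw, Pool.Agent.TH936.PU.Dd_per h]

lemma Mf_neg (z : ℂ) : Mf L Ω (-z) = -Mf L Ω z := by
  unfold Mf
  by_cases hz : z ∈ L.lattice
  · rw [if_pos hz, if_pos (neg_mem hz), neg_zero]
  · rw [if_neg hz, if_neg (fun h => hz (by simpa using neg_mem h)), Dd_neg]
    ring

lemma Mf_zero {z : ℂ} (h : z ∈ L.lattice) : Mf L Ω z = 0 := if_pos h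

lemma res_bR (r : RR) : r ∈ sp bR ∨ r - 1 ∈ sp bR := by
  have e : r = ((cX r : ℤ) : RR) + ((cY r : ℤ) : RR) * aR := by
    apply Subtype.ext
    push_cast
    rw [aR_coe]
    exact co r
  have e2 : bR = 1 - aR := rfl
  rcases Int.even_or_odd (cX r + cY r) with ⟨k, hk⟩ | ⟨k, hk⟩
  · left
    rw [Ideal.mem_span_singleton']
    refine ⟨(k : RR) * aR - ((cY r : ℤ) : RR), ?_⟩
    have hk' : ((cX r : ℤ) : RR) + ((cY r : ℤ) : RR) = k + k := by
      exact_mod_cast congrArg (fun t : ℤ => (t : RR)) hk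
    linear_combination (k : RR) * aR_mul_bR - e - hk' - ((cY r : ℤ) : RR) * e2
  · right
    rw [Ideal.mem_span_singleton']
    refine ⟨(k : RR) * aR - ((cY r : ℤ) : RR), ?_⟩
    have hk' : ((cX r : ℤ) : RR) + ((cY r : ℤ) : RR) = 2 * k + 1 := by
      exact_mod_cast congrArg (fun t : ℤ => (t : RR)) hk
    linear_combination (k : RR) * aR_mul_bR - e - hk' - ((cY r : ℤ) : RR) * e2

lemma bR_ne : bR ≠ 0 := fun h => bl_ne (by rw [← bR_coe, h]; rfl)

/-- the elements prime to two are `1` modulo `ᾱ` -/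
lemma cop_bR {c : RR} (h : IsCoprime 2 c) : c - 1 ∈ sp bR := by
  refine (res_bR c).resolve_left fun h1 => ?_
  obtain ⟨s, t, hst⟩ := h
  have h2 : (2 : RR) ∈ sp bR := by
    rw [← aR_mul_bR, Ideal.mem_span_singleton]
    exact Dvd.intro_left _ rfl
  have h3 : (1 : RR) ∈ sp bR := by
    rw [← hst]
    exact add_mem (Ideal.mul_mem_left _ _ h2) (Ideal.mul_mem_left _ _ h1)
  exact not_dvd_one bR_nu h3

/-- the moduli used -/
structure Gm (n : RR) : Prop where
  ne : n ≠ 0
  cop : IsCoprime fR n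
  odd : IsCoprime 2 n

lemma Gm.one : Gm 1 := ⟨one_ne_zero, isCoprime_one_right, isCoprime_one_right⟩

lemma Gm.mul {m n : RR} (hm : Gm m) (hn : Gm n) : Gm (m * n) :=
  ⟨mul_ne_zero hm.ne hn.ne, hm.cop.mul_right hn.cop, hm.odd.mul_right hn.odd⟩

lemma Gm.prod {ι : Type} {S : Finset ι} {π : ι → RR} (h : ∀ i ∈ S, Gm (π i)) :
    Gm (∏ i ∈ S, π i) := by
  classical
  induction S using Finset.induction_on with
  | empty => exact Gm.one
  | insert q S hq ih =>
    rw [Finset.prod_insert hq]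
    exact (h q (Finset.mem_insert_self _ _)).mul
      (ih fun p hp => h p (Finset.mem_insert_of_mem hp))

lemma Gm.gd {n : RR} (h : Gm n) : Gd n := ⟨h.ne, h.cop⟩

/-- the distribution relation -/
theorem Mf_dist (hL : IsLat L RR Ω) {c : RR} (hc0 : c ≠ 0) (hc : c - 1 ∈ sp bR)
    [Fintype (RR ⧸ sp c)] (u : ℂ) :
    ∑ t : RR ⧸ sp c, Mf L Ω (u + Ω * t.out / c) = c * Mf L Ω (c * u) := by
  have hc0' := coe_ne hc0
  have hcn : 0 < Complex.normSq (c : ℂ) := Complex.normSq_pos.2 hc0'
  have hδt : Tendsto (fun δ : ℝ => δ / Complex.normSq (c : ℂ)) (𝓝[>] 0) (𝓝[>] 0) := by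
    rw [tendsto_nhdsWithin_iff]
    constructor
    · have h7 : Continuous (fun δ : ℝ => δ / Complex.normSq (c : ℂ)) := by fun_prop
      have h8 := (h7.tendsto 0).mono_left (nhdsWithin_le_nhds (s := Set.Ioi 0))
      simpa using h8
    · filter_upwards [self_mem_nhdsWithin] with δ (hδ : 0 < δ)
      show 0 < δ / Complex.normSq (c : ℂ)
      positivity
  have l1 : Tendsto (fun δ : ℝ => ∑ t : RR ⧸ sp c,
      (EE RR Ω δ (u + Ω * t.out / c + tB Ω) - EE RR Ω δ (u + Ω * t.out / c))) (𝓝[>] 0)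
      (𝓝 (∑ t : RR ⧸ sp c, Mf L Ω (u + Ω * t.out / c))) :=
    tendsto_finsetSum _ fun t _ => lim_M hL _
  have l2 := ((lim_M hL (c * u)).comp hδt).const_mul (c : ℂ)
  refine tendsto_nhds_unique l1 (l2.congr' ?_)
  filter_upwards [self_mem_nhdsWithin] with δ (hδ : 0 < δ)
  rw [Finset.sum_sub_distrib]
  have h1 := EE_distA hL hδ c hc0 (u + tB Ω)
  have h2 := EE_distA hL hδ c hc0 u
  have h3 : ∑ t : RR ⧸ sp c, EE RR Ω δ (u + Ω * t.out / c + tB Ω) =
      ∑ t : RR ⧸ sp c, EE RR Ω δ (u + tB Ω + Ω * t.out / c) :=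
    Finset.sum_congr rfl fun t _ => by
      congr 1
      ring
  rw [h3, h1, h2]
  have h4 : EE RR Ω (δ / Complex.normSq c) (c * (u + tB Ω)) =
      EE RR Ω (δ / Complex.normSq c) (c * u + tB Ω) := EE_per hL _ (by
    rw [Ideal.mem_span_singleton'] at hc
    obtain ⟨b, hb⟩ := hc
    have h5 := hL.mul b _ (tB_mem hL)
    convert h5 using 1
    have h6 : (b : ℂ) * bl = c - 1 := by
      have := congrArg (fun r : RR => (r : ℂ)) hb
      push_cast at this
      rw [bR_coe] at this
      exact this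
    linear_combination -tB Ω * h6)
  simp only [Function.comp_apply]
  rw [h4]
  ring

/-! ### integrality -/

/-- the integral function -/
noncomputable def ef (L : PeriodPair) (Ω z : ℂ) : ℂ := Mf L Ω z + 1 / 2

lemma ef_per {z w : ℂ} (h : z - w ∈ L.lattice) : ef L Ω z = ef L Ω w := by
  unfold ef
  rw [Mf_per h]

lemma ef_neg (z : ℂ) : ef L Ω (-z) = 1 - ef L Ω z := by
  unfold ef
  rw [Mf_neg]
  ring

section
variable {Γ : Type*} [LinearOrderedCommGroupWithZero Γ] {v : Valuation ℂ Γ}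

lemma tB_Tb (hL : IsLat L RR Ω) (hv : v al < 1) : Tb v L (tB Ω) :=
  ⟨tB_notMem hL, bR, by rw [bR_coe, v_bl hv], by rw [bR_coe]; exact tB_mem hL⟩

theorem ef_int (h : LD L Ω) (hv : v al < 1) {z : ℂ} (hz : Tb v L z) (h2 : 2 * z ∉ L.lattice) :
    v (ef L Ω z) ≤ 1 := by
  have hL := h.lat
  have htwo := two_tB hL
  have hp : z + tB Ω ∉ L.lattice := by
    intro h1
    apply h2
    have := sub_mem (add_mem h1 h1) htwo
    convert this using 1
    ring
  have hm : z - tB Ω ∉ L.lattice := by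
    intro h1
    apply h2
    have := add_mem (add_mem h1 h1) htwo
    convert this using 1
    ring
  have hd := hz.diff h hv (tB_Tb hL hv) hp hm
  have i1 := hz.int h hv
  have i2 := hz.y_int h hv
  have hXB : Xx L (tB Ω) = al / bl ^ 2 := by
    unfold Xx
    rw [h.eb]
    have hb := bl_ne
    field_simp
    unfold bl
    linear_combination (-al - 1) * al_sq
  have hne : Xx L z - Xx L (tB Ω) ≠ 0 := by
    intro h0
    rw [h0, map_zero] at hd
    exact zero_ne_one hd
  have e1 : ℘[L] z - ℘[L] (tB Ω) = Xx L z - Xx L (tB Ω) := by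
    unfold Xx
    ring
  have e2 : ef L Ω z = (Yy L z + Xx L z - 1 / bl ^ 3) / (Xx L z - Xx L (tB Ω)) := by
    unfold ef Mf Dd
    rw [if_neg hz.ne, e1]
    have hb := bl_ne
    have h3 : 1 / bl ^ 3 = Xx L (tB Ω) / 2 := by
      rw [hXB]
      field_simp
      have := al_mul_bl
      linear_combination -this
    rw [h3]
    unfold Yy
    field_simp
    ring
  rw [e2, map_div₀, hd, div_one]
  refine v_sub_le (v_add_le i2 i1) ?_
  rw [map_div₀, map_one, map_pow, v_bl hv, one_pow, div_one]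

end

end Pool.Agent.T2h78.TW
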