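import Pool.Agent.T2h78.TW.M

/-!
# The Eisenstein-Kronecker numbers modulo the primes above two
-/

set_option autoImplicit false
set_option linter.unusedSectionVars false

open Filter
open scoped Topology PeriodPair

namespace Pool.Agent.T2h78.TW

open Pool.Agent.Y698 Pool.Agent.Y698.SG
open H667R3 Pool.Agent.W192.HK Pool.Agent.TH936.CM Pool.Agent.TH936.PU

variable {L : PeriodPair} {Ω : ℂ}

lemma cop_two_fR : IsCoprime 2 fR := IsCoprime.symm ⟨-fR, -3, by linear_combination -fR_sq⟩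

lemma Gm.bR_notin {n : RR} (hn : Gm n) : n * fR ∉ sp bR := by
  intro h
  have h1 := cop_bR (hn.odd.mul_right cop_two_fR)
  have h2 := sub_mem h h1
  rw [sub_sub_cancel] at h2
  exact not_dvd_one bR_nu h2

lemma Gm.pt_tB (hL : IsLat L RR Ω) {n : RR} (hn : Gm n) (x : RR) :
    (fR : ℂ) * (Ω * x / n + tB Ω) ∉ L.lattice := by
  intro h
  apply hn.bR_notin
  rw [← div_mem_iff hL bR_ne]
  have h1 := hL.mul n _ h
  have h2 := hL.mem_mul (fR * x)
  have hn0 := coe_ne hn.ne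
  have hb0 := bl_ne
  convert sub_mem h1 h2 using 1
  push_cast
  rw [bR_coe]
  unfold tB
  field_simp
  ring

section
variable [Fintype (RR ⧸ sp fR)]

lemma G_step (hL : IsLat L RR Ω) {T : ℂ}
    (hT : Tendsto (fun δ : ℝ => GG Ω δ 1) (𝓝[>] 0) (𝓝 T)) {n : RR} (hn : Gm n) (x : RR) :
    Gv L Ω T (Ω * x / n + tB Ω) - Gv L Ω T (Ω * x / n) =
      ∑ y : RR ⧸ sp fR, e7 y.out * Mf L Ω (Ω * y.out / fR + Ω * x / n) := by
  have l1 := (lim_G hL hT (Or.inr (hn.pt_tB hL x))).sub (lim_G hL hT (pt_ok hL hn.ne hn.cop x))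
  have l2 : Tendsto (fun δ : ℝ => ∑ y : RR ⧸ sp fR, e7 y.out *
      (EE RR Ω δ (Ω * y.out / fR + Ω * x / n + tB Ω) - EE RR Ω δ (Ω * y.out / fR + Ω * x / n)))
      (𝓝[>] 0) (𝓝 (∑ y : RR ⧸ sp fR, e7 y.out * Mf L Ω (Ω * y.out / fR + Ω * x / n))) :=
    tendsto_finsetSum _ fun y _ => (lim_M hL _).const_mul _
  refine tendsto_nhds_unique l1 (l2.congr fun δ => ?_)
  unfold GI
  rw [← Finset.sum_sub_distrib]
  refine Finset.sum_congr rfl fun y _ => ?_
  rw [mul_sub]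
  congr 3
  ring

lemma e7_bR : e7 bR = 1 := by
  unfold e7
  rw [r7_bR]
  have h : quadraticChar (ZMod 7) 4 = 1 := by decide
  rw [h, Int.cast_one]

lemma bijb : Function.Bijective (fun i : Fin 2 => Ideal.Quotient.mk (sp bR) (![0, 1] i)) := by
  constructor
  · have key : Ideal.Quotient.mk (sp bR) (0 : RR) ≠ Ideal.Quotient.mk (sp bR) 1 := by
      intro h
      rw [Ideal.Quotient.mk_eq_mk_iff_sub_mem, zero_sub] at h
      exact not_dvd_one bR_nu (by simpa using neg_mem h)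
    intro i j hij
    fin_cases i <;> fin_cases j
    · rfl
    · exact absurd hij key
    · exact absurd hij key.symm
    · rfl
  · intro z
    have hz := Ideal.Quotient.mk_out z
    rcases res_bR z.out with h | h
    · refine ⟨0, ?_⟩
      show Ideal.Quotient.mk (sp bR) (0 : RR) = z
      rw [← hz, eq_comm, Ideal.Quotient.mk_eq_mk_iff_sub_mem, sub_zero]
      exact h
    · refine ⟨1, ?_⟩
      show Ideal.Quotient.mk (sp bR) (1 : RR) = z
      rw [← hz, eq_comm, Ideal.Quotient.mk_eq_mk_iff_sub_mem]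
      exact h

lemma cop_fR_bR : IsCoprime fR bR := by
  have h : IsCoprime fR (2 : RR) := cop_two_fR.symm
  rw [← aR_mul_bR] at h
  exact h.of_mul_right_right

theorem G_rel (hL : IsLat L RR Ω) {T : ℂ}
    (hT : Tendsto (fun δ : ℝ => GG Ω δ 1) (𝓝[>] 0) (𝓝 T)) {n : RR} (hn : Gm n) (x : RR) :
    bl * Gv L Ω T (Ω * ((bR * x : RR) : ℂ) / n) = 2 * Gv L Ω T (Ω * x / n) +
      ∑ y : RR ⧸ sp fR, e7 y.out * Mf L Ω (Ω * y.out / fR + Ω * x / n) := by
  have f1 := fin_quot bR_ne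
  let _ : Fintype (RR ⧸ sp bR) := Fintype.ofFinite _
  have h1 := G_dist hL hT hn.ne bR_ne hn.cop cop_fR_bR (bR * x)
  rw [e7_bR, mul_one, bR_coe] at h1
  rw [← h1, ← G_step hL hT hn x]
  have hn0 := coe_ne hn.ne
  have hb0 := coe_ne bR_ne
  rw [sum_rep _ bijb (fun t : RR => Gv L Ω T (Ω * ((bR * x + n * t : RR) : ℂ) / ((bR * n : RR) : ℂ)))]
  · rw [Fin.sum_univ_two]
    have m0 : (![0, 1] : Fin 2 → RR) 0 = 0 := rfl
    have m1 : (![0, 1] : Fin 2 → RR) 1 = 1 := rfl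
    rw [m0, m1]
    have e0 : Ω * ((bR * x + n * 0 : RR) : ℂ) / ((bR * n : RR) : ℂ) = Ω * x / n := by
      push_cast
      field_simp
      ring
    have e1 : Ω * ((bR * x + n * 1 : RR) : ℂ) / ((bR * n : RR) : ℂ) = Ω * x / n + tB Ω := by
      unfold tB
      rw [← bR_coe]
      push_cast
      field_simp
    rw [e0, e1]
    ring
  · intro s t hst
    apply Gv_per
    have h2 := (div_mem_iff hL bR_ne (s - t)).2 hst
    convert h2 using 1
    push_cast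
    field_simp
    ring

variable {Γ : Type*} [LinearOrderedCommGroupWithZero Γ] {v : Valuation ℂ Γ}

omit [Fintype (RR ⧸ sp fR)] in
lemma v_odd {n : RR} (h : IsCoprime 2 n) (hv : v al < 1) : v (n : ℂ) = 1 := by
  obtain ⟨s, t, hst⟩ := h
  have h1 := congrArg (fun r : RR => (r : ℂ)) hst
  push_cast at h1
  have h2 : ((2 : RR) : ℂ) = 2 := rfl
  refine le_antisymm (v_RR hv n) (not_lt.1 fun h3 => ?_)
  have h4 : v ((s : ℂ) * 2 + t * n) < 1 := by
    refine v_add_lt ?_ ?_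
    · rw [mul_comm]
      exact v_mul_lt' (v_two_lt hv) (v_RR hv s)
    · rw [mul_comm]
      exact v_mul_lt' h3 (v_RR hv t)
  rw [h2] at h1
  rw [h1, map_one] at h4
  exact lt_irrefl _ h4

omit [Fintype (RR ⧸ sp fR)] in
lemma tb_odd (hL : IsLat L RR Ω) (hv : v al < 1) {n : RR} (h0 : n ≠ 0) (hn : IsCoprime 2 n)
    {x : RR} (hx : x ∉ sp n) : Tb v L (Ω * x / n) := by
  refine ⟨by rwa [div_mem_iff hL h0], n, v_odd hn hv, ?_⟩
  have := coe_ne h0
  have e : (n : ℂ) * (Ω * x / (n : ℂ)) = Ω * (x : ℂ) := by field_simp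
  rw [e]
  exact hL.mem_mul _

omit [Fintype (RR ⧸ sp fR)] in
lemma two_odd (hL : IsLat L RR Ω) {n : RR} (h0 : n ≠ 0) (hn : IsCoprime 2 n) {x : RR}
    (hx : x ∉ sp n) : 2 * (Ω * x / n) ∉ L.lattice := by
  intro h
  apply hx
  have e : 2 * (Ω * x / (n : ℂ)) = Ω * ((2 * x : RR) : ℂ) / (n : ℂ) := by
    push_cast
    have h2 : ((2 : RR) : ℂ) = 2 := rfl
    rw [h2]
    ring
  rw [e, div_mem_iff hL h0, Ideal.mem_span_singleton] at h
  rw [Ideal.mem_span_singleton]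
  exact hn.symm.dvd_of_dvd_mul_left h

omit [Fintype (RR ⧸ sp fR)] in
lemma ef_odd (h : LD L Ω) (hv : v al < 1) {n : RR} (h0 : n ≠ 0) (hn : IsCoprime 2 n) {x : RR}
    (hx : x ∉ sp n) : v (ef L Ω (Ω * x / n)) ≤ 1 :=
  ef_int h hv (tb_odd h.lat hv h0 hn hx) (two_odd h.lat h0 hn hx)

lemma Gv_int (h : LD L Ω) (hv : v al < 1) {T : ℂ} (hvT : v T = 1) {n : RR} (hn : Gm n) (x : RR) :
    v (Gv L Ω T (Ω * x / (n : ℂ))) ≤ 1 := by
  have hL := h.lat
  unfold Gv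
  split_ifs with h1
  · exact hvT.le
  · have hx : x ∉ sp n := by rwa [← div_mem_iff hL hn.ne]
    exact v_add_le (v_HH h hv (tb_odd hL hv hn.ne hn.odd hx)
      ((pt_ok hL hn.ne hn.cop x).resolve_left h1)) hvT.le

lemma sum_e7 : ∑ y : RR ⧸ sp fR, e7 y.out = 0 := by
  obtain ⟨q0, q1, q2, q3, q4, q5, q6⟩ := qc7
  rw [sum_rep _ bij7 (fun r : RR => e7 r) (fun x y h => e7_per h), Fin.sum_univ_seven]
  have d0 : (((0 : Fin 7) : ℕ)) = 0 := rfl
  have d1 : (((1 : Fin 7) : ℕ)) = 1 := rfl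
  have d2 : (((2 : Fin 7) : ℕ)) = 2 := rfl
  have d3 : (((3 : Fin 7) : ℕ)) = 3 := rfl
  have d4 : (((4 : Fin 7) : ℕ)) = 4 := rfl
  have d5 : (((5 : Fin 7) : ℕ)) = 5 := rfl
  have d6 : (((6 : Fin 7) : ℕ)) = 6 := rfl
  rw [d0, d1, d2, d3, d4, d5, d6, e7_nat, e7_nat, e7_nat, e7_nat, e7_nat, e7_nat, e7_nat, q0, q1,
    q2, q3, q4, q5, q6]
  norm_num

lemma card7 : Fintype.card (RR ⧸ sp fR) = 7 := by
  have h := Fintype.card_of_bijective bij7
  rw [← h, Fintype.card_fin]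

lemma fR_bR : fR - 1 ∈ sp bR := cop_bR cop_two_fR

omit [Fintype (RR ⧸ sp fR)] in
lemma fR_al : (fR : ℂ) = 2 * al - 1 := by
  unfold fR
  push_cast
  rw [aR_coe]
  rfl

omit [Fintype (RR ⧸ sp fR)] in
lemma sq_eq_one_iff_of_e7 {a : ℂ} (h : a ^ 2 = 1) : a = 1 ∨ a = -1 :=
  by
    have h1 : (a - 1) * (a + 1) = 0 := by linear_combination h
    rcases mul_eq_zero.1 h1 with h2 | h2
    · exact Or.inl (by linear_combination h2)
    · exact Or.inr (by linear_combination h2)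

omit [Fintype (RR ⧸ sp fR)] in
lemma mk_zero_out {q : RR} {y : RR ⧸ sp q} : y = 0 ↔ y.out ∈ sp q := by
  rw [← Ideal.Quotient.eq_zero_iff_mem, Ideal.Quotient.mk_out]

lemma sum_red (g : RR ⧸ sp fR → ℂ) (hg : ∀ y, y ≠ 0 → v (g y) ≤ 1) (t2 : v 2 < 1) :
    v (∑ y, e7 y.out * g y - (∑ y, g y - g 0)) < 1 := by
  classical
  have h1 : ∑ y, e7 y.out * g y - (∑ y, g y - g 0) =
      ∑ y : RR ⧸ sp fR, (e7 y.out * g y - g y + (if y = 0 then g y else 0)) := by
    rw [Finset.sum_add_distrib, Finset.sum_sub_distrib, Finset.sum_ite_eq' Finset.univ (0 : RR ⧸ sp fR)]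
    simp only [Finset.mem_univ, if_true]
    ring
  rw [h1]
  refine Pool.Agent.TH936.PU.v_sum_lt _ fun y _ => ?_
  by_cases hy : y = 0
  · have h2 : e7 y.out = 0 := by
      rw [mk_zero_out] at hy
      exact e7_eq_zero.2 hy
    rw [h2, if_pos hy]
    have : (0 : ℂ) * g y - g y + g y = 0 := by ring
    rw [this, map_zero]
    exact zero_lt_one
  · rw [if_neg hy, add_zero]
    have h2 : y.out ∉ sp fR := by
      rwa [← mk_zero_out]
    rcases (sq_eq_one_iff_of_e7 (e7_sq h2)) with h3 | h3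
    · rw [h3]
      have : (1 : ℂ) * g y - g y = 0 := by ring
      rw [this, map_zero]
      exact zero_lt_one
    · rw [h3]
      have : (-1 : ℂ) * g y - g y = -(2 * g y) := by ring
      rw [this, Valuation.map_neg]
      exact v_mul_lt' t2 (hg y hy)

/-- the main congruence -/
theorem G_red (h : LD L Ω) (hv : v al < 1) {T : ℂ}
    (hT : Tendsto (fun δ : ℝ => GG Ω δ 1) (𝓝[>] 0) (𝓝 T)) (hvT : v T = 1) {n : RR} (hn : Gm n)
    {x : RR} (hx : x ∉ sp n) :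
    v (Gv L Ω T (Ω * ((bR * x : RR) : ℂ) / n) -
      (ef L Ω (Ω * ((fR * x : RR) : ℂ) / n) + ef L Ω (Ω * x / n))) < 1 := by
  classical
  have hL := h.lat
  have t2 := v_two_lt hv
  have hn0 := coe_ne hn.ne
  have hf0 := coe_ne fR_ne
  have h1 := G_rel hL hT hn x
  have hfx : fR * x ∉ sp n := by
    rw [Ideal.mem_span_singleton] at hx ⊢
    exact fun h => hx (hn.cop.symm.dvd_of_dvd_mul_left h)
  have hy : ∀ y : RR, v (ef L Ω (Ω * y / fR + Ω * x / n)) ≤ 1 := by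
    intro y
    have e : Ω * y / fR + Ω * x / n = Ω * ((n * y + fR * x : RR) : ℂ) / ((fR * n : RR) : ℂ) := by
      push_cast
      field_simp
    rw [e]
    refine ef_odd h hv (mul_ne_zero fR_ne hn.ne) (cop_two_fR.mul_right hn.odd) fun h2 => hfx ?_
    rw [Ideal.mem_span_singleton] at h2 ⊢
    exact (dvd_add_right (Dvd.intro _ rfl)).1 ((Dvd.intro_left _ rfl).trans h2)
  have e1 : ∑ y : RR ⧸ sp fR, e7 y.out * Mf L Ω (Ω * y.out / fR + Ω * x / n) =
      ∑ y : RR ⧸ sp fR, e7 y.out * ef L Ω (Ω * y.out / fR + Ω * x / n) := by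
    have : ∀ y : RR ⧸ sp fR, e7 y.out * ef L Ω (Ω * y.out / fR + Ω * x / n) =
        e7 y.out * Mf L Ω (Ω * y.out / fR + Ω * x / n) + e7 y.out * (1 / 2) := by
      intro y
      unfold ef
      ring
    rw [Finset.sum_congr rfl fun y _ => this y, Finset.sum_add_distrib, ← Finset.sum_mul, sum_e7]
    ring
  have e2 : ∑ y : RR ⧸ sp fR, ef L Ω (Ω * y.out / fR + Ω * x / n) =
      fR * ef L Ω (Ω * ((fR * x : RR) : ℂ) / n) + (4 - al) := by
    have h2 := Mf_dist hL fR_ne fR_bR (Ω * x / n)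
    have h3 : ∀ y : RR ⧸ sp fR, ef L Ω (Ω * y.out / fR + Ω * x / n) =
        Mf L Ω (Ω * x / n + Ω * y.out / fR) + 1 / 2 := by
      intro y
      unfold ef
      rw [add_comm (Ω * (y.out : ℂ) / fR)]
    rw [Finset.sum_congr rfl fun y _ => h3 y, Finset.sum_add_distrib, h2, Finset.sum_const,
      Finset.card_univ, card7]
    have h4 : (fR : ℂ) * (Ω * x / n) = Ω * ((fR * x : RR) : ℂ) / n := by
      push_cast
      ring
    rw [h4]
    unfold ef
    rw [fR_al]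
    simp only [nsmul_eq_mul]
    push_cast
    ring
  have e3 : ef L Ω (Ω * (0 : RR ⧸ sp fR).out / fR + Ω * x / n) = ef L Ω (Ω * x / n) := by
    apply ef_per
    rw [add_sub_cancel_right, div_mem_iff hL fR_ne]
    exact mk_zero_out.1 rfl
  have h5 := sum_red (v := v) (fun y => ef L Ω (Ω * y.out / fR + Ω * x / n)) (fun y _ => hy _) t2
  rw [e1] at h1
  rw [e2, e3] at h5
  have i1 := Gv_int h hv hvT hn x
  have i2 := Gv_int h hv hvT hn (bR * x)
  have i3 := ef_odd h hv hn.ne hn.odd hx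
  have i4 := ef_odd h hv hn.ne hn.odd hfx
  have e4 : Gv L Ω T (Ω * ((bR * x : RR) : ℂ) / n) -
      (ef L Ω (Ω * ((fR * x : RR) : ℂ) / n) + ef L Ω (Ω * x / n)) =
      al * Gv L Ω T (Ω * ((bR * x : RR) : ℂ) / n) + 2 * Gv L Ω T (Ω * x / n) +
      (∑ y : RR ⧸ sp fR, e7 y.out * ef L Ω (Ω * y.out / fR + Ω * x / n) -
        (fR * ef L Ω (Ω * ((fR * x : RR) : ℂ) / n) + (4 - al) - ef L Ω (Ω * x / n))) +
      al * (2 * ef L Ω (Ω * ((fR * x : RR) : ℂ) / n) - 1) +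
      2 * (2 - ef L Ω (Ω * ((fR * x : RR) : ℂ) / n) - ef L Ω (Ω * x / n)) := by
    have hb : bl = 1 - al := rfl
    rw [hb] at h1
    linear_combination h1 + ef L Ω (Ω * ((fR * x : RR) : ℂ) / n) * fR_al
  rw [e4]
  have v1 : v (1 : ℂ) ≤ 1 := (map_one v).le
  have v2 : v (2 : ℂ) ≤ 1 := t2.le
  refine v_add_lt (v_add_lt (v_add_lt (v_add_lt (v_mul_lt' hv i2) (v_mul_lt' t2 i1)) h5)
    (v_mul_lt' hv ?_)) (v_mul_lt' t2 ?_)
  · exact v_sub_le (v_mul_le v2 i4) v1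
  · exact v_sub_le (v_sub_le v2 i4) i3

/-- the reduction of `T` -/
theorem T_red (h : LD L Ω) (hv : v al < 1) {T : ℂ}
    (hT : Tendsto (fun δ : ℝ => GG Ω δ 1) (𝓝[>] 0) (𝓝 T)) : v (T - 1) < 1 := by
  classical
  have hL := h.lat
  have t2 := v_two_lt hv
  have hf0 := coe_ne fR_ne
  have h1 := G_rel hL hT Gm.one 0
  have h0 : ∀ r : RR, Gv L Ω T (Ω * ((r * 0 : RR) : ℂ) / ((1 : RR) : ℂ)) = T := by
    intro r
    have : Ω * ((r * 0 : RR) : ℂ) / ((1 : RR) : ℂ) = 0 := by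
      rw [mul_zero]
      simp
    rw [this]
    unfold Gv
    rw [if_pos (zero_mem _)]
  have h0' : Gv L Ω T (Ω * ((0 : RR) : ℂ) / ((1 : RR) : ℂ)) = T := by
    have := h0 1
    rwa [mul_zero] at this
  rw [h0, h0'] at h1
  have hy : ∀ y : RR, y ∉ sp fR → v (ef L Ω (Ω * y / fR)) ≤ 1 := fun y hy =>
    ef_odd h hv fR_ne cop_two_fR hy
  have z1 : ∀ y : RR, Ω * y / fR + Ω * ((0 : RR) : ℂ) / ((1 : RR) : ℂ) = Ω * y / fR := by
    intro y
    simp
  simp only [z1] at h1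
  have e1 : ∑ y : RR ⧸ sp fR, e7 y.out * Mf L Ω (Ω * y.out / fR) =
      ∑ y : RR ⧸ sp fR, e7 y.out * ef L Ω (Ω * y.out / fR) := by
    have : ∀ y : RR ⧸ sp fR, e7 y.out * ef L Ω (Ω * y.out / fR) =
        e7 y.out * Mf L Ω (Ω * y.out / fR) + e7 y.out * (1 / 2) := by
      intro y
      unfold ef
      ring
    rw [Finset.sum_congr rfl fun y _ => this y, Finset.sum_add_distrib, ← Finset.sum_mul, sum_e7]
    ring
  have m0 : Ω * (0 : RR ⧸ sp fR).out / fR ∈ L.lattice := by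
    rw [div_mem_iff hL fR_ne]
    exact mk_zero_out.1 rfl
  have e2 : ∑ y : RR ⧸ sp fR, ef L Ω (Ω * y.out / fR) = 7 / 2 := by
    have h2 := Mf_dist hL fR_ne fR_bR 0
    rw [mul_zero, Mf_zero (zero_mem _), mul_zero] at h2
    simp only [zero_add] at h2
    have h3 : ∀ y : RR ⧸ sp fR, ef L Ω (Ω * y.out / fR) = Mf L Ω (Ω * y.out / fR) + 1 / 2 :=
      fun y => rfl
    rw [Finset.sum_congr rfl fun y _ => h3 y, Finset.sum_add_distrib, h2, Finset.sum_const,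
      Finset.card_univ, card7]
    simp only [nsmul_eq_mul]
    push_cast
    ring
  have e3 : ef L Ω (Ω * (0 : RR ⧸ sp fR).out / fR) = 1 / 2 := by
    unfold ef
    rw [Mf_zero m0, zero_add]
  have h5 := sum_red (v := v) (fun y => ef L Ω (Ω * y.out / fR))
    (fun y h => hy _ (fun h6 => h (mk_zero_out.2 h6))) t2
  rw [e1] at h1
  rw [e2, e3] at h5
  have v1 : v (1 : ℂ) ≤ 1 := (map_one v).le
  have e4 : (1 + al) * (T - 1) = -(∑ y : RR ⧸ sp fR, e7 y.out * ef L Ω (Ω * y.out / fR) -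
      (7 / 2 - 1 / 2)) - 2 * 2 - al := by
    have hb : bl = 1 - al := rfl
    rw [hb] at h1
    linear_combination -h1
  have h6 : v (1 + al) = 1 := by
    rw [Valuation.map_add_eq_of_lt_left, map_one]
    rw [map_one]
    exact hv
  have h7 : v ((1 + al) * (T - 1)) < 1 := by
    rw [e4]
    exact v_sub_lt (v_sub_lt (by rw [Valuation.map_neg]; exact h5) (v_mul_lt' t2 t2.le)) hv
  rwa [map_mul, h6, one_mul] at h7

theorem T_unit (h : LD L Ω) (hv : v al < 1) {T : ℂ}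
    (hT : Tendsto (fun δ : ℝ => GG Ω δ 1) (𝓝[>] 0) (𝓝 T)) : v T = 1 := by
  have h1 := T_red h hv hT
  have e : T = 1 + (T - 1) := by ring
  rw [e, Valuation.map_add_eq_of_lt_left, map_one]
  rwa [map_one]

end

end Pool.Agent.T2h78.TW
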