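import Pool.Agent.T2h78.TW.S

/-!
# Jacobi symbols and the norm form of `ℤ[(1 + √-7) / 2]`
-/

set_option autoImplicit false

namespace Pool.Agent.T2h78.TW

open ZMod

theorem two_pow_decomp (Y : ℤ) (hY : Y ≠ 0) : ∃ (k : ℕ) (Z : ℤ), Z % 2 = 1 ∧ Y = 2 ^ k * Z := by
  obtain ⟨k, m, hm, h⟩ := Nat.exists_eq_two_pow_mul_odd (Int.natAbs_ne_zero.mpr hY)
  have hm' := Nat.odd_iff.mp hm
  rcases Int.natAbs_eq Y with h1 | h1
  · refine ⟨k, m, by omega, ?_⟩
    rw [h1, h]
    push_cast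
    ring
  · refine ⟨k, -m, by omega, ?_⟩
    rw [h1, h]
    push_cast
    ring

theorem rec1 (a : ℤ) (ha : a % 2 = 1) (N : ℕ) (hN : N % 4 = 1) :
    jacobiSym a N = jacobiSym N a.natAbs := by
  have hN' : Odd N := Nat.odd_iff.mpr (by omega)
  rcases Int.natAbs_eq a with h | h
  · conv_lhs => rw [h]
    exact jacobiSym.quadratic_reciprocity_one_mod_four' (Nat.odd_iff.mpr (by omega)) hN
  · conv_lhs => rw [h]
    rw [jacobiSym.neg _ hN', χ₄_nat_one_mod_four hN, one_mul]
    exact jacobiSym.quadratic_reciprocity_one_mod_four' (Nat.odd_iff.mpr (by omega)) hN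

theorem rec3 (a : ℤ) (ha : a % 2 = 1) (N : ℕ) (hN : N % 4 = 3) :
    jacobiSym a N = χ₄ a * jacobiSym N a.natAbs := by
  have hN' : Odd N := Nat.odd_iff.mpr (by omega)
  have hodd : a.natAbs % 4 = 1 ∨ a.natAbs % 4 = 3 := by omega
  rcases Int.natAbs_eq a with h | h
  · rcases hodd with h4 | h4
    · rw [χ₄_int_one_mod_four (by omega : a % 4 = 1), one_mul]
      conv_lhs => rw [h]
      exact jacobiSym.quadratic_reciprocity_one_mod_four h4 hN'
    · rw [χ₄_int_three_mod_four (by omega : a % 4 = 3)]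
      conv_lhs => rw [h]
      rw [jacobiSym.quadratic_reciprocity_three_mod_four h4 hN]
      ring
  · rcases hodd with h4 | h4
    · rw [χ₄_int_three_mod_four (by omega : a % 4 = 3)]
      conv_lhs => rw [h]
      rw [jacobiSym.neg _ hN', χ₄_nat_three_mod_four hN,
        jacobiSym.quadratic_reciprocity_one_mod_four h4 hN']
    · rw [χ₄_int_one_mod_four (by omega : a % 4 = 1), one_mul]
      conv_lhs => rw [h]
      rw [jacobiSym.neg _ hN', χ₄_nat_three_mod_four hN,
        jacobiSym.quadratic_reciprocity_three_mod_four h4 hN]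
      ring

theorem two_one (N : ℕ) (h : N % 8 = 1 ∨ N % 8 = 7) : jacobiSym 2 N = 1 := by
  rw [jacobiSym.at_two (Nat.odd_iff.mpr (by omega)), χ₈_nat_eq_if_mod_eight]
  rw [if_neg (by omega), if_pos h]

theorem two_neg (N : ℕ) (h : N % 8 = 3 ∨ N % 8 = 5) : jacobiSym 2 N = -1 := by
  rw [jacobiSym.at_two (Nat.odd_iff.mpr (by omega)), χ₈_nat_eq_if_mod_eight]
  rw [if_neg (by omega), if_neg (by omega)]

/-- if `N = c x²` modulo `a` -/
theorem jac_sq (N c x a : ℤ) (h : a ∣ N - c * x ^ 2) (hc : IsCoprime x a) :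
    jacobiSym N a.natAbs = jacobiSym c a.natAbs := by
  have h1 : N % (a.natAbs : ℤ) = (c * x ^ 2) % (a.natAbs : ℤ) := by
    refine Int.ModEq.symm ((Int.modEq_iff_dvd).mpr ?_)
    exact Int.natAbs_dvd.mpr h
  rw [jacobiSym.mod_left' h1, jacobiSym.mul_left, jacobiSym.sq_one', mul_one]
  have h2 := Int.isCoprime_iff_gcd_eq_one.mp hc
  rw [Int.gcd_eq_natAbs, Int.natAbs_natCast, ← Int.gcd_eq_natAbs]
  exact h2

theorem t_R1 : T_R1 := by
  intro X Y N hX hY hY0 hN hc
  obtain ⟨a, ha⟩ : ∃ a, X = 4 * a + 1 := ⟨X / 4, by omega⟩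
  obtain ⟨z, hz⟩ : ∃ z, Y = 2 * z := ⟨Y / 2, by omega⟩
  obtain ⟨q, hq⟩ : ∃ q : ℤ, (N : ℤ) = 8 * q + 1 + 2 * z := by
    refine ⟨2 * a ^ 2 + a + a * z + z ^ 2, ?_⟩
    rw [hN, ha, hz]
    ring
  obtain ⟨k, Z, hZ, hYZ⟩ := two_pow_decomp Y hY0
  have hcop : IsCoprime X Z := by
    have h1 : IsCoprime Y (X ^ 2) := by
      have h2 : (N : ℤ) = X ^ 2 + Y * (X + 2 * Y) := by rw [hN]; ring
      rw [h2] at hc
      exact IsCoprime.of_add_mul_left_right hc
    have h3 : IsCoprime Y X := (IsCoprime.pow_right_iff (by norm_num)).mp h1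
    rw [hYZ] at h3
    exact (IsCoprime.of_mul_left_right h3).symm
  have hdvd : Z ∣ (N : ℤ) - 1 * X ^ 2 := by
    refine ⟨2 ^ k * (X + 2 * Y), ?_⟩
    rw [hN]
    linear_combination (X + 2 * Y) * hYZ
  have hjac : jacobiSym N Z.natAbs = 1 := by
    rw [jac_sq N 1 X Z hdvd hcop, jacobiSym.one_left]
  have hsplit : jacobiSym Y N = jacobiSym 2 N ^ k * jacobiSym Z N := by
    rw [hYZ, jacobiSym.mul_left, jacobiSym.pow_left]
  rw [hsplit]
  split_ifs with h4
  · -- `Y = 0 mod 4`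
    rw [rec1 Z hZ N (by omega), hjac, mul_one]
    rcases (by omega : z % 4 = 0 ∨ z % 4 = 2) with h | h
    · rw [two_one N (by omega), one_pow]
    · have hk : k = 2 := by
        rcases k with _ | _ | _ | k
        · exfalso
          rw [pow_zero, one_mul] at hYZ
          omega
        · exfalso
          norm_num at hYZ
          omega
        · rfl
        · exfalso
          have : Y = 8 * (2 ^ k * Z) := by
            rw [hYZ]
            ring
          generalize 2 ^ k * Z = W at this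
          omega
      rw [hk]
      rw [two_neg N (by omega)]
      norm_num
  · -- `Y = 2 mod 4`
    have hk : k = 1 := by
      rcases k with _ | _ | k
      · exfalso
        rw [pow_zero, one_mul] at hYZ
        omega
      · rfl
      · exfalso
        have : Y = 4 * (2 ^ k * Z) := by
          rw [hYZ]
          ring
        generalize 2 ^ k * Z = W at this
        omega
    subst hk
    have hzZ : z = Z := by
      rw [pow_one] at hYZ
      omega
    subst hzZ
    rw [rec3 z hZ N (by omega), hjac, mul_one, pow_one]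
    rcases (by omega : z % 4 = 1 ∨ z % 4 = 3) with h | h
    · rw [two_neg N (by omega), χ₄_int_one_mod_four h]
      norm_num
    · rw [two_one N (by omega), χ₄_int_three_mod_four h]
      norm_num

theorem t_R2 : T_R2 := by
  intro X Y N hX hY hN hc
  obtain ⟨a, ha⟩ : ∃ a, X = 4 * a + 1 := ⟨X / 4, by omega⟩
  obtain ⟨z, hz⟩ : ∃ z, Y = 2 * z := ⟨Y / 2, by omega⟩
  obtain ⟨q, hq⟩ : ∃ q : ℤ, (N : ℤ) = 8 * q + 1 + 2 * z := by
    refine ⟨2 * a ^ 2 + a + a * z + z ^ 2, ?_⟩
    rw [hN, ha, hz]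
    ring
  obtain ⟨A, hA⟩ : ∃ A, A = X + z := ⟨_, rfl⟩
  have h2A : 2 * X + Y = 2 * A := by rw [hA, hz]; ring
  have hNA : (N : ℤ) = A ^ 2 + 7 * z ^ 2 := by
    rw [hN, hA, hz]
    ring
  rw [h2A] at hc ⊢
  have hcA : IsCoprime A (N : ℤ) := IsCoprime.of_mul_left_right hc
  have hcz : IsCoprime z A := by
    have h1 : IsCoprime A (7 * z ^ 2) := by
      have h2 : (N : ℤ) = 7 * z ^ 2 + A * A := by rw [hNA]; ring
      rw [h2] at hcA
      exact IsCoprime.of_add_mul_left_right hcA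
    have h3 : IsCoprime A (z ^ 2) := IsCoprime.of_mul_right_right h1
    exact ((IsCoprime.pow_right_iff (by norm_num)).mp h3).symm
  have hA0 : A ≠ 0 := by
    intro h0
    rw [h0] at hcz hNA
    have hu : IsUnit z := isCoprime_zero_right.mp hcz
    rw [h0] at hcA
    have hu' : IsUnit (N : ℤ) := isCoprime_zero_left.mp hcA
    have h1 : (N : ℤ).natAbs = 1 := Int.isUnit_iff_natAbs_eq.mp hu'
    have h2 : z ^ 2 = 1 := by
      rcases Int.isUnit_iff.mp hu with h | h <;> rw [h] <;> norm_num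
    rw [h2] at hNA
    omega
  obtain ⟨k, Z, hZ, hAZ⟩ := two_pow_decomp A hA0
  have hcop : IsCoprime z Z := by
    rw [hAZ] at hcz
    exact IsCoprime.of_mul_right_right hcz
  have hdvd : Z ∣ (N : ℤ) - 7 * z ^ 2 := by
    refine ⟨2 ^ k * A, ?_⟩
    rw [hNA]
    linear_combination A * hAZ
  have hjac : jacobiSym N Z.natAbs = jacobiSym 7 Z.natAbs := jac_sq N 7 z Z hdvd hcop
  have h7 : jacobiSym Z 7 = χ₄ Z * jacobiSym 7 Z.natAbs := by
    have := rec3 Z hZ 7 (by norm_num)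
    exact_mod_cast this
  have h27 : jacobiSym 2 7 = 1 := two_one 7 (by norm_num)
  have hR : jacobiSym (2 * A) 7 = jacobiSym Z 7 := by
    rw [jacobiSym.mul_left, h27, one_mul, hAZ, jacobiSym.mul_left, jacobiSym.pow_left, h27,
      one_pow, one_mul]
  have hL : jacobiSym (2 * A) N = jacobiSym 2 N ^ (k + 1) * jacobiSym Z N := by
    conv_lhs => rw [jacobiSym.mul_left, hAZ, jacobiSym.mul_left, jacobiSym.pow_left]
    ring
  have hχ : χ₄ Z * χ₄ Z = 1 := by
    rcases (by omega : Z % 4 = 1 ∨ Z % 4 = 3) with h | h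
    · rw [χ₄_int_one_mod_four h]
      norm_num
    · rw [χ₄_int_three_mod_four h]
      norm_num
  rw [hL, hR]
  rcases (by omega : z % 2 = 0 ∨ z % 2 = 1) with hz2 | hz2
  · -- `A` is odd
    have hk : k = 0 := by
      rcases k with _ | k
      · rfl
      · exfalso
        have : A = 2 * (2 ^ k * Z) := by
          rw [hAZ]
          ring
        generalize 2 ^ k * Z = W at this
        omega
    subst hk
    have hZA : Z = A := by rw [hAZ]; ring
    subst hZA
    rw [rec1 Z hZ N (by omega), hjac, zero_add, pow_one, h7]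
    rcases (by omega : z % 4 = 0 ∨ z % 4 = 2) with h | h
    · rw [two_one N (by omega), χ₄_int_one_mod_four (by omega : Z % 4 = 1)]
    · rw [two_neg N (by omega), χ₄_int_three_mod_four (by omega : Z % 4 = 3)]
  · -- `A` is even
    rw [rec3 Z hZ N (by omega), hjac, h7]
    have h2 : jacobiSym 2 N ^ (k + 1) = 1 := by
      rcases k with _ | _ | k
      · exfalso
        have : A = Z := by rw [hAZ]; ring
        omega
      · rcases (by omega : (N % 8 = 1 ∨ N % 8 = 7) ∨ (N % 8 = 3 ∨ N % 8 = 5)) with h | h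
        · rw [two_one N h]
          norm_num
        · rw [two_neg N h]
          norm_num
      · have h3 : A ^ 2 = 8 * (2 * (2 ^ k * Z) ^ 2) := by
          rw [hAZ]
          ring
        have h4 : ∃ w : ℤ, z = 2 * w + 1 := ⟨z / 2, by omega⟩
        obtain ⟨w, hw⟩ := h4
        have h5 : ∃ s : ℤ, w ^ 2 + w = 2 * s := by
          rcases Int.even_or_odd' w with ⟨c, hc | hc⟩
          · exact ⟨2 * c ^ 2 + c, by rw [hc]; ring⟩
          · exact ⟨2 * c ^ 2 + 3 * c + 1, by rw [hc]; ring⟩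
        obtain ⟨s, hs⟩ := h5
        have h6 : (N : ℤ) = 8 * (2 * (2 ^ k * Z) ^ 2) + 7 * (8 * s + 1) := by
          rw [hNA, h3, hw]
          linear_combination 28 * hs
        generalize 2 * (2 ^ k * Z) ^ 2 = W at h6
        rw [two_one N (by omega), one_pow]
    rw [h2, one_mul]

theorem prime_cop (X Y : ℤ) (p : ℕ) (hp : p.Prime) (h : (p : ℤ) = X ^ 2 + X * Y + 2 * Y ^ 2) :
    Y ≠ 0 ∧ IsCoprime Y (p : ℤ) := by
  have hpp : Prime (p : ℤ) := Nat.prime_iff_prime_int.mp hp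
  have hp2 : (2 : ℤ) ≤ p := by exact_mod_cast hp.two_le
  have key : ¬ (p : ℤ) ∣ Y := by
    rintro ⟨c, hc⟩
    have h1 : (p : ℤ) ∣ X ^ 2 := by
      refine ⟨1 - c * (X + 2 * Y), ?_⟩
      rw [hc] at h ⊢
      linear_combination -h
    have h2 : (p : ℤ) ∣ X := hpp.dvd_of_dvd_pow h1
    obtain ⟨e, he⟩ := h2
    rw [hc, he] at h
    have h3 : (p : ℤ) * (p * (e ^ 2 + e * c + 2 * c ^ 2)) = p * 1 := by
      linear_combination -h
    have h4 := mul_left_cancel₀ (by omega : (p : ℤ) ≠ 0) h3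
    have h5 : IsUnit (p : ℤ) := IsUnit.of_mul_eq_one _ h4
    exact hpp.not_isUnit h5
  refine ⟨fun h0 => key (by rw [h0]; exact dvd_zero _), ?_⟩
  exact ((Prime.coprime_iff_not_dvd hpp).mpr key).symm

theorem t_R3 : T_R3 := by
  intro X Y U V p l hp hl hX hY hU hV hpN hlN hc
  obtain ⟨hY0, hYc⟩ := prime_cop X Y p hp hpN
  obtain ⟨hV0, hVc⟩ := prime_cop U V l hl hlN
  have e1 := t_R1 X Y p hX hY hY0 hpN hYc
  have e2 := t_R1 U V l hU hV hV0 hlN hVc
  have hpp : Prime (p : ℤ) := Nat.prime_iff_prime_int.mp hp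
  have hne : Y * U - X * V ≠ 0 := by
    intro h0
    rw [h0] at hc
    have h1 : IsUnit ((p : ℤ) * l) := isCoprime_zero_left.mp hc
    exact hpp.not_isUnit (isUnit_of_mul_isUnit_left h1)
  -- parities
  obtain ⟨a, ha⟩ : ∃ a, X = 4 * a + 1 := ⟨X / 4, by omega⟩
  obtain ⟨z, hz⟩ : ∃ z, Y = 2 * z := ⟨Y / 2, by omega⟩
  obtain ⟨b, hb⟩ : ∃ b, U = 4 * b + 1 := ⟨U / 4, by omega⟩
  obtain ⟨w, hw⟩ : ∃ w, V = 2 * w := ⟨V / 2, by omega⟩
  obtain ⟨q, hq⟩ : ∃ q : ℤ, (p : ℤ) = 8 * q + 1 + 2 * z := by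
    refine ⟨2 * a ^ 2 + a + a * z + z ^ 2, ?_⟩
    rw [hpN, ha, hz]
    ring
  obtain ⟨q', hq'⟩ : ∃ q : ℤ, (l : ℤ) = 8 * q + 1 + 2 * w := by
    refine ⟨2 * b ^ 2 + b + b * w + w ^ 2, ?_⟩
    rw [hlN, hb, hw]
    ring
  have hnorm : ((p * l : ℕ) : ℤ) = (X * U + Y * U + 2 * Y * V) ^ 2 +
      (X * U + Y * U + 2 * Y * V) * (X * V - Y * U) + 2 * (X * V - Y * U) ^ 2 := by
    push_cast
    rw [hpN, hlN]
    ring
  obtain ⟨m, hm⟩ : ∃ m : ℤ, X * U + Y * U + 2 * Y * V = 4 * m + 1 + 2 * z := by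
    refine ⟨4 * a * b + a + b + 2 * z * b + 2 * z * w, ?_⟩
    rw [ha, hb, hz, hw]
    ring
  obtain ⟨m', hm'⟩ : ∃ m : ℤ, X * V - Y * U = 8 * m + 2 * w - 2 * z := by
    refine ⟨a * w - z * b, ?_⟩
    rw [ha, hb, hz, hw]
    ring
  have hpodd : Odd p := Nat.odd_iff.mpr (by omega)
  have hlodd : Odd l := Nat.odd_iff.mpr (by omega)
  have : NeZero p := ⟨hp.ne_zero⟩
  have : NeZero l := ⟨hl.ne_zero⟩
  have hcc : IsCoprime (X * V - Y * U) ((p * l : ℕ) : ℤ) := by
    have h1 : X * V - Y * U = -(Y * U - X * V) := by ring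
    rw [h1]
    push_cast
    exact hc.neg_left
  have hneg : Y * U - X * V = -(X * V - Y * U) := by ring
  have hne' : X * V - Y * U ≠ 0 := by
    intro h0
    apply hne
    rw [hneg, h0, neg_zero]
  rcases (by omega : z % 2 = 0 ∨ z % 2 = 1) with hz2 | hz2
  · -- `Y = 0 mod 4`
    have e3 := t_R1 (X * U + Y * U + 2 * Y * V) (X * V - Y * U) (p * l) (by omega) (by omega) hne'
      hnorm hcc
    rw [jacobiSym.mul_right] at e3
    have e4 : jacobiSym (Y * U - X * V) p = jacobiSym (X * V - Y * U) p := by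
      rw [hneg, jacobiSym.neg _ hpodd, χ₄_nat_one_mod_four (by omega), one_mul]
    rw [if_pos (by omega : Y % 4 = 0)] at e1
    rw [if_pos (Or.inl (by omega : Y % 4 = 0)), e1, e2, e4, one_mul]
    rw [mul_left_comm, e3]
    rcases (by omega : w % 2 = 0 ∨ w % 2 = 1) with hw2 | hw2
    · rw [if_pos (by omega), if_pos (by omega)]
      norm_num
    · rw [if_neg (by omega), if_neg (by omega)]
      norm_num
  · -- `Y = 2 mod 4`
    have hnorm' : ((p * l : ℕ) : ℤ) = (-(X * U + Y * U + 2 * Y * V)) ^ 2 +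
        (-(X * U + Y * U + 2 * Y * V)) * (Y * U - X * V) + 2 * (Y * U - X * V) ^ 2 := by
      rw [hnorm]
      ring
    have e3 := t_R1 (-(X * U + Y * U + 2 * Y * V)) (Y * U - X * V) (p * l) (by omega) (by omega)
      hne hnorm' (by push_cast; exact hc)
    rw [jacobiSym.mul_right] at e3
    rw [if_neg (by omega : ¬ Y % 4 = 0)] at e1
    rcases (by omega : w % 2 = 0 ∨ w % 2 = 1) with hw2 | hw2
    · have e4 : jacobiSym (X * V - Y * U) l = jacobiSym (Y * U - X * V) l := by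
        have : X * V - Y * U = -(Y * U - X * V) := by ring
        rw [this, jacobiSym.neg _ hlodd, χ₄_nat_one_mod_four (by omega), one_mul]
      rw [if_pos (by omega : V % 4 = 0)] at e2
      rw [if_neg (by omega)] at e3
      rw [if_pos (Or.inr (by omega : V % 4 = 0)), e1, e2, e4, one_mul]
      linear_combination -e3
    · have e4 : jacobiSym (X * V - Y * U) l = -jacobiSym (Y * U - X * V) l := by
        have : X * V - Y * U = -(Y * U - X * V) := by ring
        rw [this, jacobiSym.neg _ hlodd, χ₄_nat_three_mod_four (by omega)]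
        ring
      rw [if_neg (by omega : ¬ V % 4 = 0)] at e2
      rw [if_pos (by omega)] at e3
      rw [if_neg (by omega), e1, e2, e4]
      linear_combination -e3

end Pool.Agent.T2h78.TW
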