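import Pool.Agent.T2h78.TW.Pr
import Pool.Agent.T2h78.TW.G
import Pool.Agent.T2h78.TW.R

/-!
# The primes of `ℤ[(1 + √-7) / 2]` and the reciprocity laws
-/

set_option autoImplicit false
set_option linter.unusedSectionVars false

namespace Pool.Agent.T2h78.TW

open Pool.Agent.Y698 Pool.Agent.Y698.SG Pool.Agent.Y279.SG
open H667R3 Pool.Agent.W192.HK Pool.Agent.TH936.CM Pool.Agent.TH936.PU

/-- inert primes -/
structure Iq (q : ℕ) : Prop extends Gq q where
  ns : ¬ IsSquare (-7 : ZMod q)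

lemma Gq.m2 {q : ℕ} (h : Gq q) : q % 2 = 1 :=
  h.pr.eq_two_or_odd.resolve_left h.n2

lemma Iq.dvd {q : ℕ} (h : Iq q) (x : RR) : x ∈ sp (q : RR) ↔ (q : ℤ) ∣ nR x := by
  rw [mem_inert_iff h.pr h.ns, ZMod.intCast_zmod_eq_zero_iff_dvd]

/-- every integer is a square modulo an inert prime -/
lemma int_sq' {q : ℕ} (h : Iq q) (n : ℤ) :
    IsSquare (Ideal.Quotient.mk (sp (q : RR)) (n : RR)) := by
  have _ : Fact q.Prime := ⟨h.pr⟩
  by_cases h1 : IsSquare ((n : ℤ) : ZMod q)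
  · obtain ⟨s, hs⟩ := h1
    obtain ⟨s, rfl⟩ := ZMod.intCast_surjective s
    refine ⟨Ideal.Quotient.mk _ (s : RR), ?_⟩
    rw [← map_mul]
    have := mk_int_of (q := q) (a := n) (b := s * s) (by push_cast; exact hs)
    push_cast at this
    exact this
  · have hn0 : ((n : ℤ) : ZMod q) ≠ 0 := fun h0 => h1 (by rw [h0]; exact ⟨0, by ring⟩)
    have h70 : (-7 : ZMod q) ≠ 0 := fun h0 => h.ns (by rw [h0]; exact ⟨0, by ring⟩)
    have hq2 : ringChar (ZMod q) ≠ 2 := by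
      rw [ZMod.ringChar_zmod_n]
      exact h.n2
    have e1 : quadraticChar (ZMod q) (n : ZMod q) = -1 :=
      (quadraticChar_neg_one_iff_not_isSquare).2 h1
    have e2 : quadraticChar (ZMod q) (-7 : ZMod q) = -1 :=
      (quadraticChar_neg_one_iff_not_isSquare).2 h.ns
    have e3 : IsSquare ((-7 : ZMod q) * (n : ZMod q)) := by
      rw [← quadraticChar_one_iff_isSquare (mul_ne_zero h70 hn0), map_mul, e1, e2]
      norm_num
    obtain ⟨s, hs⟩ := e3
    obtain ⟨s, rfl⟩ := ZMod.intCast_surjective s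
    obtain ⟨u, v, huv⟩ := cop_inert h.pr h.ns
    have e4 := mk_int_of (q := q) (a := -7 * n) (b := s * s) (by push_cast; exact hs)
    push_cast at e4
    have e5 : Ideal.Quotient.mk (sp (q : RR)) (u * fR) = 1 := by
      rw [← map_one (Ideal.Quotient.mk (sp (q : RR))), Ideal.Quotient.eq,
        Ideal.mem_span_singleton']
      exact ⟨-v, by linear_combination -huv⟩
    refine ⟨Ideal.Quotient.mk _ ((s : RR) * u), ?_⟩
    have e6 : (-7 : RR) = fR ^ 2 := fR_sq.symm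
    rw [e6] at e4
    simp only [map_mul, map_pow] at e4 e5 ⊢
    linear_combination (Ideal.Quotient.mk (sp (q : RR)) u) ^ 2 * e4 -
      Ideal.Quotient.mk (sp (q : RR)) (n : RR) *
        (Ideal.Quotient.mk (sp (q : RR)) u * Ideal.Quotient.mk (sp (q : RR)) fR + 1) * e5

lemma sy_inert' {q : ℕ} (h : Iq q) (x : RR) : sy (q : RR) x = qch q (nR x) := by
  classical
  have _ : Fact q.Prime := ⟨h.pr⟩
  unfold sy
  by_cases h0 : x ∈ sp (q : RR)
  · rw [if_pos h0]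
    rcases qch_val h.pr (nR x) with h1 | h1
    · exact h1.2.symm
    · exact absurd ((h.dvd x).1 h0) h1.1
  have hnd : ¬ (q : ℤ) ∣ nR x := fun h1 => h0 ((h.dvd x).2 h1)
  have hn0 : ((nR x : ℤ) : ZMod q) ≠ 0 := by
    rwa [Ne, ZMod.intCast_zmod_eq_zero_iff_dvd]
  have key : IsSquare (Ideal.Quotient.mk (sp (q : RR)) x) ↔ IsSquare ((nR x : ℤ) : ZMod q) := by
    constructor
    · rintro ⟨y, hy⟩
      obtain ⟨y, rfl⟩ := Ideal.Quotient.mk_surjective y
      refine ⟨((nR y : ℤ) : ZMod q), ?_⟩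
      rw [← map_mul, Ideal.Quotient.eq, Ideal.mem_span_singleton'] at hy
      obtain ⟨c, hc⟩ := hy
      have h1 : x = y * y + (q : RR) * c := by linear_combination -hc
      have h2 : cX x = cX (y * y) + q * cX c ∧ cY x = cY (y * y) + q * cY c := by
        apply cXY_of
        rw [h1]
        push_cast
        have e1 := co (y * y)
        push_cast at e1
        rw [e1, co c]
        ring
      have h3 : ((nR x : ℤ) : ZMod q) = ((nR (y * y) : ℤ) : ZMod q) := by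
        unfold nR
        rw [h2.1, h2.2]
        push_cast
        simp
      rw [h3, nR_mul]
      push_cast
      rfl
    · rintro ⟨s, hs⟩
      obtain ⟨m, rfl⟩ := ZMod.intCast_surjective s
      have e1 := mk_int_of (q := q) (a := nR x) (b := m * m) (by push_cast; exact hs)
      rw [← mul_cj x] at e1
      push_cast at e1
      have e2 : cj x = ((2 * cX x + cY x : ℤ) : RR) - x := by
        apply RR_ext
        · rw [(cXY_cj x).1, sub_eq_add_neg, (cXY_add _ _).1, (cXY_int _).1, (cXY_neg x).1]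
          ring
        · rw [(cXY_cj x).2, sub_eq_add_neg, (cXY_add _ _).2, (cXY_int _).2, (cXY_neg x).2]
          ring
      obtain ⟨t, ht⟩ : ∃ t : ℤ, t = 2 * cX x + cY x := ⟨_, rfl⟩
      rw [e2, ← ht] at e1
      by_cases h5 : (((t + 2 * m : ℤ)) : ZMod q) = 0
      · -- then `x = -m`
        have e3 : Ideal.Quotient.mk (sp (q : RR)) ((t + 2 * m : ℤ) : RR) = 0 := by
          have := mk_int_of (q := q) (a := t + 2 * m) (b := 0) (by rw [h5]; simp)
          rw [this]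
          simp
        have e4 : Ideal.Quotient.mk (sp (q : RR)) ((x + (m : RR)) * (x + (m : RR))) = 0 := by
          push_cast at e3
          simp only [map_mul, map_add, map_sub, map_ofNat] at e1 e3 ⊢
          linear_combination -e1 + Ideal.Quotient.mk (sp (q : RR)) x * e3
        rw [Ideal.Quotient.eq_zero_iff_mem] at e4
        have hpr : (sp (q : RR)).IsPrime := (maximal_sp (irr_inert h.pr h.ns)).isPrime
        have e5 : x + (m : RR) ∈ sp (q : RR) := by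
          rcases hpr.mem_or_mem e4 with h6 | h6 <;> exact h6
        have e6 : Ideal.Quotient.mk (sp (q : RR)) x =
            Ideal.Quotient.mk (sp (q : RR)) ((-m : ℤ) : RR) := by
          rw [Ideal.Quotient.eq]
          push_cast
          rw [sub_neg_eq_add]
          exact e5
        rw [e6]
        exact int_sq' h (-m)
      · obtain ⟨w, hw⟩ := ZMod.intCast_surjective (((t + 2 * m : ℤ) : ZMod q)⁻¹)
        have e3 : Ideal.Quotient.mk (sp (q : RR)) (((t + 2 * m) * w : ℤ) : RR) = 1 := by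
          have := mk_int_of (q := q) (a := (t + 2 * m) * w) (b := 1)
            (by rw [Int.cast_mul, hw, mul_inv_cancel₀ h5]; simp)
          rw [this]
          simp
        obtain ⟨r, hr⟩ := int_sq' h w
        refine ⟨Ideal.Quotient.mk _ (x + (m : RR)) * r, ?_⟩
        push_cast at e3
        simp only [map_mul, map_add, map_sub, map_ofNat] at e1 e3 hr ⊢
        generalize Ideal.Quotient.mk (sp (q : RR)) x = X at *
        generalize Ideal.Quotient.mk (sp (q : RR)) (m : RR) = M at *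
        generalize Ideal.Quotient.mk (sp (q : RR)) (t : RR) = T at *
        generalize Ideal.Quotient.mk (sp (q : RR)) (w : RR) = W at *
        linear_combination (X + M) ^ 2 * hr - X * e3 + W * e1
  rw [if_neg h0, qch_eq]
  by_cases h1 : IsSquare ((nR x : ℤ) : ZMod q)
  · rw [if_pos (key.2 h1), (quadraticChar_one_iff_isSquare hn0).2 h1]
    norm_num
  · rw [if_neg (fun h2 => h1 (key.1 h2)), (quadraticChar_neg_one_iff_not_isSquare).2 h1]
    norm_num

lemma sp_neg (ϖ : RR) : sp (-ϖ) = sp ϖ := Ideal.span_singleton_neg ϖ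

lemma sy_congr {ϖ ϖ' : RR} (h : sp ϖ = sp ϖ') (x : RR) : sy ϖ x = sy ϖ' x := by
  have h1 : ∀ (I J : Ideal RR), I = J →
      (IsSquare (Ideal.Quotient.mk I x) ↔ IsSquare (Ideal.Quotient.mk J x)) := by
    rintro I J rfl
    rfl
  classical
  have h2 := h1 _ _ h
  unfold sy
  have h00 : x ∈ sp ϖ ↔ x ∈ sp ϖ' := by rw [h]
  by_cases h0 : x ∈ sp ϖ
  · rw [if_pos h0, if_pos (h00.1 h0)]
  · rw [if_neg h0, if_neg (fun t => h0 (h00.2 t))]
    by_cases h3 : IsSquare (Ideal.Quotient.mk (sp ϖ) x)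
    · rw [if_pos h3, if_pos (h2.1 h3)]
    · rw [if_neg h3, if_neg (fun h4 => h3 (h2.2 h4))]

lemma sy_negm (ϖ x : RR) : sy (-ϖ) x = sy ϖ x := sy_congr (sp_neg ϖ) x

/-- the prime `±q` which is one modulo four -/
def qs (q : ℕ) : ℤ := if q % 4 = 1 then q else -q

lemma qs_mod {q : ℕ} (h : q % 2 = 1) : qs q % 4 = 1 := by
  unfold qs
  split_ifs with h1
  · omega
  · omega

lemma sp_qs (q : ℕ) : sp ((qs q : ℤ) : RR) = sp (q : RR) := by
  unfold qs
  split_ifs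
  · push_cast
    rfl
  · push_cast
    exact sp_neg _

lemma Iq.po {q : ℕ} (h : Iq q) : PO ((qs q : ℤ) : RR) := by
  have hq := (irr_inert h.pr h.ns).prime
  have hc := cop_inert h.pr h.ns
  refine ⟨?_, ?_, ?_, ?_⟩
  · unfold qs
    split_ifs
    · push_cast
      exact hq
    · push_cast
      exact hq.neg
  · rw [(cXY_int _).1]
    exact qs_mod h.m2
  · rw [(cXY_int _).2]
    rfl
  · unfold qs
    split_ifs
    · push_cast
      exact hc
    · push_cast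
      exact hc.neg_right

lemma Iq.te {q : ℕ} : TW.te ((qs q : ℤ) : RR) = 0 := by
  unfold TW.te
  rw [(cXY_int _).2]
  exact if_pos rfl

lemma Iq.sy {q : ℕ} (h : Iq q) (x : RR) : SG.sy ((qs q : ℤ) : RR) x = qch q (nR x) := by
  rw [sy_congr (sp_qs q), sy_inert' h]

/-- split primes -/
structure Sp1 (p : ℕ) (ϖ : RR) : Prop where
  gp : Gq p
  nr : nR ϖ = p
  x4 : cX ϖ % 4 = 1

section
variable {p : ℕ} {ϖ : RR}

lemma Sp1.y2 (h : Sp1 p ϖ) : cY ϖ % 2 = 0 := by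
  have h1 := h.nr
  have h2 := h.gp.m2
  have h4 := h.x4
  obtain ⟨k, hk⟩ : ∃ k, cX ϖ = 1 + 4 * k := ⟨(cX ϖ - 1) / 4, by omega⟩
  unfold nR at h1
  rw [hk] at h1
  have h3 : (p : ℤ) = 1 + cY ϖ + 2 * (4 * k + 8 * k ^ 2 + 2 * k * cY ϖ + cY ϖ ^ 2) := by
    rw [← h1]
    ring
  omega

lemma Sp1.po (h : Sp1 p ϖ) : PO ϖ := by
  have hirr : Irreducible ϖ := irr_of_prime_norm (by rw [h.nr]; simpa using h.gp.pr)
  refine ⟨hirr.prime, h.x4, h.y2, ?_⟩
  rw [← Ideal.isCoprime_span_singleton_iff]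
  by_contra h0
  rw [not_coprime_iff hirr] at h0
  have h1 := nR_dvd h0
  rw [h.nr, nR_fR] at h1
  have h2 : p ∣ 7 := by exact_mod_cast h1
  exact h.gp.n7 ((Nat.prime_dvd_prime_iff_eq h.gp.pr (by norm_num)).1 h2)

lemma Sp1.sy_int (h : Sp1 p ϖ) (m : ℤ) : sy ϖ (m : RR) = qch p m := by
  have _ : Fact p.Prime := ⟨h.gp.pr⟩
  obtain ⟨φ, hφ⟩ := red h.gp.pr h.nr
  have hint : ∀ m : ℤ, φ (m : RR) = (m : ZMod p) := fun m => map_intCast φ m
  have hsur : Function.Surjective φ := by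
    intro t
    obtain ⟨s, hs⟩ := ZMod.intCast_surjective t
    exact ⟨(s : RR), by rw [hint, hs]⟩
  rw [sy_eq φ hsur hφ, hint, qch_eq]

lemma Sp1.yne (h : Sp1 p ϖ) : cY ϖ ≠ 0 := by
  intro h0
  have h1 := h.nr
  unfold nR at h1
  rw [h0] at h1
  have h2 : (p : ℤ) = cX ϖ * cX ϖ := by linear_combination -h1
  have h3 : p = (cX ϖ).natAbs * (cX ϖ).natAbs := by
    rw [← Int.natAbs_mul, ← h2]
    simp
  exact h.gp.pr.prime.irreducible.not_isSquare ⟨_, h3⟩

lemma Sp1.ycop (h : Sp1 p ϖ) : IsCoprime (cY ϖ) (p : ℤ) := by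
  have hp := Nat.prime_iff_prime_int.1 h.gp.pr
  refine ((hp.irreducible.coprime_iff_not_dvd).2 fun h0 => ?_).symm
  have h1 := h.nr
  unfold nR at h1
  obtain ⟨m, hm⟩ := h0
  have h2 : (p : ℤ) ∣ cX ϖ ^ 2 := ⟨1 - cX ϖ * m - 2 * m * cY ϖ, by rw [hm] at h1 ⊢; linear_combination h1⟩
  obtain ⟨k, hk⟩ := hp.dvd_of_dvd_pow h2
  rw [hk, hm] at h1
  have h3 : (p : ℤ) * (p * (k ^ 2 + k * m + 2 * m ^ 2) - 1) = 0 := by linear_combination h1
  rcases mul_eq_zero.1 h3 with h4 | h4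
  · exact hp.ne_zero h4
  · have h5 : (p : ℤ) ∣ 1 := ⟨k ^ 2 + k * m + 2 * m ^ 2, by linear_combination -h4⟩
    exact hp.not_isUnit (isUnit_of_dvd_one h5)

/-- the symbol of an element -/
lemma Sp1.sy_eq (h : Sp1 p ϖ) (x : RR) :
    sy ϖ x = qch p (cY ϖ) * qch p (cY ϖ * cX x - cX ϖ * cY x) := by
  have h1 : ((cY ϖ : ℤ) : RR) * x - ((cY ϖ * cX x - cX ϖ * cY x : ℤ) : RR) ∈ sp ϖ := by
    rw [Ideal.mem_span_singleton']
    refine ⟨((cY x : ℤ) : RR), ?_⟩
    have e1 := dec x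
    have e2 := dec ϖ
    push_cast
    linear_combination (cY x : RR) * e2 - ((cY ϖ : ℤ) : RR) * e1
  have h2 := sy_per ϖ _ _ h1
  rw [sy_mul h.po.pr, h.sy_int, h.sy_int] at h2
  have h3 : qch p (cY ϖ) = 1 ∨ qch p (cY ϖ) = -1 := by
    rcases qch_val h.gp.pr (cY ϖ) with h4 | h4
    · exfalso
      have hp := Nat.prime_iff_prime_int.1 h.gp.pr
      exact hp.not_isUnit (h.ycop.isUnit_of_dvd' h4.1 (dvd_refl _))
    · exact h4.2
  rw [← h2]
  rcases h3 with h3 | h3 <;> rw [h3] <;> ring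

/-! ### the reciprocity laws -/

lemma qch_sq_one {p : ℕ} (hp : p.Prime) {m : ℤ} (h : ¬ (p : ℤ) ∣ m) : qch p m = 1 ∨ qch p m = -1 := by
  rcases qch_val hp m with h4 | h4
  · exact absurd h4.1 h
  · exact h4.2

lemma Sp1.mod4 (h : Sp1 p ϖ) : (p : ℤ) % 4 = (1 + cY ϖ) % 4 := by
  rw [← h.nr]
  exact h.po.nR4

lemma jac7 (m : ℤ) : e7 ((m : ℤ) : RR) = ((jacobiSym m 7 : ℤ) : ℂ) := by
  unfold e7
  have h1 : r7 ((m : ℤ) : RR) = (m : ZMod 7) := map_intCast _ _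
  rw [h1, ← jacobiSym.legendreSym.to_jacobiSym]
  rfl

lemma Sp1.e7_eq (h : Sp1 p ϖ) : e7 ϖ = ((jacobiSym (2 * cX ϖ + cY ϖ) 7 : ℤ) : ℂ) := by
  have h1 : e7 ϖ = e7 (((cX ϖ + cY ϖ * 4 : ℤ)) : RR) := by
    unfold e7
    rw [r7_apply, map_intCast]
    push_cast
    rfl
  have h2 : jacobiSym (cX ϖ + cY ϖ * 4) 7 = jacobiSym (4 * (2 * cX ϖ + cY ϖ)) 7 := by
    apply jacobiSym.mod_left'
    have e : 4 * (2 * cX ϖ + cY ϖ) = (cX ϖ + cY ϖ * 4) + (7 : ℕ) * cX ϖ := by push_cast; ring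
    rw [e, Int.add_mul_emod_self_left]
  have h3 : jacobiSym 4 7 = 1 := by
    have : (4 : ℤ) = 2 ^ 2 := by norm_num
    rw [this]
    exact jacobiSym.sq_one' (a := 2) (b := 7) (by decide)
  rw [h1, jac7, h2, jacobiSym.mul_left, h3, one_mul]

lemma dvd_cop {p : ℕ} (hp : p.Prime) {m : ℤ} (h : ¬ (p : ℤ) ∣ m) : IsCoprime m (p : ℤ) :=
  (((Nat.prime_iff_prime_int.1 hp).irreducible.coprime_iff_not_dvd).2 h).symm

lemma cop_dvd {p : ℕ} (hp : p.Prime) {m : ℤ} (h : IsCoprime m (p : ℤ)) : ¬ (p : ℤ) ∣ m := fun h1 =>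
  (Nat.prime_iff_prime_int.1 hp).not_isUnit (h.isUnit_of_dvd' h1 (dvd_refl _))

/-- the symbol of `√-7` -/
theorem Sp1.fR (h : Sp1 p ϖ) : sl ϖ Pool.Agent.Y698.fR = lg (e7 ϖ) := by
  have hp := h.gp.pr
  have hp2 := h.gp.n2
  have hp7 := h.gp.n7
  have hnr := h.nr
  unfold nR at hnr
  have hc : ¬ (p : ℤ) ∣ (2 * cX ϖ + cY ϖ) := by
    intro h1
    have h2 : (p : ℤ) ∣ 7 * cY ϖ ^ 2 := by
      have e : 7 * cY ϖ ^ 2 = 4 * p - (2 * cX ϖ + cY ϖ) ^ 2 := by rw [← hnr]; ring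
      rw [e]
      exact dvd_sub (Dvd.intro_left _ rfl) (h1.trans (Dvd.intro (2 * cX ϖ + cY ϖ) (by ring)))
    have hpp := Nat.prime_iff_prime_int.1 hp
    rcases hpp.dvd_or_dvd h2 with h3 | h3
    · have h4 : p ∣ 7 := by exact_mod_cast h3
      exact hp7 ((Nat.prime_dvd_prime_iff_eq hp (by norm_num)).1 h4)
    · exact cop_dvd hp h.ycop (hpp.dvd_of_dvd_pow h3)
  have r1 := t_R1 (cX ϖ) (cY ϖ) p h.x4 h.y2 h.yne hnr.symm h.ycop
  have r2 := t_R2 (cX ϖ) (cY ϖ) p h.x4 h.y2 hnr.symm (dvd_cop hp hc)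
  have e1 := h.sy_eq Pool.Agent.Y698.fR
  rw [cXY_fR.1, cXY_fR.2] at e1
  have e2 : cY ϖ * -1 - cX ϖ * 2 = -1 * (2 * cX ϖ + cY ϖ) := by ring
  rw [e2, qch_mul, ← mul_assoc, ← qch_mul] at e1
  have e3 : qch p (cY ϖ * -1) = 1 := by
    have hodd : Odd p := Nat.odd_iff.2 h.gp.m2
    rw [qch_mul]
    unfold qch
    rw [r1, jacobiSym.at_neg_one hodd]
    have h4 := h.mod4
    have hy := h.y2
    split_ifs with h0
    · rw [ZMod.χ₄_nat_one_mod_four (by omega)]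
      norm_num
    · rw [ZMod.χ₄_nat_three_mod_four (by omega)]
      norm_num
  rw [e3, one_mul] at e1
  unfold sl
  rw [e1, h.e7_eq, ← r2]
  rfl

/-- two split primes -/
theorem Sp1.rcp {l : ℕ} {μ : RR} (h : Sp1 p ϖ) (h' : Sp1 l μ) (h1 : ϖ ∉ sp μ) (h2 : μ ∉ sp ϖ) :
    sl μ ϖ + sl ϖ μ = TW.te ϖ * TW.te μ := by
  have hp := h.gp.pr
  have hl := h'.gp.pr
  set D := cY ϖ * cX μ - cX ϖ * cY μ with hD
  have s1 := h.sy_eq μ
  have s2 := h'.sy_eq ϖ
  rw [← hD] at s1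
  have eD : cY μ * cX ϖ - cX μ * cY ϖ = cX ϖ * cY μ - cY ϖ * cX μ := by ring
  rw [eD] at s2
  have n1 := sy_sgn h2
  have n2 := sy_sgn h1
  have d1 : ¬ (p : ℤ) ∣ D := by
    intro hd
    have h3 : qch p D = 0 := by
      rcases qch_val hp D with h4 | h4
      · exact h4.2
      · exact absurd hd h4.1
    rw [h3, mul_zero] at s1
    rw [s1] at n1
    rcases n1 with h | h <;> norm_num at h
  have d2 : ¬ (l : ℤ) ∣ (cX ϖ * cY μ - cY ϖ * cX μ) := by
    intro hd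
    have h3 : qch l (cX ϖ * cY μ - cY ϖ * cX μ) = 0 := by
      rcases qch_val hl (cX ϖ * cY μ - cY ϖ * cX μ) with h4 | h4
      · exact h4.2
      · exact absurd hd h4.1
    rw [h3, mul_zero] at s2
    rw [s2] at n2
    rcases n2 with h | h <;> norm_num at h
  have d3 : ¬ (l : ℤ) ∣ D := by
    intro h3
    apply d2
    have : cX ϖ * cY μ - cY ϖ * cX μ = -D := by rw [hD]; ring
    rw [this]
    exact h3.neg_right
  have hco : IsCoprime D ((p : ℤ) * l) := (dvd_cop hp d1).mul_right (dvd_cop hl d3)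
  have hn := h.nr
  have hn' := h'.nr
  unfold nR at hn hn'
  have r3 := t_R3 (cX ϖ) (cY ϖ) (cX μ) (cY μ) p l hp hl h.x4 h.y2 h'.x4 h'.y2 hn.symm hn'.symm hco
  have h5 : sy μ ϖ * sy ϖ μ = if cY ϖ % 4 = 0 ∨ cY μ % 4 = 0 then 1 else -1 := by
    rw [s1, s2, hD]
    unfold qch
    have h6 := congrArg (fun t : ℤ => (t : ℂ)) r3
    push_cast at h6
    rw [mul_comm, h6]
  unfold sl
  rw [← lg_mul n2 n1, h5]
  unfold TW.te
  by_cases c1 : cY ϖ % 4 = 0
  · rw [if_pos (Or.inl c1), if_pos c1, lg_one, zero_mul]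
  · by_cases c2 : cY μ % 4 = 0
    · rw [if_pos (Or.inr c2), if_pos c2, lg_one, mul_zero]
    · rw [if_neg (by rintro (h | h); exact c1 h; exact c2 h), if_neg c1, if_neg c2, lg_neg_one,
        one_mul]

end

lemma qch_qs {p q : ℕ} (h1 : p % 2 = 1) (h2 : q % 2 = 1) : qch p (qs q) = qch q p := by
  have ho : Odd p := Nat.odd_iff.2 h1
  have ho' : Odd q := Nat.odd_iff.2 h2
  unfold qch qs
  congr 1
  split_ifs with h3
  · exact jacobiSym.quadratic_reciprocity_one_mod_four h3 ho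
  · rw [← neg_one_mul, jacobiSym.mul_left, jacobiSym.at_neg_one ho]
    have h4 : q % 4 = 3 := by omega
    rcases (by omega : p % 4 = 1 ∨ p % 4 = 3) with h5 | h5
    · rw [ZMod.χ₄_nat_one_mod_four h5, one_mul]
      exact (jacobiSym.quadratic_reciprocity_one_mod_four h5 ho').symm
    · rw [ZMod.χ₄_nat_three_mod_four h5, jacobiSym.quadratic_reciprocity_three_mod_four h4 h5]
      ring

lemma Iq.fR {q : ℕ} (h : Iq q) : sl ((qs q : ℤ) : RR) Pool.Agent.Y698.fR =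
    lg (e7 ((qs q : ℤ) : RR)) := by
  unfold sl
  rw [h.sy, nR_fR, jac7]
  congr 1
  have h1 := qch_qs (p := 7) (q := q) rfl h.m2
  unfold qch at h1 ⊢
  push_cast at h1
  exact h1.symm

lemma Iq.rcp {q l : ℕ} (h : Iq q) (_h' : Iq l) (hne : q ≠ l) :
    sl ((qs q : ℤ) : RR) ((qs l : ℤ) : RR) = 0 := by
  unfold sl
  rw [h.sy]
  have h1 : nR ((qs l : ℤ) : RR) = (l : ℤ) * l := by
    rw [nR_int]
    unfold qs
    split_ifs <;> ring
  have hl : ¬ (q : ℤ) ∣ (l : ℤ) := by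
    intro hd
    exact hne ((Nat.prime_dvd_prime_iff_eq h.pr _h'.pr).1 (by exact_mod_cast hd))
  rw [h1, qch_mul]
  rcases qch_sq_one h.pr hl with h2 | h2 <;> rw [h2]
  · rw [one_mul, lg_one]
  · rw [neg_one_mul, neg_neg, lg_one]

lemma Sp1.rcp2 {p q : ℕ} {ϖ : RR} (h : Sp1 p ϖ) (h' : Iq q) :
    sl ((qs q : ℤ) : RR) ϖ = sl ϖ ((qs q : ℤ) : RR) := by
  unfold sl
  rw [h'.sy, h.nr, h.sy_int, qch_qs h.gp.m2 h'.m2]

end Pool.Agent.T2h78.TW
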