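import Pool.Agent.T2h78.TW.Pu
import Pool.Agent.Y698.Shd

/-!
# The 2-torsion of the Tate-Shafarevich group of the twists
-/

set_option autoImplicit false
set_option linter.unusedSectionVars false

attribute [-instance] DivisionRing.toRatAlgebra

namespace Pool.Agent.T2h78.TW

open Pool.Agent.Y698 Pool.Agent.Y698.SG

open WeierstrassCurve IsDedekindDomain NumberField WithZero

open Pool.Agent.TH841.SH.D (Pt act Gal Coch IsCoc IsCob LocTriv)
open Pool.Agent.TH841.NF.D (IsShaCoc)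
open Pool.Agent.TH841.SH (IsR IsX gf isX_zero isX_some not_isX)
open Pool.Agent.TH841.NF (act_act act_id act_some' pt_ext pt_inj coc_fin)

open scoped Classical

section

variable {D : ℕ} {K F : Type} [Field K] [NumberField K] [Field F] [NumberField F] [Algebra K F]
  [Algebra F (Cb K)] [IsScalarTower K F (Cb K)] [IsGalois F (Cb K)]

/-- the restriction of the cocycle to `F` is a coboundary -/
theorem res_cobD {g : Coch (EE K D)} (hg : Co2D (D := D) g) {a : F} (ha : a ^ 2 = a - 2)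
    (hF : ∀ x : F, ∃ k₁ k₂ : K, x = algebraMap K F k₁ + algebraMap K F k₂ * a)
    {V : Set (Valuation F ℤᵐ⁰)} {S : Finset ℕ}
    (hC : C1 a ha V S) (hDS : D = ∏ q ∈ S, q)
    (hV : ∀ w ∈ V, (∀ x : 𝓞 F, w (algebraMap (𝓞 F) F x) ≤ 1) ∧
      ∃ x : 𝓞 F, x ≠ 0 ∧ w (algebraMap (𝓞 F) F x) < 1)
    (hun : ∀ P : HeightOneSpectrum (𝓞 F), P.valuation F 2 < 1 → P.valuation F 2 = exp (-1))
    (hunD : ∀ P : HeightOneSpectrum (𝓞 F), P.valuation F (D : F) < 1 →
      P.valuation F (D : F) = exp (-1)) :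
    ∃ R : Pt (EE K D) (Cb K), (R + R) + (R + R) = 0 ∧
      ∀ τ : Gal K, τ (algebraMap F (Cb K) a) = algebraMap F (Cb K) a →
        g τ = act (EE K D) τ.toAlgHom R - R := by
  have hD4 : D % 4 = 1 := by
    rw [hDS]
    exact hC.m4
  have hD0 : D ≠ 0 := by
    rintro rfl
    omega
  have hDD : DD F S = (D : F) := by rw [DD_cast, hDS]
  set c : Cb K := algebraMap F (Cb K) a with hcd
  have hc : c ^ 2 = c - 2 := by
    rw [hcd, ← map_pow, ha, map_sub, map_ofNat]
  have h2 : (2 : Cb K) ≠ 0 := two_ne_zero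
  have hIs := isRD (K := K) hc D
  obtain ⟨hs0, n1, n2, n3⟩ := rAB_ne hD0 hc
  have hF' : ∀ x : F, ∃ k₁ k₂ : K, x = algebraMap K F k₁ + algebraMap K F k₂ * (1 - a) := by
    intro x
    obtain ⟨k₁, k₂, rfl⟩ := hF x
    refine ⟨k₁ + k₂, -k₂, ?_⟩
    rw [map_add, map_neg]
    ring
  obtain ⟨qB, sB, hqB, hsB, hfB, hPB⟩ := sel_classD hD0 hg ha hF
  obtain ⟨qA, sA, hqA, hsA, hfA, hPA⟩ := sel_classD hD0 hg (ha_conj ha) hF'
  have hcB := hC.main (d := qB) (by
    rw [hDD]
    exact PDD.of_four ha hD4 (rfl : (1 : F ≃+* F) a = a) hV hun hunD hqB hPB)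
  have hcA := hC.conj.main (d := qA) (by
    rw [hDD]
    exact PDD.of_four (ha_conj ha) hD4 (rfl : (1 : F ≃+* F) (1 - a) = 1 - a) hV hun hunD hqA hPA)
  unfold SDD at hcA hcB
  rw [hDD] at hcA hcB
  have hconj : algebraMap F (Cb K) (1 - a) = 1 - c := by rw [map_sub, map_one]
  rw [hconj, rB_conj] at hfA
  -- the classes of the cocycle
  have kB : ∀ τ : Gal K, τ c = c → (τ sB = sB ↔ IsX ((EE K D).baseChange (Cb K)) (rB D c) (g τ)) := hfB
  have kA : ∀ τ : Gal K, τ c = c → (τ sA = sA ↔ IsX ((EE K D).baseChange (Cb K)) (rA D c) (g τ)) := by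
    intro τ hτ
    exact hfA τ (by rw [map_sub, map_one, hτ])
  have hfx : ∀ τ : Gal K, τ c = c → ∀ x : F, τ (algebraMap F (Cb K) x) = algebraMap F (Cb K) x :=
    fun τ hτ => fix_F hF hτ
  have hAF : rA D c = algebraMap F (Cb K) (rA D a) := ((map_rAB (algebraMap F (Cb K)) D a).1).symm
  have hBF : rB D c = algebraMap F (Cb K) (rB D a) := ((map_rAB (algebraMap F (Cb K)) D a).2).symm
  -- a trivial class
  have triv : ∀ {q : F} {s : Cb K}, SqE q 1 → s ^ 2 = algebraMap F (Cb K) q → ∀ τ : Gal K, τ c = c →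
      τ s = s := by
    rintro q s ⟨z, hz, hq⟩ hs τ hτ
    refine (fixiff (hfx τ hτ) hz (t := 1) ?_).2 (map_one τ)
    rw [hs, hq, one_mul, map_pow, mul_one]
  -- a nontrivial class
  have ntriv : ∀ {q d w : F} {s G : Cb K}, SqE q d → s ^ 2 = algebraMap F (Cb K) q → w ≠ 0 →
      G ^ 2 = algebraMap F (Cb K) (d * w ^ 2) → ∀ τ : Gal K, τ c = c → (τ s = s ↔ τ G = G) := by
    rintro q d w s G ⟨z, hz, hq⟩ hs hw hG τ hτ
    refine fixiff (hfx τ hτ) (div_ne_zero hz hw) ?_
    have hw' : algebraMap F (Cb K) w ≠ 0 := by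
      rw [Ne, map_eq_zero]
      exact hw
    rw [hs, hq, mul_pow, hG, ← map_pow, ← map_mul]
    congr 1
    field_simp
  have ha0 : a ≠ 0 := by
    rintro rfl
    norm_num at ha
  have hb0 : 1 - a ≠ 0 := by
    intro h0
    have := ab_eq ha
    rw [h0, mul_zero] at this
    norm_num at this
  have hs0F : 2 * a - 1 ≠ 0 := s_ne ha
  -- from the pairings to the equality
  have fin : ∀ R : Pt (EE K D) (Cb K), (R + R) + (R + R) = 0 →
      (∀ τ : Gal K, τ c = c →
        ((IsX ((EE K D).baseChange (Cb K)) (rA D c) (g τ) ↔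
          IsX ((EE K D).baseChange (Cb K)) (rA D c) (act (EE K D) τ.toAlgHom R - R)) ∧
        (IsX ((EE K D).baseChange (Cb K)) (rB D c) (g τ) ↔
          IsX ((EE K D).baseChange (Cb K)) (rB D c) (act (EE K D) τ.toAlgHom R - R)))) →
      ∃ R : Pt (EE K D) (Cb K), (R + R) + (R + R) = 0 ∧
        ∀ τ : Gal K, τ c = c → g τ = act (EE K D) τ.toAlgHom R - R := by
    intro R hR h
    refine ⟨R, hR, fun τ hτ => ?_⟩
    have hT : (act (EE K D) τ.toAlgHom R - R) + (act (EE K D) τ.toAlgHom R - R) = 0 := by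
      have e : ∀ A B : Pt (EE K D) (Cb K), (A - B) + (A - B) = (A + A) - (B + B) :=
        fun A B => by abel
      rw [e, ← map_add, tor_fixD hc hτ hR, sub_self]
    exact hIs.rot.ext h2 n3 n1.symm n2.symm (hg.two τ) hT (h τ hτ).1 (h τ hτ).2
  have hns : ∀ e : Cb K, (0 : Cb K) ^ 2 = (e - 0) * (e - rA D c) * (e - rB D c) →
      ((EE K D).baseChange (Cb K)).toAffine.Nonsingular e 0 := fun e he => hIs.nons h2 n1 n2 n3 he
  have hhalf : ∀ (e : Cb K) (hn : ((EE K D).baseChange (Cb K)).toAffine.Nonsingular e 0),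
      ∃ R : Pt (EE K D) (Cb K), R + R = (Affine.Point.some e 0 hn :
        ((EE K D).baseChange (Cb K)).toAffine.Point) ∧ (R + R) + (R + R) = 0 := by
    intro e hn
    obtain ⟨R, hR⟩ : ∃ R : Pt (EE K D) (Cb K), (Affine.Point.some e 0 hn :
        ((EE K D).baseChange (Cb K)).toAffine.Point) = R + R :=
      hIs.div h2 n1 n2 n3 (Affine.Point.some e 0 hn)
    refine ⟨R, hR.symm, ?_⟩
    have h4 : @HAdd.hAdd (Pt (EE K D) (Cb K)) (Pt (EE K D) (Cb K)) _ _ (Affine.Point.some e 0 hn)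
        (Affine.Point.some e 0 hn) = 0 := (hIs.add_self h2 hn).2 rfl
    have h5 : (R + R : Pt (EE K D) (Cb K)) = (Affine.Point.some e 0 hn :
        ((EE K D).baseChange (Cb K)).toAffine.Point) := hR.symm
    rw [h5]
    exact h4
  rcases hcB with hB | hB <;> rcases hcA with hA | hA
  · -- both classes are trivial
    refine fin 0 (by rw [add_zero, add_zero]) (fun τ hτ => ?_)
    rw [map_zero, sub_zero]
    have e1 := (kA τ hτ).1 (triv hA hsA τ hτ)
    have e2 := (kB τ hτ).1 (triv hB hsB τ hτ)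
    exact ⟨⟨fun _ => isX_zero _, fun _ => e1⟩, ⟨fun _ => isX_zero _, fun _ => e2⟩⟩
  · -- the point `(eB, 0)`
    have hn := hns (rB D c) (by ring)
    obtain ⟨R, hR, hR4⟩ := hhalf (rB D c) hn
    obtain ⟨G0, GA, GB, g0, gA, gB, -, hS⟩ := halfptD hD0 hc hn R hR
    refine fin R hR4 (fun τ hτ => ?_)
    obtain ⟨t0, tA, tB⟩ := hS τ hτ
    have hGA : GA ≠ 0 := by
      rintro rfl
      apply n3
      linear_combination gA
    have hG0 : G0 ≠ 0 := by
      rintro rfl
      apply n2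
      linear_combination g0
    constructor
    · rw [← kA τ hτ, ← tA.iff hGA]
      refine ntriv (w := 1) hA hsA one_ne_zero ?_ τ hτ
      rw [gA, hAF, hBF, ← map_sub]
      congr 1
      have := rA_sub ha D
      linear_combination -this
    · have e1 := (kB τ hτ).1 (triv hB hsB τ hτ)
      refine ⟨fun _ => ?_, fun _ => e1⟩
      have hT : (act (EE K D) τ.toAlgHom R - R) + (act (EE K D) τ.toAlgHom R - R) = 0 := by
        have e : ∀ A B : Pt (EE K D) (Cb K), (A - B) + (A - B) = (A + A) - (B + B) :=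
          fun A B => by abel
        rw [e, ← map_add, tor_fixD hc hτ hR4, sub_self]
      refine isX_three hIs h2 n1 hT ?_
      rw [← t0.iff hG0, ← tA.iff hGA]
      refine fixiff (hfx τ hτ) (z := a ^ 2) (pow_ne_zero 2 ha0) ?_
      rw [mul_pow, g0, gA, hAF, hBF, ← map_sub, ← map_pow, ← map_mul]
      congr 1
      have h7 := rA_sub ha D
      have h8 : rB D a = (D : F) * (-((2 * a - 1) * a ^ 4)) := rfl
      linear_combination h8 + a ^ 4 * h7
  · -- the point `(eA, 0)`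
    have hn := hns (rA D c) (by ring)
    obtain ⟨R, hR, hR4⟩ := hhalf (rA D c) hn
    obtain ⟨G0, GA, GB, g0, gA, gB, -, hS⟩ := halfptD hD0 hc hn R hR
    refine fin R hR4 (fun τ hτ => ?_)
    obtain ⟨t0, tA, tB⟩ := hS τ hτ
    have hGB : GB ≠ 0 := by
      rintro rfl
      apply n3
      linear_combination -gB
    have hG0 : G0 ≠ 0 := by
      rintro rfl
      apply n1
      linear_combination g0
    constructor
    · have e1 := (kA τ hτ).1 (triv hA hsA τ hτ)
      refine ⟨fun _ => ?_, fun _ => e1⟩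
      have hT : (act (EE K D) τ.toAlgHom R - R) + (act (EE K D) τ.toAlgHom R - R) = 0 := by
        have e : ∀ A B : Pt (EE K D) (Cb K), (A - B) + (A - B) = (A + A) - (B + B) :=
          fun A B => by abel
        rw [e, ← map_add, tor_fixD hc hτ hR4, sub_self]
      refine isX_three hIs.rot.rot.swap h2 n2 hT ?_
      rw [← t0.iff hG0, ← tB.iff hGB]
      refine fixiff (hfx τ hτ) (z := (1 - a) ^ 2) (pow_ne_zero 2 hb0) ?_
      rw [mul_pow, g0, gB, hAF, hBF, ← map_sub, ← map_pow, ← map_mul]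
      congr 1
      have h7 := rA_sub ha D
      have h8 : rA D a = (D : F) * ((2 * a - 1) * (1 - a) ^ 4) := rfl
      linear_combination h8 - (1 - a) ^ 4 * h7
    · rw [← kB τ hτ, ← tB.iff hGB]
      refine ntriv (w := 1) hB hsB one_ne_zero ?_ τ hτ
      rw [gB, hAF, hBF, ← map_sub]
      congr 1
      have := rA_sub ha D
      linear_combination this
  · -- the point `(0, 0)`
    have hn := hns 0 (by ring)
    obtain ⟨R, hR, hR4⟩ := hhalf 0 hn
    obtain ⟨G0, GA, GB, g0, gA, gB, -, hS⟩ := halfptD hD0 hc hn R hR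
    refine fin R hR4 (fun τ hτ => ?_)
    obtain ⟨t0, tA, tB⟩ := hS τ hτ
    have hGB : GB ≠ 0 := by
      rintro rfl
      apply n2
      linear_combination -gB
    have hGA : GA ≠ 0 := by
      rintro rfl
      apply n1
      linear_combination -gA
    constructor
    · rw [← kA τ hτ, ← tA.iff hGA]
      refine ntriv (w := (1 - a) ^ 2) hA hsA (pow_ne_zero 2 hb0) ?_ τ hτ
      rw [gA, hAF, zero_sub, ← map_neg]
      congr 1
      unfold rA eA
      ring
    · rw [← kB τ hτ, ← tB.iff hGB]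
      refine ntriv (w := a ^ 2) hB hsB (pow_ne_zero 2 ha0) ?_ τ hτ
      rw [gB, hBF, zero_sub, ← map_neg]
      congr 1
      unfold rB eB
      ring

/-- **The cocycle is a coboundary.** -/
theorem g_cobD {g : Coch (EE K D)} (hg : Co2D (D := D) g) {a : F} (ha : a ^ 2 = a - 2)
    (hF : ∀ x : F, ∃ k₁ k₂ : K, x = algebraMap K F k₁ + algebraMap K F k₂ * a)
    {V : Set (Valuation F ℤᵐ⁰)} {S : Finset ℕ}
    (hC : C1 a ha V S) (hDS : D = ∏ q ∈ S, q)
    (hV : ∀ w ∈ V, (∀ x : 𝓞 F, w (algebraMap (𝓞 F) F x) ≤ 1) ∧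
      ∃ x : 𝓞 F, x ≠ 0 ∧ w (algebraMap (𝓞 F) F x) < 1)
    (hun : ∀ P : HeightOneSpectrum (𝓞 F), P.valuation F 2 < 1 → P.valuation F 2 = exp (-1))
    (hunD : ∀ P : HeightOneSpectrum (𝓞 F), P.valuation F (D : F) < 1 →
      P.valuation F (D : F) = exp (-1)) :
    ∃ R : Pt (EE K D) (Cb K), ∀ τ : Gal K, g τ = act (EE K D) τ.toAlgHom R - R := by
  obtain ⟨R, hR4, hR⟩ := res_cobD hg ha hF hC hDS hV hun hunD
  have hD4 : D % 4 = 1 := by
    rw [hDS]
    exact hC.m4
  have hD0 : D ≠ 0 := by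
    rintro rfl
    omega
  have hDD : DD F S = (D : F) := by rw [DD_cast, hDS]
  set c : Cb K := algebraMap F (Cb K) a with hcd
  have hc : c ^ 2 = c - 2 := by
    rw [hcd, ← map_pow, ha, map_sub, map_ofNat]
  have h2 : (2 : Cb K) ≠ 0 := two_ne_zero
  have hIs := isRD (K := K) hc D
  obtain ⟨hs0, n1, n2, n3⟩ := rAB_ne hD0 hc
  have ha0 : a ≠ 0 := by
    rintro rfl
    norm_num at ha
  have hb0 : 1 - a ≠ 0 := by
    intro h0
    have := ab_eq ha
    rw [h0, mul_zero] at this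
    norm_num at this
  have hs0F : 2 * a - 1 ≠ 0 := s_ne ha
  -- `±√-7` is not a square
  have hnsq : ∀ z w : F, w ≠ 0 → z ^ 2 ≠ ((D : F) * (2 * a - 1)) * w ^ 2 ∧
      z ^ 2 ≠ -((D : F) * (2 * a - 1)) * w ^ 2 := by
    intro z w hw
    obtain ⟨v, k, hk⟩ := hC.w7s
    rw [hDD] at hk
    have key : ∀ e : F, v e = exp (2 * k + 1) → z ^ 2 ≠ e * w ^ 2 := by
      intro e he h
      have h1 := congrArg v h
      have hz : z ≠ 0 := by
        rintro rfl
        rw [zero_pow two_ne_zero] at h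
        have h3 : e ≠ 0 := by
          rintro rfl
          rw [map_zero] at he
          exact exp_ne_zero he.symm
        exact mul_ne_zero h3 (pow_ne_zero 2 hw) h.symm
      obtain ⟨m, hm⟩ := vexp (w := v) hz
      obtain ⟨l, hl⟩ := vexp (w := v) hw
      rw [map_mul, map_pow, map_pow, hm, hl, he, ← exp_nsmul, ← exp_nsmul, ← exp_add,
        exp_inj] at h1
      simp only [nsmul_eq_mul, Nat.cast_ofNat] at h1
      omega
    exact ⟨key _ hk, key _ (by rw [Valuation.map_neg, hk])⟩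
  set g' : Coch (EE K D) := fun τ => g τ - (act (EE K D) τ.toAlgHom R - R) with hg'
  have hg'e : ∀ τ, g' τ = g τ - (act (EE K D) τ.toAlgHom R - R) := fun τ => rfl
  have hcoc : ∀ σ τ : Gal K, g' (σ * τ) = g' σ + act (EE K D) σ.toAlgHom (g' τ) := by
    intro σ τ
    rw [hg'e, hg'e, hg'e, hg.coc, act_mul', map_sub, map_sub]
    abel
  have h0 : ∀ τ : Gal K, τ c = c → g' τ = 0 := by
    intro τ hτ
    rw [hg'e, hR τ hτ, sub_self]
  have h4 : ∀ τ : Gal K, (g' τ + g' τ) + (g' τ + g' τ) = 0 := by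
    intro τ
    have e : ∀ A B D : Pt (EE K D) (Cb K), ((A - (B - D)) + (A - (B - D))) +
        ((A - (B - D)) + (A - (B - D))) = (A + A) + (A + A) - (((B + B) + (B + B)) -
          ((D + D) + (D + D))) := fun A B D => by abel
    rw [hg'e, e, hg.two, add_zero, ← map_add, ← map_add, hR4, map_zero, sub_zero, sub_zero]
  have hor : ∀ τ : Gal K, τ c = c ∨ τ c = 1 - c := by
    intro τ
    have h1 : (τ c) ^ 2 = τ c - 2 := by
      rw [← map_pow, hc, map_sub, map_ofNat]
    have h3 : (τ c - c) * (τ c - (1 - c)) = 0 := by linear_combination h1 - hc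
    rcases mul_eq_zero.1 h3 with h | h
    · exact Or.inl (sub_eq_zero.1 h)
    · exact Or.inr (sub_eq_zero.1 h)
  -- the values outside of the subgroup
  by_cases hall : ∀ τ : Gal K, g' τ = 0
  · exact ⟨R, fun τ => sub_eq_zero.1 (hall τ)⟩
  push Not at hall
  obtain ⟨ρ, hρ⟩ := hall
  have hρc : ρ c = 1 - c := (hor ρ).resolve_left (fun h => hρ (h0 ρ h))
  have hinvc : ∀ τ : Gal K, τ c = 1 - c → τ⁻¹ c = 1 - c := by
    intro τ hτ
    apply τ.injective
    rw [← AlgEquiv.mul_apply, mul_inv_cancel, AlgEquiv.one_apply, map_sub, map_one, hτ]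
    ring
  have hconst : ∀ τ : Gal K, τ c = 1 - c → g' τ = g' ρ := by
    intro τ hτ
    have h5 : τ = ρ * (ρ⁻¹ * τ) := by rw [mul_inv_cancel_left]
    have h6 : (ρ⁻¹ * τ) c = c := by
      rw [AlgEquiv.mul_apply, hτ, map_sub, map_one, hinvc ρ hρc]
      ring
    rw [h5, hcoc, h0 _ h6, map_zero, add_zero]
  set U := g' ρ with hU
  have hUfix : ∀ τ : Gal K, τ c = c → act (EE K D) τ.toAlgHom U = U := by
    intro τ hτ
    have h5 : (τ * ρ) c = 1 - c := by
      rw [AlgEquiv.mul_apply, hρc, map_sub, map_one, hτ]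
    have h6 := hcoc τ ρ
    rw [hconst _ h5, h0 τ hτ, zero_add] at h6
    exact h6.symm
  have hUρ : U + act (EE K D) ρ.toAlgHom U = 0 := by
    have h5 : (ρ * ρ) c = c := by
      rw [AlgEquiv.mul_apply, hρc, map_sub, map_one, hρc]
      ring
    have h6 := hcoc ρ ρ
    rw [h0 _ h5] at h6
    exact h6.symm
  have hAF : rA D c = algebraMap F (Cb K) (rA D a) := ((map_rAB (algebraMap F (Cb K)) D a).1).symm
  have hBF : rB D c = algebraMap F (Cb K) (rB D a) := ((map_rAB (algebraMap F (Cb K)) D a).2).symm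
  -- `U` is of order two
  have hU2 : U + U = 0 := by
    by_contra hne
    have hinF : ∀ G : Cb K, (∀ φ : Cb K →ₐ[K] Cb K, φ c = c → act (EE K D) φ U = U → φ G = G) →
        ∃ z : F, algebraMap F (Cb K) z = G := by
      intro G hG
      apply fixm
      intro τ
      have hτc : (τ.restrictScalars K) c = c := τ.commutes a
      exact hG (τ.restrictScalars K).toAlgHom hτc (hUfix _ hτc)
    have h44 : (U + U) + (U + U) = 0 := h4 ρ
    rcases hIs.tors h2 h44 with h5 | ⟨hn, h5⟩ | ⟨hn, h5⟩ | ⟨hn, h5⟩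
    · exact hne h5
    · obtain ⟨G0, GA, GB, g0, gA, gB, hfx, -⟩ := halfptD hD0 hc hn U h5
      obtain ⟨z, hz⟩ := hinF GB (fun φ h6 h7 => (hfx φ h6 h7).2.2)
      apply (hnsq z (a ^ 2) (pow_ne_zero 2 ha0)).1
      apply (algebraMap F (Cb K)).injective
      rw [map_pow, hz, gB, zero_sub, hBF, ← map_neg]
      congr 1
      unfold rB eB
      ring
    · obtain ⟨G0, GA, GB, g0, gA, gB, hfx, -⟩ := halfptD hD0 hc hn U h5
      obtain ⟨z, hz⟩ := hinF GB (fun φ h6 h7 => (hfx φ h6 h7).2.2)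
      apply (hnsq z 1 one_ne_zero).1
      apply (algebraMap F (Cb K)).injective
      rw [map_pow, hz, gB, hBF, hAF, ← map_sub]
      congr 1
      have := rA_sub ha D
      linear_combination this
    · obtain ⟨G0, GA, GB, g0, gA, gB, hfx, -⟩ := halfptD hD0 hc hn U h5
      obtain ⟨z, hz⟩ := hinF GA (fun φ h6 h7 => (hfx φ h6 h7).2.1)
      apply (hnsq z 1 one_ne_zero).2
      apply (algebraMap F (Cb K)).injective
      rw [map_pow, hz, gA, hBF, hAF, ← map_sub]
      congr 1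
      have := rA_sub ha D
      linear_combination -this
  -- the conjugate points
  have hA' : ∀ ρ : Gal K, ρ c = 1 - c → ρ (rA D c) = rB D c := by
    intro ρ hρc
    rw [show ρ (rA D c) = (ρ : Cb K →+* Cb K) (rA D c) from rfl, (map_rAB _ D c).1]
    rw [show (ρ : Cb K →+* Cb K) c = 1 - c from hρc, rA_conj]
  have hB' : ∀ ρ : Gal K, ρ c = 1 - c → ρ (rB D c) = rA D c := by
    intro ρ hρc
    rw [show ρ (rB D c) = (ρ : Cb K →+* Cb K) (rB D c) from rfl, (map_rAB _ D c).2]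
    rw [show (ρ : Cb K →+* Cb K) c = 1 - c from hρc, rB_conj]
  have hdbl : ∀ A B : Pt (EE K D) (Cb K), A + A = 0 → A + B = 0 → B = A := fun A B hA hB =>
    (eq_neg_of_add_eq_zero_right hB).trans (eq_neg_of_add_eq_zero_left hA).symm
  have hactU : act (EE K D) ρ.toAlgHom U = U := hdbl U _ hU2 hUρ
  have hns : ∀ e : Cb K, (0 : Cb K) ^ 2 = (e - 0) * (e - rA D c) * (e - rB D c) →
      ((EE K D).baseChange (Cb K)).toAffine.Nonsingular e 0 := fun e he => hIs.nons h2 n1 n2 n3 he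
  have hnA := hns (rA D c) (by ring)
  have hnB := hns (rB D c) (by ring)
  obtain ⟨hn0, hsum⟩ := hIs.rot.add_two n3 hnA hnB
  set TA : Pt (EE K D) (Cb K) := Affine.Point.some (rA D c) 0 hnA with hTA
  set TB : Pt (EE K D) (Cb K) := Affine.Point.some (rB D c) 0 hnB with hTB
  have hTA2 : TA + TA = 0 := (hIs.add_self h2 hnA).2 rfl
  have hTB2 : TB + TB = 0 := (hIs.add_self h2 hnB).2 rfl
  have hsum' : TA + TB = (Affine.Point.some 0 0 hn0 :
    ((EE K D).baseChange (Cb K)).toAffine.Point) := hsum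
  have hconjA : ∀ τ : Gal K, τ c = 1 - c → act (EE K D) τ.toAlgHom TA = TB := by
    intro τ hτ
    rw [hTA, hTB]
    exact pt_ext _ _ (hA' τ hτ) (map_zero τ)
  have hconjB : ∀ τ : Gal K, τ c = 1 - c → act (EE K D) τ.toAlgHom TB = TA := by
    intro τ hτ
    rw [hTA, hTB]
    exact pt_ext _ _ (hB' τ hτ) (map_zero τ)
  have hne : TA ≠ TB := by
    intro h
    exact n3 (pt_inj _ _ h).1
  have hU0 : U = TA + TB := by
    rcases hIs.tors h2 hU2 with h5 | ⟨hn, h5⟩ | ⟨hn, h5⟩ | ⟨hn, h5⟩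
    · exact absurd h5 hρ
    · rw [hsum']
      exact h5
    · exfalso
      have h6 : U = TA := h5
      rw [h6, hconjA ρ hρc] at hactU
      exact hne hactU.symm
    · exfalso
      have h6 : U = TB := h5
      rw [h6, hconjB ρ hρc] at hactU
      exact hne hactU
  refine ⟨R + TA, fun τ => ?_⟩
  have h6 : g τ = g' τ + (act (EE K D) τ.toAlgHom R - R) := by
    rw [hg'e]
    abel
  rcases hor τ with hτ | hτ
  · rw [h6, h0 τ hτ, map_add, tor_fixD hc hτ hTA2]
    abel
  · rw [h6, hconst τ hτ, hU0, map_add, hconjA τ hτ]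
    have h7 : ∀ X : Pt (EE K D) (Cb K), TA + TB + (X - R) = X + TB - (R + TA) + (TA + TA) :=
      fun X => by abel
    rw [h7, hTA2, add_zero]

end

end Pool.Agent.T2h78.TW
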