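import Pool.Agent.T2h78.TW.Yv

/-!
# The sums over the classes: the sum over the squares
-/

set_option autoImplicit false
set_option linter.unusedSectionVars false

open Filter
open scoped Topology PeriodPair

namespace Pool.Agent.T2h78.TW

open Pool.Agent.Y698 Pool.Agent.Y698.SG Pool.Agent.Y279.SG
open H667R3 Pool.Agent.W192.HK Pool.Agent.TH936.CM Pool.Agent.TH936.PU

variable {L : PeriodPair} {Ω : ℂ}

lemma sum_unit {n u : RR} (_hn : n ≠ 0) (hu : IsCoprime u n) [Fintype (RR ⧸ sp n)] {F : RR → ℂ}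
    (hF : Pe n F) : ∑ x : RR ⧸ sp n, F (u * x.out) = ∑ x : RR ⧸ sp n, F x.out := by
  obtain ⟨a, b, hab⟩ := hu
  have hb : Function.Bijective (fun x : RR ⧸ sp n => Ideal.Quotient.mk (sp n) (u * x.out)) := by
    refine Finite.injective_iff_bijective.1 fun x y hxy => ?_
    have h1 : u * x.out - u * y.out ∈ sp n := by
      rw [← Ideal.Quotient.mk_eq_mk_iff_sub_mem]
      exact hxy
    apply mk_eq
    have h2 : x.out - y.out = a * (u * x.out - u * y.out) + (b * (x.out - y.out)) * n := by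
      linear_combination -(x.out - y.out) * hab
    rw [h2]
    exact add_mem (Ideal.mul_mem_left _ _ h1)
      (Ideal.mul_mem_left _ _ (Ideal.mem_span_singleton_self n))
  have h3 : ∀ x : RR ⧸ sp n, F (u * x.out) =
      F (Ideal.Quotient.mk (sp n) (u * x.out) : RR ⧸ sp n).out := by
    intro x
    apply hF
    exact out_mk (sp n) (u * x.out)
  rw [Finset.sum_congr rfl fun x _ => h3 x]
  exact Function.Bijective.sum_comp hb (fun x : RR ⧸ sp n => F x.out)

lemma PO.bR_notin {ϖ : RR} (h : PO ϖ) : bR ∉ sp ϖ := by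
  intro h1
  rw [Ideal.mem_span_singleton] at h1
  have h2 : ϖ ∣ 2 := by
    rw [← aR_mul_bR]
    exact h1.mul_left _
  exact h.pr.not_isUnit (h.odd.isUnit_of_dvd' h2 (dvd_refl _))

lemma PO.fR_notin {ϖ : RR} (h : PO ϖ) : fR ∉ sp ϖ := by
  intro h1
  rw [Ideal.mem_span_singleton] at h1
  exact h.pr.not_isUnit (h.cop.isUnit_of_dvd' h1 (dvd_refl _))

lemma mul_notin {ϖ : RR} (h : Prime ϖ) {u : RR} (hu : u ∉ sp ϖ) (x : RR) :
    u * x ∉ sp ϖ ↔ x ∉ sp ϖ := not_congr (prime_mem h hu)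

open Classical in
lemma hc_ite {ϖ : RR} (x : RR) : hc ϖ x = if x ∉ sp ϖ ∧ sl ϖ x = 0 then 1 else 0 := by
  unfold hc tr
  rcases sy_val ϖ x with ⟨h1, h2⟩ | ⟨h1, h2 | h2⟩
  · rw [h2, if_pos h1, if_neg (fun h => h.1 h1)]
    norm_num
  · have h3 : sl ϖ x = 0 := by unfold sl; rw [h2, lg_one]
    rw [h2, if_neg h1, if_pos ⟨h1, h3⟩]
    norm_num
  · have h3 : sl ϖ x = 1 := by unfold sl; rw [h2, lg_neg_one]
    rw [h2, if_neg h1, if_neg]
    · norm_num
    · rintro ⟨_, h4⟩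
      rw [h3] at h4
      exact absurd h4 (by decide)

open Classical in
lemma prod_hc {ι : Type} (S : Finset ι) (π : ι → RR) (x : RR) :
    ∏ i ∈ S, hc (π i) x = if ∀ i ∈ S, x ∉ sp (π i) ∧ sl (π i) x = 0 then 1 else 0 := by
  split_ifs with h
  · exact Finset.prod_eq_one fun i hi => by rw [hc_ite, if_pos (h i hi)]
  · push Not at h
    obtain ⟨i, hi, h1⟩ := h
    refine Finset.prod_eq_zero hi ?_
    rw [hc_ite, if_neg]
    rintro ⟨h2, h3⟩
    exact h1 h2 h3

open Classical in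
/-- the function on a class -/
noncomputable def Cf {ι : Type} (L : PeriodPair) (Ω : ℂ) (π : ι → RR) (S : Finset ι)
    (t : ι → ZMod 2) (x : RR) : ℂ :=
  if ∀ i ∈ S, x ∉ sp (π i) ∧ sl (π i) x = t i then Wf L Ω (∏ i ∈ S, π i) x else 0

lemma Cs_eq {ι : Type} (S : Finset ι) (π : ι → RR) (t : ι → ZMod 2)
    [Fintype (RR ⧸ sp (∏ i ∈ S, π i))] :
    Cs (Wf L Ω) π (fun i => sl (π i)) S t = ∑ x : RR ⧸ sp (∏ i ∈ S, π i), Cf L Ω π S t x.out := by
  classical
  unfold Cs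
  rw [finsum_eq_sum_of_fintype]
  refine Finset.sum_congr rfl fun x _ => ?_
  unfold Cf
  simp only [Ideal.mem_span_singleton]

lemma Wf_per (hL : IsLat L RR Ω) {n : RR} (hn : n ≠ 0) {x y : RR} (h : x - y ∈ sp n) :
    Wf L Ω n x = Wf L Ω n y := by
  unfold Wf
  apply ef_per
  have h1 := (div_mem_iff hL hn (x - y)).2 h
  convert h1 using 1
  push_cast
  ring

lemma Cf_per {ι : Type} (hL : IsLat L RR Ω) (S : Finset ι) {π : ι → RR} (hn : ∏ i ∈ S, π i ≠ 0)
    (t : ι → ZMod 2) : Pe (∏ i ∈ S, π i) (Cf L Ω π S t) := by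
  intro x y hxy
  have h1 : ∀ i ∈ S, x - y ∈ sp (π i) := fun i hi =>
    (Ideal.span_singleton_le_span_singleton.2 (Finset.dvd_prod_of_mem _ hi)) hxy
  have h2 : (∀ i ∈ S, x ∉ sp (π i) ∧ sl (π i) x = t i) ↔
      ∀ i ∈ S, y ∉ sp (π i) ∧ sl (π i) y = t i := by
    refine forall₂_congr fun i hi => ?_
    rw [sp_mem_iff (h1 i hi), sl_per (h1 i hi)]
  unfold Cf
  rw [Wf_per hL hn hxy]
  classical
  exact if_congr h2 rfl rfl

section
variable [Fintype (RR ⧸ sp fR)] {Γ : Type} [LinearOrderedCommGroupWithZero Γ] {v : Valuation ℂ Γ}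

theorem Y_red (h : LD L Ω) (hv : v al < 1) {T : ℂ}
    (hT : Tendsto (fun δ : ℝ => GG Ω δ 1) (𝓝[>] 0) (𝓝 T)) {ι : Type} [DecidableEq ι]
    {S : Finset ι} {π : ι → RR} (hS : FO S π) (hne : S.Nonempty) :
    v (Bg L Ω T (∏ i ∈ S, π i) (fun m => ∏ i ∈ S, hc (π i) m) -
      (Cs (Wf L Ω) π (fun i => sl (π i)) S (fun i => sl (π i) bR) +
        Cs (Wf L Ω) π (fun i => sl (π i)) S (fun i => sl (π i) fR + sl (π i) bR))) < 1 := by
  classical
  have hL := h.lat
  have hvT := T_unit h hv hT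
  have hg := hS.gm
  have f1 := fin_quot hg.ne
  let _ : Fintype (RR ⧸ sp (∏ i ∈ S, π i)) := Fintype.ofFinite _
  have hcb : IsCoprime bR (∏ i ∈ S, π i) := by
    have h1 := hg.odd
    rw [← aR_mul_bR] at h1
    exact h1.of_mul_left_right
  set n := ∏ i ∈ S, π i with hn
  rw [Cs_eq, Cs_eq, Bg_eq]
  set β : ι → ZMod 2 := fun i => sl (π i) bR with hβ
  -- first substitution
  have e1 : ∑ x : RR ⧸ sp n, (fun m => ∏ i ∈ S, hc (π i) m) x.out *
      Gv L Ω T (Ω * x.out / (n : ℂ)) =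
      ∑ x : RR ⧸ sp n, (∏ i ∈ S, hc (π i) (bR * x.out)) *
        Gv L Ω T (Ω * ((bR * x.out : RR) : ℂ) / (n : ℂ)) := by
    have hper : Pe n (fun m => (∏ i ∈ S, hc (π i) m) * Gv L Ω T (Ω * m / (n : ℂ))) :=
      fun x y hxy => Bg_term hL T hg.ne (Pe.prod fun q _ => hc_per (π q)) hxy
    exact (sum_unit hg.ne hcb hper).symm
  have e2 : ∑ x : RR ⧸ sp n, Cf L Ω π S (fun i => sl (π i) fR + sl (π i) bR) x.out =
      ∑ x : RR ⧸ sp n, Cf L Ω π S (fun i => sl (π i) fR + sl (π i) bR) (fR * x.out) :=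
    (sum_unit hg.ne hg.cop (Cf_per hL S hg.ne _)).symm
  rw [e1, e2, ← Finset.sum_add_distrib, ← Finset.sum_sub_distrib]
  refine Pool.Agent.TH936.PU.v_sum_lt _ fun x _ => ?_
  set y : RR := x.out
  by_cases hP : ∀ i ∈ S, y ∉ sp (π i) ∧ sl (π i) y = sl (π i) bR
  · have h1 : ∏ i ∈ S, hc (π i) (bR * y) = 1 := by
      rw [prod_hc, if_pos]
      intro i hi
      have hp := hS.po i hi
      refine ⟨(mul_notin hp.pr hp.bR_notin y).2 (hP i hi).1, ?_⟩
      rw [sl_mul hp.pr hp.bR_notin (hP i hi).1, (hP i hi).2]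
      exact CharTwo.add_self_eq_zero _
    have h2 : Cf L Ω π S β y = Wf L Ω n y := if_pos hP
    have h3 : Cf L Ω π S (fun i => sl (π i) fR + sl (π i) bR) (fR * y) = Wf L Ω n (fR * y) := by
      refine if_pos fun i hi => ?_
      have hp := hS.po i hi
      refine ⟨(mul_notin hp.pr hp.fR_notin y).2 (hP i hi).1, ?_⟩
      rw [sl_mul hp.pr hp.fR_notin (hP i hi).1, (hP i hi).2]
    rw [h1, h2, h3, one_mul, add_comm (Wf L Ω n y)]
    refine G_red h hv hT hvT hg fun h4 => ?_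
    obtain ⟨i, hi⟩ := hne
    exact (hP i hi).1 ((Ideal.span_singleton_le_span_singleton.2 (Finset.dvd_prod_of_mem _ hi)) h4)
  · have h1 : ∏ i ∈ S, hc (π i) (bR * y) = 0 := by
      rw [prod_hc, if_neg]
      intro h5
      apply hP
      intro i hi
      have hp := hS.po i hi
      have h6 := h5 i hi
      have h7 := (mul_notin hp.pr hp.bR_notin y).1 h6.1
      refine ⟨h7, ?_⟩
      have h8 := h6.2
      rw [sl_mul hp.pr hp.bR_notin h7] at h8
      exact (CharTwo.add_eq_zero.1 h8).symm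
    have h2 : Cf L Ω π S β y = 0 := if_neg hP
    have h3 : Cf L Ω π S (fun i => sl (π i) fR + sl (π i) bR) (fR * y) = 0 := by
      refine if_neg fun h5 => hP fun i hi => ?_
      have hp := hS.po i hi
      have h6 := h5 i hi
      have h7 := (mul_notin hp.pr hp.fR_notin y).1 h6.1
      refine ⟨h7, ?_⟩
      have h8 := h6.2
      rw [sl_mul hp.pr hp.fR_notin h7] at h8
      exact add_left_cancel h8
    rw [h1, h2, h3, zero_mul, add_zero, sub_zero, map_zero]
    exact zero_lt_one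

end

end Pool.Agent.T2h78.TW
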